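import Pool.Agent.TH238.T4NF

set_option autoImplicit false

/-!
Transfer of the basin theorem to a two dimensional complex space.
-/

namespace Pool.Agent.TH238

open Set Filter Topology Metric

/-- `orb f n z = f (n - 1) (⋯ (f 0 z))` -/
def orb {E : Type*} (f : ℕ → E → E) : ℕ → E → E
  | 0 => fun z => z
  | n + 1 => fun z => f n (orb f n z)

section

variable {E : Type*} [NormedAddCommGroup E] [NormedSpace ℂ E]

theorem main_lin (P : E ≃L[ℂ] ℂ × ℂ) {f g : ℕ → E → E} {a b : ℕ → ℂ} {B R C D : ℝ}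
    (df : ∀ n, Differentiable ℂ (f n)) (dg : ∀ n, Differentiable ℂ (g n))
    (lf : ∀ n z, g n (f n z) = z) (rf : ∀ n z, f n (g n z) = z)
    (hC : 0 < C) (hD : D < 1) (hCD : D ^ 4 < C)
    (ha : ∀ n, C ≤ ‖a n‖ ∧ ‖a n‖ ≤ D) (hb : ∀ n, C ≤ ‖b n‖ ∧ ‖b n‖ ≤ D)
    (hR : 0 < R) (h0 : ∀ n, f n 0 = 0)
    (hfd : ∀ n v, P (fderiv ℂ (f n) 0 v) = (a n * (P v).1, b n * (P v).2))
    (hB : ∀ n z, ‖z‖ < R → ‖f n z‖ ≤ B) :
    IsOpen {z | Tendsto (fun n => orb f n z) atTop (𝓝 0)} ∧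
    ∃ φ ψ : E → E, Differentiable ℂ φ ∧
      DifferentiableOn ℂ ψ {z | Tendsto (fun n => orb f n z) atTop (𝓝 0)} ∧
      range φ = {z | Tendsto (fun n => orb f n z) atTop (𝓝 0)} ∧
      (∀ z, ψ (φ z) = z) ∧
      ∀ w ∈ {z | Tendsto (fun n => orb f n z) atTop (𝓝 0)}, φ (ψ w) = w := by
  set F : ℕ → ℂ × ℂ → ℂ × ℂ := fun n p => P (f n (P.symm p)) with hF
  set G : ℕ → ℂ × ℂ → ℂ × ℂ := fun n p => P (g n (P.symm p)) with hG
  have dP : Differentiable ℂ P := P.differentiable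
  have dPs : Differentiable ℂ P.symm := P.symm.differentiable
  have hPs : ∀ p : ℂ × ℂ, ‖P.symm p‖ ≤ ‖(P.symm : ℂ × ℂ →L[ℂ] E)‖ * ‖p‖ := fun p =>
    (P.symm : ℂ × ℂ →L[ℂ] E).le_opNorm p
  have hPn : ∀ z : E, ‖P z‖ ≤ ‖(P : E →L[ℂ] ℂ × ℂ)‖ * ‖z‖ := fun z =>
    (P : E →L[ℂ] ℂ × ℂ).le_opNorm z
  set K := ‖(P.symm : ℂ × ℂ →L[ℂ] E)‖ with hK
  have hK0 : 0 ≤ K := norm_nonneg _
  have main : IsC2 F := by
    refine main_diag (fi := G) (B := ‖(P : E →L[ℂ] ℂ × ℂ)‖ * B) (R := R / (K + 1))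
      (fun n => dP.comp ((df n).comp dPs)) (fun n => dP.comp ((dg n).comp dPs))
      (fun n p => by simp [hF, hG, lf]) (fun n p => by simp [hF, hG, rf]) hC hD hCD ha hb
      (by positivity) (fun n => by simp [hF, h0]) ?_ ?_
    · intro n v
      have h1 : HasFDerivAt (F n) ((P : E →L[ℂ] ℂ × ℂ).comp ((fderiv ℂ (f n) 0).comp
          (P.symm : ℂ × ℂ →L[ℂ] E))) 0 := by
        have h2 : HasFDerivAt (fun p => f n (P.symm p)) ((fderiv ℂ (f n) 0).comp
            (P.symm : ℂ × ℂ →L[ℂ] E)) 0 := by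
          have h3 : HasFDerivAt (f n) (fderiv ℂ (f n) 0) (P.symm 0) := by
            rw [map_zero]; exact ((df n) 0).hasFDerivAt
          exact h3.comp 0 P.symm.hasFDerivAt
        exact P.hasFDerivAt.comp 0 h2
      rw [h1.fderiv]
      simp [hfd]
    · intro n p hp
      have h1 : ‖P.symm p‖ < R := by
        refine (hPs p).trans_lt ?_
        rw [lt_div_iff₀ (by positivity)] at hp
        nlinarith [norm_nonneg p]
      exact (hPn _).trans (mul_le_mul_of_nonneg_left (hB n _ h1) (norm_nonneg _))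
  have key : ∀ n z, fwd F 0 n (P z) = P (orb f n z) := by
    intro n z
    induction n with
    | zero => rfl
    | succ n ih => rw [fwd_succ, ih, zero_add]; simp [hF, orb]
  have hset : {z | Tendsto (fun n => orb f n z) atTop (𝓝 0)} =
      P ⁻¹' {p | Tendsto (fun n => fwd F 0 n p) atTop (𝓝 0)} := by
    ext z
    simp only [mem_ofPred_eq, mem_preimage, key]
    constructor
    · intro h
      have := (P.continuous.tendsto 0).comp h
      simpa [Function.comp_def] using this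
    · intro h
      have := (P.symm.continuous.tendsto 0).comp h
      simpa [Function.comp_def] using this
  obtain ⟨ho, φ, ψ, d1, d2, hra, e1, e2⟩ := main
  rw [hset]
  refine ⟨ho.preimage P.continuous, fun z => P.symm (φ (P z)), fun z => P.symm (ψ (P z)),
    dPs.comp (d1.comp dP), ?_, ?_, ?_, ?_⟩
  · exact dPs.comp_differentiableOn (d2.comp dP.differentiableOn (fun z hz => hz))
  · ext z
    simp only [mem_range, mem_preimage]
    constructor
    · rintro ⟨y, rfl⟩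
      rw [P.apply_symm_apply, ← hra]
      exact mem_range_self _
    · intro hz
      rw [← hra] at hz
      obtain ⟨y, hy⟩ := hz
      exact ⟨P.symm y, by rw [P.apply_symm_apply, hy, P.symm_apply_apply]⟩
  · intro z
    simp [e1]
  · intro w hw
    simp only [P.apply_symm_apply]
    rw [e2 _ hw, P.symm_apply_apply]

/-- Norm bounds near the origin pass to the derivative. -/
theorem fderiv_bounds {f : E → E} (df : Differentiable ℂ f) {r C D : ℝ} (hr : 0 < r)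
    (h : ∀ z, ‖z‖ < r → C * ‖z‖ ≤ ‖f z‖ ∧ ‖f z‖ ≤ D * ‖z‖) (v : E) :
    C * ‖v‖ ≤ ‖fderiv ℂ f 0 v‖ ∧ ‖fderiv ℂ f 0 v‖ ≤ D * ‖v‖ := by
  have h0 : f 0 = 0 := by
    have := (h 0 (by simpa using hr)).2
    rw [norm_zero, mul_zero] at this
    exact norm_le_zero_iff.1 this
  by_cases hv : v = 0
  · subst hv; simp
  have hv' : 0 < ‖v‖ := norm_pos_iff.2 hv
  have hd : HasDerivAt (fun t : ℂ => f (t • v)) (fderiv ℂ f 0 v) 0 := by
    have h2 : HasDerivAt (fun t : ℂ => t • v) v 0 := by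
      simpa using (hasDerivAt_id (0 : ℂ)).smul_const v
    have h3 : HasFDerivAt f (fderiv ℂ f 0) ((fun t : ℂ => t • v) 0) := by
      simpa using (df 0).hasFDerivAt
    exact h3.comp_hasDerivAt 0 h2
  have ht := (hasDerivAt_iff_tendsto_slope_zero.1 hd).norm
  have hev : ∀ᶠ t : ℂ in 𝓝[≠] 0, C * ‖v‖ ≤ ‖t⁻¹ • (f ((0 + t) • v) - f ((0 : ℂ) • v))‖ ∧
      ‖t⁻¹ • (f ((0 + t) • v) - f ((0 : ℂ) • v))‖ ≤ D * ‖v‖ := by
    have h1 : ∀ᶠ t : ℂ in 𝓝[≠] 0, ‖t‖ < r / ‖v‖ := by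
      apply eventually_nhdsWithin_of_eventually_nhds
      have : Tendsto (fun t : ℂ => ‖t‖) (𝓝 0) (𝓝 0) := tendsto_norm_zero
      exact this.eventually_lt_const (by positivity)
    filter_upwards [h1, self_mem_nhdsWithin] with t ht1 ht2
    have ht0 : t ≠ 0 := ht2
    have htp : 0 < ‖t‖ := norm_pos_iff.2 ht0
    rw [zero_add, zero_smul, h0, sub_zero, norm_smul, norm_inv]
    have hn : ‖t • v‖ = ‖t‖ * ‖v‖ := norm_smul _ _
    have h2 := h (t • v) (by rw [hn]; rwa [lt_div_iff₀ hv'] at ht1)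
    rw [hn] at h2
    constructor
    · rw [inv_mul_eq_div, le_div_iff₀ htp]; linarith [h2.1]
    · rw [inv_mul_eq_div, div_le_iff₀ htp]; linarith [h2.2]
  exact ⟨ge_of_tendsto ht (hev.mono fun t h => h.1), le_of_tendsto ht (hev.mono fun t h => h.2)⟩

end

end Pool.Agent.TH238
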