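import Mathlib

set_option autoImplicit false

/-!
The core estimate: pulling back a small translation by an automorphism of `ℂ²` with constant
Jacobian determinant.
-/

namespace Pool.Agent.TH238

open Set Filter Topology Metric

/-- 2 × 2 determinant of a linear map of `ℂ × ℂ`. -/
noncomputable def det2 (A : ℂ × ℂ →L[ℂ] ℂ × ℂ) : ℂ :=
  (A (1, 0)).1 * (A (0, 1)).2 - (A (0, 1)).1 * (A (1, 0)).2

theorem clm_apply (A : ℂ × ℂ →L[ℂ] ℂ × ℂ) (v : ℂ × ℂ) :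
    A v = v.1 • A (1, 0) + v.2 • A (0, 1) := by
  rw [← map_smul, ← map_smul, ← map_add]
  congr 1
  ext <;> simp

theorem det2_comp (A B : ℂ × ℂ →L[ℂ] ℂ × ℂ) : det2 (A.comp B) = det2 A * det2 B := by
  unfold det2
  simp only [ContinuousLinearMap.comp_apply]
  rw [clm_apply A (B (1, 0)), clm_apply A (B (0, 1))]
  simp only [Prod.fst_add, Prod.snd_add, Prod.smul_fst, Prod.smul_snd, smul_eq_mul]
  ring

theorem det2_id : det2 (ContinuousLinearMap.id ℂ (ℂ × ℂ)) = 1 := by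
  simp [det2]

/-- Cauchy estimate for a partial derivative. -/
theorem partial_bound {H : ℂ × ℂ → ℂ × ℂ} (hH : Differentiable ℂ H) {r1 r2 R1 R2 : ℝ}
    (hr1 : 0 < r1) (hr2 : 0 < r2)
    (hmap : ∀ p : ℂ × ℂ, ‖p.1‖ ≤ r1 → ‖p.2‖ ≤ r2 → ‖(H p).1‖ ≤ R1 ∧ ‖(H p).2‖ ≤ R2)
    {u : ℂ × ℂ} (h1 : ‖u.1‖ ≤ r1 / 2) (h2 : ‖u.2‖ ≤ r2 / 2) :
    ‖(fderiv ℂ H u (1, 0)).1‖ ≤ R1 / (r1 / 2) ∧ ‖(fderiv ℂ H u (1, 0)).2‖ ≤ R2 / (r1 / 2) ∧
    ‖(fderiv ℂ H u (0, 1)).1‖ ≤ R1 / (r2 / 2) ∧ ‖(fderiv ℂ H u (0, 1)).2‖ ≤ R2 / (r2 / 2) := by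
  have hd : ∀ e : ℂ × ℂ, HasDerivAt (fun s : ℂ => H (u + s • e)) (fderiv ℂ H u e) 0 := by
    intro e
    have h3 : HasDerivAt (fun s : ℂ => u + s • e) e 0 := by
      simpa using ((hasDerivAt_id (0 : ℂ)).smul_const e).const_add u
    have h4 : HasFDerivAt H (fderiv ℂ H u) (u + (0 : ℂ) • e) := by
      simpa using (hH u).hasFDerivAt
    exact h4.comp_hasDerivAt (0 : ℂ) h3
  have hd1 : ∀ e : ℂ × ℂ, deriv (fun s : ℂ => (H (u + s • e)).1) 0 = (fderiv ℂ H u e).1 :=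
    fun e => ((ContinuousLinearMap.fst ℂ ℂ ℂ).hasFDerivAt.comp_hasDerivAt (0 : ℂ) (hd e)).deriv
  have hd2 : ∀ e : ℂ × ℂ, deriv (fun s : ℂ => (H (u + s • e)).2) 0 = (fderiv ℂ H u e).2 :=
    fun e => ((ContinuousLinearMap.snd ℂ ℂ ℂ).hasFDerivAt.comp_hasDerivAt (0 : ℂ) (hd e)).deriv
  have hdc : ∀ e : ℂ × ℂ, ∀ R : ℝ,
      DiffContOnCl ℂ (fun s : ℂ => (H (u + s • e)).1) (ball 0 R) ∧
      DiffContOnCl ℂ (fun s : ℂ => (H (u + s • e)).2) (ball 0 R) := by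
    intro e R
    have h5 : Differentiable ℂ (fun s : ℂ => H (u + s • e)) :=
      hH.comp (by fun_prop)
    exact ⟨(h5.fst).diffContOnCl, (h5.snd).diffContOnCl⟩
  have b1 : ∀ s ∈ sphere (0 : ℂ) (r1 / 2), ‖(u + s • ((1, 0) : ℂ × ℂ)).1‖ ≤ r1 ∧
      ‖(u + s • ((1, 0) : ℂ × ℂ)).2‖ ≤ r2 := by
    intro s hs
    rw [mem_sphere_zero_iff_norm] at hs
    constructor
    · have : ‖u.1 + s‖ ≤ ‖u.1‖ + ‖s‖ := norm_add_le _ _
      simp only [Prod.fst_add, Prod.smul_fst, smul_eq_mul, mul_one]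
      linarith
    · simp only [Prod.snd_add, Prod.smul_snd, smul_eq_mul, mul_zero, add_zero]
      linarith
  have b2 : ∀ s ∈ sphere (0 : ℂ) (r2 / 2), ‖(u + s • ((0, 1) : ℂ × ℂ)).1‖ ≤ r1 ∧
      ‖(u + s • ((0, 1) : ℂ × ℂ)).2‖ ≤ r2 := by
    intro s hs
    rw [mem_sphere_zero_iff_norm] at hs
    constructor
    · simp only [Prod.fst_add, Prod.smul_fst, smul_eq_mul, mul_zero, add_zero]
      linarith
    · have : ‖u.2 + s‖ ≤ ‖u.2‖ + ‖s‖ := norm_add_le _ _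
      simp only [Prod.snd_add, Prod.smul_snd, smul_eq_mul, mul_one]
      linarith
  refine ⟨?_, ?_, ?_, ?_⟩
  · rw [← hd1]
    exact Complex.norm_deriv_le_of_forall_mem_sphere_norm_le (by linarith) (hdc _ _).1
      (fun s hs => (hmap _ (b1 s hs).1 (b1 s hs).2).1)
  · rw [← hd2]
    exact Complex.norm_deriv_le_of_forall_mem_sphere_norm_le (by linarith) (hdc _ _).2
      (fun s hs => (hmap _ (b1 s hs).1 (b1 s hs).2).2)
  · rw [← hd1]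
    exact Complex.norm_deriv_le_of_forall_mem_sphere_norm_le (by linarith) (hdc _ _).1
      (fun s hs => (hmap _ (b2 s hs).1 (b2 s hs).2).1)
  · rw [← hd2]
    exact Complex.norm_deriv_le_of_forall_mem_sphere_norm_le (by linarith) (hdc _ _).2
      (fun s hs => (hmap _ (b2 s hs).1 (b2 s hs).2).2)

/-- The core displacement estimate. -/
theorem core {H Hi : ℂ × ℂ → ℂ × ℂ} (hH : Differentiable ℂ H) (hHi : Differentiable ℂ Hi)
    (li : ∀ p, Hi (H p) = p) (ri : ∀ p, H (Hi p) = p) {J : ℂ}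
    (hJ : ∀ p, det2 (fderiv ℂ H p) = J) (hJ0 : J ≠ 0) {r1 r2 R1 R2 : ℝ}
    (hr1 : 0 < r1) (hr2 : 0 < r2) (hR1 : 0 ≤ R1) (hR2 : 0 ≤ R2)
    (hmap : ∀ p : ℂ × ℂ, ‖p.1‖ ≤ r1 → ‖p.2‖ ≤ r2 → ‖(H p).1‖ ≤ R1 ∧ ‖(H p).2‖ ≤ R2)
    {p δ : ℂ × ℂ} (hp1 : ‖p.1‖ ≤ 3 / 8 * r1) (hp2 : ‖p.2‖ ≤ 3 / 8 * r2) {κ : ℝ}
    (hκ : 2 * (R2 * ‖δ.1‖ + R1 * ‖δ.2‖) / (‖J‖ * (r1 * r2)) < κ) (hκ8 : κ ≤ 1 / 8) :
    ‖(Hi (H p + δ)).1 - p.1‖ ≤ κ * r1 ∧ ‖(Hi (H p + δ)).2 - p.2‖ ≤ κ * r2 := by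
  have hJp : 0 < ‖J‖ := norm_pos_iff.2 hJ0
  set u : ℝ → ℂ × ℂ := fun τ => Hi (H p + (τ : ℂ) • δ) with hu
  set u' : ℝ → ℂ × ℂ := fun τ => fderiv ℂ Hi (H p + (τ : ℂ) • δ) δ with hu'
  have hud : ∀ τ : ℝ, HasDerivAt u (u' τ) τ := by
    intro τ
    have h3 : HasDerivAt (fun s : ℂ => H p + s • δ) δ (τ : ℂ) := by
      simpa using ((hasDerivAt_id (τ : ℂ)).smul_const δ).const_add (H p)
    have h4 : HasDerivAt (fun s : ℂ => Hi (H p + s • δ)) (u' τ) (τ : ℂ) :=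
      (hHi _).hasFDerivAt.comp_hasDerivAt (τ : ℂ) h3
    have h5 := h4.scomp τ (Complex.ofRealCLM.hasDerivAt (x := τ))
    rw [Complex.ofRealCLM_apply, Complex.ofReal_one, one_smul] at h5
    exact h5
  have hHu : ∀ τ : ℝ, fderiv ℂ H (u τ) (u' τ) = δ := by
    intro τ
    have h5 : HasFDerivAt (fun q => H (Hi q))
        ((fderiv ℂ H (u τ)).comp (fderiv ℂ Hi (H p + (τ : ℂ) • δ))) (H p + (τ : ℂ) • δ) :=
      (hH _).hasFDerivAt.comp _ (hHi _).hasFDerivAt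
    have h6 : HasFDerivAt (fun q => H (Hi q)) (ContinuousLinearMap.id ℂ (ℂ × ℂ))
        (H p + (τ : ℂ) • δ) := by
      have : (fun q => H (Hi q)) = fun q => q := funext ri
      rw [this]; exact hasFDerivAt_id _
    have h7 := h5.unique h6
    exact congrArg (fun L : ℂ × ℂ →L[ℂ] ℂ × ℂ => L δ) h7
  -- Cramer
  have hcr : ∀ τ : ℝ, J * (u' τ).1 = (fderiv ℂ H (u τ) (0, 1)).2 * δ.1 -
        (fderiv ℂ H (u τ) (0, 1)).1 * δ.2 ∧
      J * (u' τ).2 = (fderiv ℂ H (u τ) (1, 0)).1 * δ.2 -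
        (fderiv ℂ H (u τ) (1, 0)).2 * δ.1 := by
    intro τ
    have h1 := hHu τ
    rw [clm_apply] at h1
    have h2 := congrArg Prod.fst h1
    have h3 := congrArg Prod.snd h1
    simp only [Prod.fst_add, Prod.snd_add, Prod.smul_fst, Prod.smul_snd, smul_eq_mul] at h2 h3
    have h4 := hJ (u τ)
    unfold det2 at h4
    rw [← h4, ← h2, ← h3]
    constructor <;> ring
  set E : ℝ := 2 * (R2 * ‖δ.1‖ + R1 * ‖δ.2‖) / (‖J‖ * (r1 * r2)) with hE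
  have hE0 : 0 ≤ E := by positivity
  have hbd : ∀ τ : ℝ, ‖(u τ).1‖ ≤ r1 / 2 → ‖(u τ).2‖ ≤ r2 / 2 →
      ‖(u' τ).1‖ ≤ E * r1 ∧ ‖(u' τ).2‖ ≤ E * r2 := by
    intro τ h1 h2
    obtain ⟨d1, d2, d3, d4⟩ := partial_bound hH hr1 hr2 hmap h1 h2
    obtain ⟨c1, c2⟩ := hcr τ
    constructor
    · have e1 : ‖J‖ * ‖(u' τ).1‖ ≤ R2 / (r2 / 2) * ‖δ.1‖ + R1 / (r2 / 2) * ‖δ.2‖ := by
        rw [← norm_mul, c1]
        refine (norm_sub_le _ _).trans ?_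
        rw [norm_mul, norm_mul]
        exact add_le_add (mul_le_mul_of_nonneg_right d4 (norm_nonneg _))
          (mul_le_mul_of_nonneg_right d3 (norm_nonneg _))
      have e2 : E * r1 = (R2 / (r2 / 2) * ‖δ.1‖ + R1 / (r2 / 2) * ‖δ.2‖) / ‖J‖ := by
        rw [hE]; field_simp
      rw [e2, le_div_iff₀ hJp]
      linarith
    · have e1 : ‖J‖ * ‖(u' τ).2‖ ≤ R1 / (r1 / 2) * ‖δ.2‖ + R2 / (r1 / 2) * ‖δ.1‖ := by
        rw [← norm_mul, c2]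
        refine (norm_sub_le _ _).trans ?_
        rw [norm_mul, norm_mul]
        exact add_le_add (mul_le_mul_of_nonneg_right d1 (norm_nonneg _))
          (mul_le_mul_of_nonneg_right d2 (norm_nonneg _))
      have e2 : E * r2 = (R1 / (r1 / 2) * ‖δ.2‖ + R2 / (r1 / 2) * ‖δ.1‖) / ‖J‖ := by
        rw [hE]; field_simp; ring
      rw [e2, le_div_iff₀ hJp]
      linarith
  -- normalised curve
  set f : ℝ → ℂ × ℂ := fun τ => (((r1⁻¹ : ℝ) : ℂ) * ((u τ).1 - p.1),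
    ((r2⁻¹ : ℝ) : ℂ) * ((u τ).2 - p.2)) with hf
  set f' : ℝ → ℂ × ℂ := fun τ => (((r1⁻¹ : ℝ) : ℂ) * (u' τ).1,
    ((r2⁻¹ : ℝ) : ℂ) * (u' τ).2) with hf'
  have hfd : ∀ τ : ℝ, HasDerivAt f (f' τ) τ := by
    intro τ
    have h1 : HasDerivAt (fun τ => (u τ).1) (u' τ).1 τ :=
      (hasFDerivAt_fst (𝕜 := ℝ) (p := u τ)).comp_hasDerivAt τ (hud τ)
    have h2 : HasDerivAt (fun τ => (u τ).2) (u' τ).2 τ :=
      (hasFDerivAt_snd (𝕜 := ℝ) (p := u τ)).comp_hasDerivAt τ (hud τ)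
    exact ((h1.sub_const p.1).const_mul _).prodMk ((h2.sub_const p.2).const_mul _)
  have hu0 : u 0 = p := by simp [hu, li]
  have hf0 : f 0 = 0 := by
    rw [hf]; simp [hu0]
  have hn1 : ∀ (r : ℝ) (z : ℂ), 0 < r → ‖((r⁻¹ : ℝ) : ℂ) * z‖ = ‖z‖ / r := by
    intro r z hr
    rw [norm_mul, Complex.norm_real, Real.norm_of_nonneg (by positivity)]
    field_simp
  have key := image_norm_le_of_norm_deriv_right_lt_deriv_boundary (f := f) (f' := f')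
    (a := 0) (b := 1) (B := fun τ => κ * τ) (B' := fun _ => κ)
    (fun τ _ => (hfd τ).continuousAt.continuousWithinAt)
    (fun τ _ => (hfd τ).hasDerivWithinAt) (by rw [hf0]; simp)
    (fun τ => by simpa using (hasDerivAt_id τ).const_mul κ)
    (fun τ hτ hnorm => by
      have h1 : κ * τ ≤ 1 / 8 := by
        have : κ * τ ≤ κ * 1 := mul_le_mul_of_nonneg_left hτ.2.le (hE0.trans hκ.le)
        linarith
      have h2 : ‖(f τ).1‖ ≤ 1 / 8 := ((norm_fst_le (f τ)).trans hnorm.le).trans h1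
      have h3 : ‖(f τ).2‖ ≤ 1 / 8 := ((norm_snd_le (f τ)).trans hnorm.le).trans h1
      rw [hf] at h2 h3
      simp only [] at h2 h3
      rw [hn1 _ _ hr1, div_le_iff₀ hr1] at h2
      rw [hn1 _ _ hr2, div_le_iff₀ hr2] at h3
      have h4 : ‖(u τ).1‖ ≤ r1 / 2 := by
        have : ‖(u τ).1‖ ≤ ‖(u τ).1 - p.1‖ + ‖p.1‖ := by
          simpa using norm_add_le ((u τ).1 - p.1) p.1
        linarith
      have h5 : ‖(u τ).2‖ ≤ r2 / 2 := by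
        have : ‖(u τ).2‖ ≤ ‖(u τ).2 - p.2‖ + ‖p.2‖ := by
          simpa using norm_add_le ((u τ).2 - p.2) p.2
        linarith
      obtain ⟨h6, h7⟩ := hbd τ h4 h5
      refine lt_of_le_of_lt ?_ hκ
      rw [Prod.norm_def]
      apply max_le
      · rw [hf']; simp only []
        rw [hn1 _ _ hr1, div_le_iff₀ hr1]; exact h6
      · rw [hf']; simp only []
        rw [hn1 _ _ hr2, div_le_iff₀ hr2]; exact h7)
    (x := 1) (by simp)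
  have k1 : ‖(f 1).1‖ ≤ κ := ((norm_fst_le (f 1)).trans key).trans (by simp)
  have k2 : ‖(f 1).2‖ ≤ κ := ((norm_snd_le (f 1)).trans key).trans (by simp)
  rw [hf] at k1 k2
  simp only [] at k1 k2
  rw [hn1 _ _ hr1, div_le_iff₀ hr1] at k1
  rw [hn1 _ _ hr2, div_le_iff₀ hr2] at k2
  simp only [hu, Complex.ofReal_one, one_smul] at k1 k2
  exact ⟨k1, k2⟩

end Pool.Agent.TH238
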