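import Pool.Agent.TH238.Core

set_option autoImplicit false

/-!
Compositions of elementary quadratic automorphisms of `ℂ²` with diagonal linear part.
-/

namespace Pool.Agent.TH238

open Set Filter Topology Metric

/-- Elementary quadratic automorphism: `(z, w) ↦ (a z + c w², b w)` if `t = true` and
`(z, w) ↦ (a z, b w + c z²)` if `t = false`. -/
noncomputable def el (t : Bool) (a b c : ℂ) (p : ℂ × ℂ) : ℂ × ℂ :=
  if t = true then (a * p.1 + c * p.2 ^ 2, b * p.2) else (a * p.1, b * p.2 + c * p.1 ^ 2)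

/-- Its inverse. -/
noncomputable def eli (t : Bool) (a b c : ℂ) (p : ℂ × ℂ) : ℂ × ℂ :=
  if t = true then ((p.1 - c * (p.2 / b) ^ 2) / a, p.2 / b)
  else (p.1 / a, (p.2 - c * (p.1 / a) ^ 2) / b)

theorem el_true (a b c : ℂ) (p : ℂ × ℂ) :
    el true a b c p = (a * p.1 + c * p.2 ^ 2, b * p.2) := by simp [el]

theorem el_false (a b c : ℂ) (p : ℂ × ℂ) :
    el false a b c p = (a * p.1, b * p.2 + c * p.1 ^ 2) := by simp [el]

theorem eli_true (a b c : ℂ) (p : ℂ × ℂ) :
    eli true a b c p = ((p.1 - c * (p.2 / b) ^ 2) / a, p.2 / b) := by simp [eli]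

theorem eli_false (a b c : ℂ) (p : ℂ × ℂ) :
    eli false a b c p = (p.1 / a, (p.2 - c * (p.1 / a) ^ 2) / b) := by simp [eli]

theorem eli_el_diff (t : Bool) {a b : ℂ} (ha : a ≠ 0) (hb : b ≠ 0) (c c' : ℂ) (p : ℂ × ℂ) :
    eli t a b c (el t a b c' p) =
      p + (if t = true then ((c' - c) / a * p.2 ^ 2, 0) else (0, (c' - c) / b * p.1 ^ 2)) := by
  cases t
  · rw [el_false, eli_false]
    ext
    · simp; field_simp
    · simp; field_simp; ring
  · rw [el_true, eli_true]
    ext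
    · simp; field_simp; ring
    · simp; field_simp

theorem eli_el (t : Bool) {a b : ℂ} (ha : a ≠ 0) (hb : b ≠ 0) (c : ℂ) (p : ℂ × ℂ) :
    eli t a b c (el t a b c p) = p := by
  rw [eli_el_diff t ha hb]
  cases t <;> ext <;> simp

theorem el_eli (t : Bool) {a b : ℂ} (ha : a ≠ 0) (hb : b ≠ 0) (c : ℂ) (p : ℂ × ℂ) :
    el t a b c (eli t a b c p) = p := by
  cases t
  · rw [eli_false, el_false]
    ext
    · simp; field_simp
    · simp; field_simp; ring
  · rw [eli_true, el_true]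
    ext
    · simp; field_simp; ring
    · simp; field_simp

theorem el_differentiable (t : Bool) (a b c : ℂ) : Differentiable ℂ (el t a b c) := by
  cases t
  · have : el false a b c = fun p => (a * p.1, b * p.2 + c * p.1 ^ 2) := funext (el_false a b c)
    rw [this]; fun_prop
  · have : el true a b c = fun p => (a * p.1 + c * p.2 ^ 2, b * p.2) := funext (el_true a b c)
    rw [this]; fun_prop

theorem eli_differentiable (t : Bool) (a b c : ℂ) : Differentiable ℂ (eli t a b c) := by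
  cases t
  · have : eli false a b c = fun p => (p.1 / a, (p.2 - c * (p.1 / a) ^ 2) / b) :=
      funext (eli_false a b c)
    rw [this]; fun_prop
  · have : eli true a b c = fun p => ((p.1 - c * (p.2 / b) ^ 2) / a, p.2 / b) :=
      funext (eli_true a b c)
    rw [this]; fun_prop

theorem el_det (t : Bool) (a b c : ℂ) (p : ℂ × ℂ) : det2 (fderiv ℂ (el t a b c) p) = a * b := by
  have h1 : HasFDerivAt (fun p : ℂ × ℂ => p.1) (ContinuousLinearMap.fst ℂ ℂ ℂ) p :=
    hasFDerivAt_fst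
  have h2 : HasFDerivAt (fun p : ℂ × ℂ => p.2) (ContinuousLinearMap.snd ℂ ℂ ℂ) p :=
    hasFDerivAt_snd
  have h5 : HasFDerivAt (fun q : ℂ × ℂ => q.1 ^ 2)
      ((2 * p.1) • ContinuousLinearMap.fst ℂ ℂ ℂ) p :=
    ((hasDerivAt_pow 2 p.1).comp_hasFDerivAt p h1).congr_fderiv (by simp)
  have h6 : HasFDerivAt (fun q : ℂ × ℂ => q.2 ^ 2)
      ((2 * p.2) • ContinuousLinearMap.snd ℂ ℂ ℂ) p :=
    ((hasDerivAt_pow 2 p.2).comp_hasFDerivAt p h2).congr_fderiv (by simp)
  have g1 : HasFDerivAt (fun q : ℂ × ℂ => a * q.1) (a • ContinuousLinearMap.fst ℂ ℂ ℂ) p :=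
    h1.const_mul a
  have g2 : HasFDerivAt (fun q : ℂ × ℂ => b * q.2) (b • ContinuousLinearMap.snd ℂ ℂ ℂ) p :=
    h2.const_mul b
  have g5 : HasFDerivAt (fun q : ℂ × ℂ => c * q.1 ^ 2)
      (c • (2 * p.1) • ContinuousLinearMap.fst ℂ ℂ ℂ) p := h5.const_mul c
  have g6 : HasFDerivAt (fun q : ℂ × ℂ => c * q.2 ^ 2)
      (c • (2 * p.2) • ContinuousLinearMap.snd ℂ ℂ ℂ) p := h6.const_mul c
  cases t
  · have e : el false a b c = fun p => (a * p.1, b * p.2 + c * p.1 ^ 2) :=
      funext (el_false a b c)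
    have h3 : HasFDerivAt (fun q : ℂ × ℂ => (a * q.1, b * q.2 + c * q.1 ^ 2)) _ p :=
      g1.prodMk (g2.fun_add g5)
    rw [e, h3.fderiv]
    simp [det2]
  · have e : el true a b c = fun p => (a * p.1 + c * p.2 ^ 2, b * p.2) :=
      funext (el_true a b c)
    have h3 : HasFDerivAt (fun q : ℂ × ℂ => (a * q.1 + c * q.2 ^ 2, b * q.2)) _ p :=
      (g1.fun_add g6).prodMk g2
    rw [e, h3.fderiv]
    simp [det2]

section

variable (t : ℕ → Bool) (a b : ℕ → ℂ)

/-- Forward composition of `k` maps from time `n` on. -/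
noncomputable def fw (c : ℕ → ℂ) (n : ℕ) : ℕ → ℂ × ℂ → ℂ × ℂ
  | 0 => fun p => p
  | k + 1 => fun p => el (t (n + k)) (a (n + k)) (b (n + k)) (c (n + k)) (fw c n k p)

/-- The inverse of the forward composition. -/
noncomputable def bw (c : ℕ → ℂ) (n : ℕ) : ℕ → ℂ × ℂ → ℂ × ℂ
  | 0 => fun p => p
  | k + 1 => fun p => bw c n k (eli (t (n + k)) (a (n + k)) (b (n + k)) (c (n + k)) p)

variable {t a b}

theorem fw_succ (c : ℕ → ℂ) (n k : ℕ) (p : ℂ × ℂ) :
    fw t a b c n (k + 1) p =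
      el (t (n + k)) (a (n + k)) (b (n + k)) (c (n + k)) (fw t a b c n k p) := rfl

theorem bw_succ (c : ℕ → ℂ) (n k : ℕ) (p : ℂ × ℂ) :
    bw t a b c n (k + 1) p =
      bw t a b c n k (eli (t (n + k)) (a (n + k)) (b (n + k)) (c (n + k)) p) := rfl

theorem fw_zero (c : ℕ → ℂ) (n : ℕ) (p : ℂ × ℂ) : fw t a b c n 0 p = p := rfl

theorem bw_zero (c : ℕ → ℂ) (n : ℕ) (p : ℂ × ℂ) : bw t a b c n 0 p = p := rfl

theorem bw_fw (ha : ∀ n, a n ≠ 0) (hb : ∀ n, b n ≠ 0) (c : ℕ → ℂ) (n k : ℕ) (p : ℂ × ℂ) :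
    bw t a b c n k (fw t a b c n k p) = p := by
  induction k with
  | zero => rfl
  | succ k ih => rw [fw_succ, bw_succ, eli_el _ (ha _) (hb _), ih]

theorem fw_bw (ha : ∀ n, a n ≠ 0) (hb : ∀ n, b n ≠ 0) (c : ℕ → ℂ) (n k : ℕ) (p : ℂ × ℂ) :
    fw t a b c n k (bw t a b c n k p) = p := by
  induction k generalizing p with
  | zero => rfl
  | succ k ih => rw [fw_succ, bw_succ, ih, el_eli _ (ha _) (hb _)]

theorem fw_differentiable (c : ℕ → ℂ) (n k : ℕ) : Differentiable ℂ (fw t a b c n k) := by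
  induction k with
  | zero => exact differentiable_id
  | succ k ih => exact (el_differentiable _ _ _ _).comp ih

theorem bw_differentiable (c : ℕ → ℂ) (n k : ℕ) : Differentiable ℂ (bw t a b c n k) := by
  induction k with
  | zero => exact differentiable_id
  | succ k ih => exact ih.comp (eli_differentiable _ _ _ _)

theorem fw_det (c : ℕ → ℂ) (n k : ℕ) (p : ℂ × ℂ) :
    det2 (fderiv ℂ (fw t a b c n k) p) = ∏ i ∈ Finset.range k, (a (n + i) * b (n + i)) := by
  induction k with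
  | zero =>
    have : fw t a b c n 0 = fun p => p := rfl
    rw [this, fderiv_fun_id, det2_id]; simp
  | succ k ih =>
    have h1 : fw t a b c n (k + 1) =
        el (t (n + k)) (a (n + k)) (b (n + k)) (c (n + k)) ∘ fw t a b c n k := rfl
    rw [h1, fderiv_comp p (el_differentiable _ _ _ _ _) (fw_differentiable _ _ _ _),
      det2_comp, ih, el_det, Finset.prod_range_succ, mul_comm]

theorem fw_add (c : ℕ → ℂ) (n j k : ℕ) (p : ℂ × ℂ) :
    fw t a b c n (j + k) p = fw t a b c (n + j) k (fw t a b c n j p) := by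
  induction k with
  | zero => rfl
  | succ k ih =>
    rw [← add_assoc, fw_succ, fw_succ, ih, add_assoc]

theorem bw_add (c : ℕ → ℂ) (n j k : ℕ) (p : ℂ × ℂ) :
    bw t a b c n (j + k) p = bw t a b c n j (bw t a b c (n + j) k p) := by
  induction k generalizing p with
  | zero => rfl
  | succ k ih =>
    rw [← add_assoc, bw_succ, bw_succ, ih, add_assoc]

end

end Pool.Agent.TH238
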