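import Pool.Agent.TH238.Glob

set_option autoImplicit false

/-!
The basin theorem for sequences of elementary quadratic maps with diagonal linear parts.
-/

namespace Pool.Agent.TH238

open Set Filter Topology Metric

theorem main_el (t : ℕ → Bool) (a b c : ℕ → ℂ) {C D M : ℝ} (hC : 0 < C) (hD : D < 1)
    (hCD : D ^ 16 ≤ C ^ 5) (ha : ∀ n, C ≤ ‖a n‖ ∧ ‖a n‖ ≤ D) (hb : ∀ n, C ≤ ‖b n‖ ∧ ‖b n‖ ≤ D)
    (hc : ∀ n, ‖c n‖ ≤ M) :
    IsOpen {p | Tendsto (fun n => fw t a b c 0 n p) atTop (𝓝 0)} ∧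
    ∃ φ ψ : ℂ × ℂ → ℂ × ℂ, Differentiable ℂ φ ∧
      DifferentiableOn ℂ ψ {p | Tendsto (fun n => fw t a b c 0 n p) atTop (𝓝 0)} ∧
      range φ = {p | Tendsto (fun n => fw t a b c 0 n p) atTop (𝓝 0)} ∧
      (∀ p, ψ (φ p) = p) ∧
      ∀ p ∈ {p | Tendsto (fun n => fw t a b c 0 n p) atTop (𝓝 0)}, φ (ψ p) = p := by
  have hCle : C ≤ D := (ha 0).1.trans (ha 0).2
  have hD0 : 0 < D := hC.trans_le hCle
  have hM : 0 ≤ M := (norm_nonneg _).trans (hc 0)
  set d : ℝ := -Real.log D with hd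
  have hdpos : 0 < d := by
    have := Real.log_neg hD0 hD; linarith
  have hlogC : -Real.log C ≤ 3.2 * d := by
    have h1 : Real.log (D ^ 16) ≤ Real.log (C ^ 5) := Real.log_le_log (by positivity) hCD
    rw [Real.log_pow, Real.log_pow] at h1
    push_cast at h1
    linarith
  have hlog : ∀ u : ℂ, C ≤ ‖u‖ ∧ ‖u‖ ≤ D →
      d ≤ -Real.log ‖u‖ ∧ -Real.log ‖u‖ ≤ 3.2 * d := by
    rintro u ⟨h1, h2⟩
    have h3 : Real.log C ≤ Real.log ‖u‖ := Real.log_le_log hC h1
    have h4 : Real.log ‖u‖ ≤ Real.log D := Real.log_le_log (hC.trans_le h1) h2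
    constructor <;> linarith
  set x : ℕ → ℝ := fun n => -Real.log ‖a n‖ - d / 1000 with hx
  set y : ℕ → ℝ := fun n => -Real.log ‖b n‖ - d / 1000 with hy
  have hxb : ∀ n, 0.999 * d ≤ x n ∧ x n ≤ 3.199 * d := fun n => by
    obtain ⟨h1, h2⟩ := hlog _ (ha n)
    constructor
    · show _ ≤ -Real.log ‖a n‖ - d / 1000
      linarith
    · show -Real.log ‖a n‖ - d / 1000 ≤ _
      linarith
  have hyb : ∀ n, 0.999 * d ≤ y n ∧ y n ≤ 3.199 * d := fun n => by
    obtain ⟨h1, h2⟩ := hlog _ (hb n)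
    constructor
    · show _ ≤ -Real.log ‖b n‖ - d / 1000
      linarith
    · show -Real.log ‖b n‖ - d / 1000 ≤ _
      linarith
  set S : ℝ := 6.4 * d with hS
  set h : ℝ := 2500 * S + 1 with hh
  obtain ⟨α, β, N, T⟩ := exists_trop t x y (S := S) (h := h)
    (fun n => by have h1 := hxb n; have h2 := hyb n; linarith)
    (fun n => by have h1 := hxb n; have h2 := hyb n; linarith)
    (fun n => by have h1 := hxb n; have h2 := hyb n; linarith)
    (fun n => by have h1 := hxb n; have h2 := hyb n; linarith)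
    (by positivity) (by linarith) 0
  set e : ℝ := Real.exp (-(d / 1000)) with he
  have he1 : e < 1 := by
    rw [he, Real.exp_lt_one_iff]; linarith
  set C1 : ℝ := Real.log (1 + M / (1 - e)) with hC1
  have hM1 : 0 ≤ M / (1 - e) := div_nonneg hM (by linarith)
  have U : Setup t a b c x y d M (1 / C) C1 S h α β N := by
    refine ⟨T, hdpos, fun n => ?_, fun n => ?_, hc, Real.log_nonneg (by linarith), ?_,
      fun n => ?_, fun n => ?_, fun n => ?_⟩
    · have h1 : 0 < ‖a n‖ := hC.trans_le (ha n).1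
      rw [show -(x n + d / 1000) = Real.log ‖a n‖ by simp only [hx]; ring, Real.exp_log h1]
    · have h1 : 0 < ‖b n‖ := hC.trans_le (hb n).1
      rw [show -(y n + d / 1000) = Real.log ‖b n‖ by simp only [hy]; ring, Real.exp_log h1]
    · have h3 : (0 : ℝ) < 1 + M / (1 - e) := by linarith
      rw [← he, hC1, Real.exp_neg (Real.log _), Real.exp_log h3]
      have h2 : M * (1 + M / (1 - e))⁻¹ ≤ 1 - e := by
        rw [← div_eq_mul_inv, div_le_iff₀ h3]
        have : (1 - e) * (1 + M / (1 - e)) = (1 - e) + M := by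
          have : (1 - e) ≠ 0 := by linarith
          field_simp
        rw [this]; linarith
      linarith
    · have h1 := hxb n; have h2 := hyb n; linarith
    · exact one_div_le_one_div_of_le hC (ha n).1
    · exact one_div_le_one_div_of_le hC (hb n).1
  refine main_setup U ?_
  rw [T.iN]
  have : 0 < S := by positivity
  linarith

end Pool.Agent.TH238
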