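import Pool.Agent.TH238.Trop

set_option autoImplicit false

/-!
Growth of the gap between two systems: doubling at alternation times only.
-/

namespace Pool.Agent.TH238

open Filter Topology

/-- the growth exponent -/
noncomputable def th : ℝ := Real.log 2 / Real.log 2.01

theorem th_pos : 0 < th := div_pos (Real.log_pos (by norm_num)) (Real.log_pos (by norm_num))

theorem th_lt_one : th < 1 := by
  unfold th
  rw [div_lt_one (Real.log_pos (by norm_num))]
  exact Real.log_lt_log (by norm_num) (by norm_num)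

theorem rpow_th : (2.01 : ℝ) ^ th = 2 := by
  unfold th
  rw [Real.rpow_def_of_pos (by norm_num), mul_div_cancel₀ _
    (Real.log_pos (by norm_num)).ne', Real.exp_log (by norm_num)]

theorem rpow_half {u v : ℝ} (hu : 0 < u) (h : 2.01 * u ≤ v) : 2 * u ^ th ≤ v ^ th := by
  have h1 : (2.01 * u) ^ th ≤ v ^ th := Real.rpow_le_rpow (by positivity) h th_pos.le
  rwa [Real.mul_rpow (by norm_num) hu.le, rpow_th] at h1

/-- The gap lemma. -/
theorem gap {P Q N : ℕ → ℝ} {HF HG : ℕ → Prop} {n1 : ℕ} {K : ℝ} (hK : 0 ≤ K)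
    (hN : ∀ n, n1 ≤ n → 0 < N n)
    (hmono : ∀ m n, n1 ≤ m → m ≤ n → N m ≤ N n)
    (s1 : ∀ m n, n1 ≤ m → m < n → HG m → HF n → 2.01 * N m ≤ N n)
    (s2 : ∀ m n, n1 ≤ m → m < n → HF m → HG n → 2.01 * N m ≤ N n)
    (p0 : ∀ n, n1 ≤ n → ¬ HF n → P (n + 1) ≤ P n)
    (p1 : ∀ n, n1 ≤ n → HF n → P (n + 1) ≤ max (P n) (2 * Q n))
    (q0 : ∀ n, n1 ≤ n → ¬ HG n → Q (n + 1) ≤ Q n)
    (q1 : ∀ n, n1 ≤ n → HG n → Q (n + 1) ≤ max (Q n) (2 * P n))
    (hP : P n1 ≤ K * N n1 ^ th) (hQ : Q n1 ≤ K * N n1 ^ th) {n : ℕ} (hn : n1 ≤ n) :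
    P n ≤ 2 * K * N n ^ th ∧ Q n ≤ 2 * K * N n ^ th := by
  have key : (P n ≤ K * N n1 ^ th ∨ ∃ m, n1 ≤ m ∧ m < n ∧ HF m ∧ P n ≤ 2 * K * N m ^ th) ∧
      (Q n ≤ K * N n1 ^ th ∨ ∃ m, n1 ≤ m ∧ m < n ∧ HG m ∧ Q n ≤ 2 * K * N m ^ th) := by
    induction n, hn using Nat.le_induction with
    | base => exact ⟨Or.inl hP, Or.inl hQ⟩
    | succ k hk ih =>
      obtain ⟨i1, i2⟩ := ih
      have b1 : K * N n1 ^ th ≤ K * N k ^ th := by
        apply mul_le_mul_of_nonneg_left _ hK
        exact Real.rpow_le_rpow (hN n1 le_rfl).le (hmono n1 k le_rfl hk) th_pos.le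
      constructor
      · by_cases hF : HF k
        · have h1 := p1 k hk hF
          rcases le_max_iff.1 h1 with h2 | h2
          · rcases i1 with i1 | ⟨m, m1, m2, m3, m4⟩
            · exact Or.inl (h2.trans i1)
            · exact Or.inr ⟨m, m1, by omega, m3, h2.trans m4⟩
          · right
            refine ⟨k, hk, by omega, hF, h2.trans ?_⟩
            rcases i2 with i2 | ⟨m, m1, m2, m3, m4⟩
            · linarith
            · have h3 := rpow_half (hN m m1) (s1 m k m1 m2 m3 hF)
              have h4 : K * (2 * N m ^ th) ≤ K * N k ^ th := mul_le_mul_of_nonneg_left h3 hK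
              linarith
        · have h1 := p0 k hk hF
          rcases i1 with i1 | ⟨m, m1, m2, m3, m4⟩
          · exact Or.inl (h1.trans i1)
          · exact Or.inr ⟨m, m1, by omega, m3, h1.trans m4⟩
      · by_cases hG : HG k
        · have h1 := q1 k hk hG
          rcases le_max_iff.1 h1 with h2 | h2
          · rcases i2 with i2 | ⟨m, m1, m2, m3, m4⟩
            · exact Or.inl (h2.trans i2)
            · exact Or.inr ⟨m, m1, by omega, m3, h2.trans m4⟩
          · right
            refine ⟨k, hk, by omega, hG, h2.trans ?_⟩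
            rcases i1 with i1 | ⟨m, m1, m2, m3, m4⟩
            · linarith
            · have h3 := rpow_half (hN m m1) (s2 m k m1 m2 m3 hG)
              have h4 : K * (2 * N m ^ th) ≤ K * N k ^ th := mul_le_mul_of_nonneg_left h3 hK
              linarith
        · have h1 := q0 k hk hG
          rcases i2 with i2 | ⟨m, m1, m2, m3, m4⟩
          · exact Or.inl (h1.trans i2)
          · exact Or.inr ⟨m, m1, by omega, m3, h1.trans m4⟩
  obtain ⟨k1, k2⟩ := key
  have hmn : ∀ m, n1 ≤ m → m ≤ n → 2 * K * N m ^ th ≤ 2 * K * N n ^ th := by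
    intro m h1 h2
    apply mul_le_mul_of_nonneg_left _ (by linarith)
    exact Real.rpow_le_rpow (hN m h1).le (hmono m n h1 h2) th_pos.le
  have h0 : K * N n1 ^ th ≤ 2 * K * N n ^ th := by
    refine le_trans ?_ (hmn n1 le_rfl hn)
    have : 0 ≤ K * N n1 ^ th := mul_nonneg hK (Real.rpow_nonneg (hN n1 le_rfl).le _)
    linarith
  constructor
  · rcases k1 with k1 | ⟨m, m1, m2, _, m4⟩
    · exact k1.trans h0
    · exact m4.trans (hmn m m1 m2.le)
  · rcases k2 with k2 | ⟨m, m1, m2, _, m4⟩
    · exact k2.trans h0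
    · exact m4.trans (hmn m m1 m2.le)

/-- sublinearity -/
theorem th_small {K e : ℝ} (he : 0 < e) : ∃ R : ℝ, 0 < R ∧ ∀ u : ℝ, R ≤ u →
    K * u ^ th ≤ e * u := by
  have h1 : Tendsto (fun u : ℝ => u ^ (1 - th)) atTop atTop :=
    tendsto_rpow_atTop (by have := th_lt_one; linarith)
  obtain ⟨R, hR⟩ := (h1.eventually_ge_atTop (K / e)).exists_forall_of_atTop
  refine ⟨max R 1, by positivity, fun u hu => ?_⟩
  have hu1 : 0 < u := by
    have := le_max_right R 1
    linarith
  have h2 := hR u ((le_max_left _ _).trans hu)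
  have h3 : u ^ th * u ^ (1 - th) = u := by
    rw [← Real.rpow_add hu1]; simp
  have h4 : 0 < u ^ th := Real.rpow_pos_of_pos hu1 _
  rw [div_le_iff₀ he] at h2
  calc K * u ^ th ≤ (u ^ (1 - th) * e) * u ^ th := by
        apply mul_le_mul_of_nonneg_right h2 h4.le
    _ = e * (u ^ th * u ^ (1 - th)) := by ring
    _ = e * u := by rw [h3]

/-- Forgetting: two exponent systems with different starting times stay close. -/
theorem forget {t : ℕ → Bool} {x y : ℕ → ℝ} {S h : ℝ} {n0 : ℕ} {α β N α' β' N' : ℕ → ℝ}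
    (T : Trop t x y S h 0 α β N) (T' : Trop t x y S h n0 α' β' N') :
    ∃ K : ℝ, 0 ≤ K ∧ ∀ n, n0 ≤ n → α n - α' n ≤ K * N n ^ th ∧ β n - β' n ≤ K * N n ^ th := by
  have hNN : ∀ n, n0 ≤ n → N' n ≤ N n := by
    intro n hn
    induction n, hn using Nat.le_induction with
    | base => rw [T'.iN]; exact T.N_ge (Nat.zero_le _)
    | succ k hk ih =>
      rw [T.stN k (Nat.zero_le _), T'.stN k hk]; linarith
  have hN'pos : ∀ n, n0 ≤ n → 0 < N' n := fun n hn => by
    have := T'.N_ge hn; have := T'.hpos; linarith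
  have hmon : ∀ n, n0 ≤ n → α' n ≤ α n ∧ β' n ≤ β n := by
    intro n hn
    induction n, hn using Nat.le_induction with
    | base => rw [T'.ia, T'.ib]; exact T.ge_h (Nat.zero_le _)
    | succ k hk ih =>
      obtain ⟨i1, i2⟩ := ih
      rcases ht : t k with _ | _
      · rw [T.G1 k (Nat.zero_le _) ht, T.G2 k (Nat.zero_le _) ht, T'.G1 k hk ht,
          T'.G2 k hk ht]
        exact ⟨by linarith, min_le_min (by linarith) (by linarith)⟩
      · rw [T.F1 k (Nat.zero_le _) ht, T.F2 k (Nat.zero_le _) ht, T'.F1 k hk ht,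
          T'.F2 k hk ht]
        exact ⟨min_le_min (by linarith) (by linarith), by linarith⟩
  have hpow : 0 < N' n0 ^ th := Real.rpow_pos_of_pos (hN'pos n0 le_rfl) _
  set K : ℝ := (α n0 - α' n0 + (β n0 - β' n0)) / N' n0 ^ th with hKdef
  obtain ⟨m1, m2⟩ := hmon n0 le_rfl
  have hK : 0 ≤ K := div_nonneg (by linarith) hpow.le
  have hKe : K * N' n0 ^ th = α n0 - α' n0 + (β n0 - β' n0) := by
    rw [hKdef]; field_simp
  refine ⟨2 * K, by linarith, fun n hn => ?_⟩
  have g := gap (P := fun n => α n - α' n) (Q := fun n => β n - β' n) (N := N')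
    (HF := fun n => 3 * β' n ≤ 1.002 * N' n + S) (HG := fun n => 3 * α' n ≤ 1.002 * N' n + S)
    (n1 := n0) hK hN'pos (fun m n h1 h2 => T'.N_mono h1 h2)
    (fun m n h1 h2 h3 h4 => T'.star h1 h2.le h3 h4)
    (fun m n h1 h2 h3 h4 => T'.swap.star h1 h2.le h3 h4)
    (fun k hk hF => by
      have a1 := T'.add_le hk; have a2 := T'.hS k; have a3 := T'.hy k
      have a4 := T'.h0 k
      rcases ht : t k with _ | _
      · rw [T.G1 k (Nat.zero_le _) ht, T'.G1 k hk ht]; linarith
      · rw [T.F1 k (Nat.zero_le _) ht, T'.F1 k hk ht]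
        have hns : α' k + x k ≤ 2 * β' k := by
          by_contra hcon
          apply hF
          push Not at hcon
          have := T'.N_ge hk; have := T'.hpos
          linarith
        rw [min_eq_left hns]
        have := min_le_left (α k + x k) (2 * β k)
        linarith)
    (fun k hk hF => by
      rcases ht : t k with _ | _
      · rw [T.G1 k (Nat.zero_le _) ht, T'.G1 k hk ht]
        apply le_max_of_le_left; linarith
      · rw [T.F1 k (Nat.zero_le _) ht, T'.F1 k hk ht]
        rcases le_total (α' k + x k) (2 * β' k) with h1 | h1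
        · rw [min_eq_left h1]
          apply le_max_of_le_left
          have := min_le_left (α k + x k) (2 * β k)
          linarith
        · rw [min_eq_right h1]
          apply le_max_of_le_right
          have := min_le_right (α k + x k) (2 * β k)
          linarith)
    (fun k hk hG => by
      have a1 := T'.add_le hk; have a2 := T'.hS k; have a3 := T'.hx k
      have a4 := T'.h0 k
      rcases ht : t k with _ | _
      · rw [T.G2 k (Nat.zero_le _) ht, T'.G2 k hk ht]
        have hns : β' k + y k ≤ 2 * α' k := by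
          by_contra hcon
          apply hG
          push Not at hcon
          have := T'.N_ge hk; have := T'.hpos
          linarith
        rw [min_eq_left hns]
        have := min_le_left (β k + y k) (2 * α k)
        linarith
      · rw [T.F2 k (Nat.zero_le _) ht, T'.F2 k hk ht]; linarith)
    (fun k hk hG => by
      rcases ht : t k with _ | _
      · rw [T.G2 k (Nat.zero_le _) ht, T'.G2 k hk ht]
        rcases le_total (β' k + y k) (2 * α' k) with h1 | h1
        · rw [min_eq_left h1]
          apply le_max_of_le_left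
          have := min_le_left (β k + y k) (2 * α k)
          linarith
        · rw [min_eq_right h1]
          apply le_max_of_le_right
          have := min_le_right (β k + y k) (2 * α k)
          linarith
      · rw [T.F2 k (Nat.zero_le _) ht, T'.F2 k hk ht]
        apply le_max_of_le_left; linarith)
    (by show α n0 - α' n0 ≤ K * N' n0 ^ th; rw [hKe]; linarith)
    (by show β n0 - β' n0 ≤ K * N' n0 ^ th; rw [hKe]; linarith) hn
  have hle : 2 * K * N' n ^ th ≤ 2 * K * N n ^ th := by
    apply mul_le_mul_of_nonneg_left _ (by linarith)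
    exact Real.rpow_le_rpow (hN'pos n hn).le (hNN n hn) th_pos.le
  exact ⟨g.1.trans hle, g.2.trans hle⟩

end Pool.Agent.TH238
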