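import Pool.Agent.TH238.Loc

set_option autoImplicit false

/-!
Existence of local data and global limits.
-/

namespace Pool.Agent.TH238

open Set Filter Topology Metric

section

variable {t : ℕ → Bool} {a b c : ℕ → ℂ} {x y : ℕ → ℝ} {d M A C1 S h : ℝ} {α β N : ℕ → ℝ}

theorem Setup.N_tendsto (U : Setup t a b c x y d M A C1 S h α β N) :
    Tendsto N atTop atTop := by
  have h1 : Tendsto (fun n : ℕ => (n : ℝ) * (1.998 * d)) atTop atTop :=
    tendsto_natCast_atTop_atTop.atTop_mul_const (by have := U.dpos; positivity)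
  refine tendsto_atTop_mono (fun n => ?_) h1
  have h2 := N_lin U 0 n
  rw [zero_add] at h2
  have h3 := U.T.N_ge le_rfl
  have h4 := U.T.hpos
  linarith

/-- local data exist at all large times -/
theorem exists_loc (U : Setup t a b c x y d M A C1 S h α β N) {K : ℝ} (hK : 0 ≤ K) :
    ∃ n2, ∀ n1, n2 ≤ n1 → ∃ P Q, Loc t a b c x y d M A C1 S h α β N n1 (K * N n1 ^ th) P Q := by
  obtain ⟨R, hR, hR2⟩ := th_small (K := 2 * K) (e := 0.0001) (by norm_num)
  have hq1 := qq_lt U.dpos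
  have e1 : Tendsto (fun n => amp M A (N n) / (1 - qq d)) atTop (𝓝 0) := by
    unfold amp
    have h1 : Tendsto (fun n => Real.exp (-(0.0006 * N n))) atTop (𝓝 0) := by
      apply Real.tendsto_exp_neg_atTop_nhds_zero.comp
      exact U.N_tendsto.const_mul_atTop (by norm_num)
    simpa using (h1.const_mul (2 * M * A + 1)).div_const (1 - qq d)
  have e2 := (tendsto_order.1 e1).2 (1 / 8) (by norm_num)
  obtain ⟨n2, hn2⟩ := (e2.and (U.N_tendsto.eventually_ge_atTop R)).exists_forall_of_atTop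
  refine ⟨n2, fun n1 hn1 => ?_⟩
  obtain ⟨h1, h2⟩ := hn2 n1 hn1
  obtain ⟨P, Q, G⟩ := exists_gapSeq t S α β N n1 (K * N n1 ^ th)
  have hN : ∀ n, 0 < N n := fun n => by
    have := U.T.N_ge (Nat.zero_le n); have := U.T.hpos; linarith
  refine ⟨P, Q, U, G, mul_nonneg hK (Real.rpow_nonneg (hN n1).le _), fun n hn => ?_, h1.le⟩
  obtain ⟨g1, g2⟩ := G.growth U.T hK le_rfl hn
  have g3 := hR2 (N n) (h2.trans (U.T.N_mono (Nat.zero_le _) hn))
  exact ⟨g1.trans g3, g2.trans g3⟩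

/-- points whose orbit under the system `e` enters a small box -/
def Adm (t : ℕ → Bool) (a b c : ℕ → ℂ) (x y : ℕ → ℝ) (d M A C1 S h : ℝ)
    (α β N : ℕ → ℝ) (e : ℕ → ℂ) (s : ℝ) (p : ℂ × ℂ) : Prop :=
  ∃ (n1 : ℕ) (K0 : ℝ) (P Q : ℕ → ℝ), Loc t a b c x y d M A C1 S h α β N n1 K0 P Q ∧
    fw t a b e 0 n1 p ∈ bx C1 α β P Q n1 s

theorem exp_neg_three : Real.exp (-3) ≤ 1 / 16 := by
  have h1 : (2.7 : ℝ) ≤ Real.exp 1 := by have := Real.exp_one_gt_d9; linarith
  have h2 : (16 : ℝ) ≤ Real.exp 3 := by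
    have : Real.exp 3 = Real.exp 1 ^ 3 := by rw [← Real.exp_nat_mul]; norm_num
    rw [this]
    calc (16 : ℝ) ≤ 2.7 ^ 3 := by norm_num
      _ ≤ _ := pow_le_pow_left₀ (by norm_num) h1 3
  rw [Real.exp_neg, one_div]
  exact inv_anti₀ (by norm_num) h2

/-- an orbit with sublinear gap is admissible -/
theorem adm_of_bound (U : Setup t a b c x y d M A C1 S h α β N) {e : ℕ → ℂ} {p : ℂ × ℂ}
    {K : ℝ} (hK : 0 ≤ K) {n0 : ℕ}
    (hb : ∀ n, n0 ≤ n → ‖(fw t a b e 0 n p).1‖ ≤ Real.exp (-C1 - α n + K * N n ^ th) ∧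
      ‖(fw t a b e 0 n p).2‖ ≤ Real.exp (-C1 - β n + K * N n ^ th)) (hN1 : 1 ≤ N 0) :
    Adm t a b c x y d M A C1 S h α β N e (1 / 16) p := by
  obtain ⟨n2, hn2⟩ := exists_loc U (K := K + 3) (by linarith)
  obtain ⟨P, Q, L⟩ := hn2 (max n0 n2) (le_max_right _ _)
  set n1 := max n0 n2 with hn1
  refine ⟨n1, _, P, Q, L, ?_⟩
  obtain ⟨b1, b2⟩ := hb n1 (le_max_left _ _)
  have hth : 1 ≤ N n1 ^ th :=
    Real.one_le_rpow (hN1.trans (U.T.N_mono le_rfl (Nat.zero_le _))) th_pos.le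
  have k1 : ∀ u : ℝ, Real.exp (-C1 - u + K * N n1 ^ th) ≤
      1 / 16 * Real.exp (-C1 - u + (K + 3) * N n1 ^ th) := by
    intro u
    calc Real.exp (-C1 - u + K * N n1 ^ th) ≤
        Real.exp (-3 + (-C1 - u + (K + 3) * N n1 ^ th)) := by
          apply Real.exp_le_exp.2; linarith
      _ = Real.exp (-3) * Real.exp (-C1 - u + (K + 3) * N n1 ^ th) := Real.exp_add _ _
      _ ≤ _ := mul_le_mul_of_nonneg_right exp_neg_three (Real.exp_pos _).le
  constructor
  · rw [L.G.iP]; exact b1.trans (k1 _)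
  · rw [L.G.iQ]; exact b2.trans (k1 _)

/-- every point is admissible for the cut system -/
theorem adm_cut (U : Setup t a b c x y d M A C1 S h α β N) (hN1 : 1 ≤ N 0) (p : ℂ × ℂ) :
    Adm t a b c x y d M A C1 S h α β N (cut t S α β N c) (1 / 16) p := by
  set u := max (‖p.1‖) (‖p.2‖) + 1 with hu
  have hu1 : 1 ≤ u := by
    have := le_max_of_le_left (b := ‖p.1‖) (c := ‖p.2‖) (norm_nonneg p.1); linarith
  set K0 := C1 + h + Real.log u with hK0
  have hK0nn : 0 ≤ K0 := by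
    have h1 := U.C1nn
    have h2 := U.T.hpos
    have h3 := Real.log_nonneg hu1
    linarith
  obtain ⟨P, Q, G⟩ := exists_gapSeq t S α β N 0 K0
  have h0 : p ∈ reg C1 α β P Q 0 := by
    have e1 : -C1 - h + K0 = Real.log u := by rw [hK0]; ring
    constructor
    · rw [G.iP, U.T.ia, e1, Real.exp_log (by linarith)]
      have := le_max_left (‖p.1‖) (‖p.2‖); linarith
    · rw [G.iQ, U.T.ib, e1, Real.exp_log (by linarith)]
      have := le_max_right (‖p.1‖) (‖p.2‖); linarith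
  have hmem : ∀ n, fw t a b (cut t S α β N c) 0 n p ∈ reg C1 α β P Q n := by
    intro n
    have := fw_mem (t := t) (a := a) (b := b) (C1 := C1) (α := α) (β := β) (P := P) (Q := Q)
      (n1 := 0) (e := cut t S α β N c) (fun n hn q hq => reg_cut U G hn hq) n h0
    simpa using this
  refine adm_of_bound U (K := 2 * K0) (by linarith) (n0 := 0) (fun n hn => ?_) hN1
  have hK1 : K0 ≤ K0 * N 0 ^ th := by
    have := Real.one_le_rpow hN1 th_pos.le
    nlinarith
  obtain ⟨g1, g2⟩ := G.growth U.T hK0nn hK1 hn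
  obtain ⟨m1, m2⟩ := hmem n
  exact ⟨m1.trans (Real.exp_le_exp.2 (by linarith)), m2.trans (Real.exp_le_exp.2 (by linarith))⟩

/-- points attracted to the origin are admissible for the full system -/
theorem adm_full (U : Setup t a b c x y d M A C1 S h α β N) (hN1 : 1 ≤ N 0) {p : ℂ × ℂ}
    (hp : Tendsto (fun n => fw t a b c 0 n p) atTop (𝓝 0)) :
    Adm t a b c x y d M A C1 S h α β N c (1 / 16) p := by
  have h1 : ∀ᶠ n in atTop, fw t a b c 0 n p ∈ ball (0 : ℂ × ℂ) (Real.exp (-C1 - h)) :=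
    hp (ball_mem_nhds _ (Real.exp_pos _))
  obtain ⟨n0, hn0⟩ := h1.exists
  rw [mem_ball, dist_zero_right, Prod.norm_def, max_lt_iff] at hn0
  obtain ⟨α', β', N', T'⟩ := exists_trop t x y U.T.hx U.T.hy U.T.hS U.T.h0 U.T.hSpos U.T.hh n0
  have hd : 0 ≤ d / 1000 := by have := U.dpos; positivity
  have horb : ∀ n, n0 ≤ n → ‖(fw t a b c 0 n p).1‖ ≤ Real.exp (-C1 - α' n + 0) ∧
      ‖(fw t a b c 0 n p).2‖ ≤ Real.exp (-C1 - β' n + 0) := by
    intro n hn
    induction n, hn using Nat.le_induction with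
    | base =>
      rw [T'.ia, T'.ib]
      exact ⟨by simpa using hn0.1.le, by simpa using hn0.2.le⟩
    | succ k hk ih =>
      obtain ⟨i1, i2⟩ := ih
      rw [fw_succ, zero_add]
      set q := fw t a b c 0 k p with hq
      have k1 : Real.exp (-C1 - α' (k + 1) + 0) = Real.exp (-C1 + (-α' (k + 1))) := by
        congr 1; ring
      have k2 : Real.exp (-C1 - β' (k + 1) + 0) = Real.exp (-C1 + (-β' (k + 1))) := by
        congr 1; ring
      rw [k1, k2]
      rcases ht : t k with _ | _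
      · have a1 := T'.G1 k hk ht
        have a2 := T'.G2 k hk ht
        have a3 : β' (k + 1) ≤ β' k + y k := by rw [a2]; exact min_le_left _ _
        have a4 : β' (k + 1) ≤ 2 * α' k := by rw [a2]; exact min_le_right _ _
        rw [el_false]
        exact ⟨size_lin (U.na k) hd i1 (by linarith),
          size_bound (U.nb k) (U.nc k) U.hC i2 i1 (by linarith) (by linarith)⟩
      · have a1 := T'.F1 k hk ht
        have a2 := T'.F2 k hk ht
        have a3 : α' (k + 1) ≤ α' k + x k := by rw [a1]; exact min_le_left _ _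
        have a4 : α' (k + 1) ≤ 2 * β' k := by rw [a1]; exact min_le_right _ _
        rw [el_true]
        exact ⟨size_bound (U.na k) (U.nc k) U.hC i1 i2 (by linarith) (by linarith),
          size_lin (U.nb k) hd i2 (by linarith)⟩
  obtain ⟨K, hK, hf⟩ := forget U.T T'
  refine adm_of_bound U (K := K) hK (n0 := n0) (fun n hn => ?_) hN1
  obtain ⟨f1, f2⟩ := hf n hn
  obtain ⟨m1, m2⟩ := horb n hn
  exact ⟨m1.trans (Real.exp_le_exp.2 (by linarith)), m2.trans (Real.exp_le_exp.2 (by linarith))⟩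

/-- the conjugation between two systems -/
noncomputable def Phi (t : ℕ → Bool) (a b : ℕ → ℂ) (e e' : ℕ → ℂ) (p : ℂ × ℂ) : ℂ × ℂ :=
  limUnder atTop (fun n => bw t a b e 0 n (fw t a b e' 0 n p))

theorem glob (hpr : ∀ n1 K0 P Q, Loc t a b c x y d M A C1 S h α β N n1 K0 P Q →
      ∀ e e' : ℕ → ℂ, (e = c ∧ e' = cut t S α β N c) ∨ (e = cut t S α β N c ∧ e' = c) →
      Pr t a b M C1 S α β N n1 P Q e e')
    {e e' : ℕ → ℂ} (hee : (e = c ∧ e' = cut t S α β N c) ∨ (e = cut t S α β N c ∧ e' = c))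
    {p : ℂ × ℂ} (hp : Adm t a b c x y d M A C1 S h α β N e' (1 / 16) p) :
    DifferentiableAt ℂ (Phi t a b e e') p ∧ Phi t a b e' e (Phi t a b e e' p) = p ∧
      Adm t a b c x y d M A C1 S h α β N e (3 / 16) (Phi t a b e e' p) := by
  obtain ⟨n1, K0, P, Q, L, hmem⟩ := hp
  have R := hpr n1 K0 P Q L e e' hee
  obtain ⟨Θ, h1, h2, h3⟩ := L.lim R
  obtain ⟨Θ', h1', h2', h3'⟩ := L.lim R.swap
  have ha := L.U.ane
  have hb := L.U.bne
  -- the limits
  have key : ∀ (g g' : ℕ → ℂ) (Ξ : ℂ × ℂ → ℂ × ℂ),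
      TendstoUniformlyOn (fun k v => bw t a b g n1 k (fw t a b g' n1 k v)) Ξ atTop
        (bx C1 α β P Q n1 (1 / 4)) → ∀ q, fw t a b g' 0 n1 q ∈ bx C1 α β P Q n1 (1 / 4) →
      Phi t a b g g' q = bw t a b g 0 n1 (Ξ (fw t a b g' 0 n1 q)) := by
    intro g g' Ξ hΞ q hq
    have e1 : Tendsto (fun k => bw t a b g n1 k (fw t a b g' n1 k (fw t a b g' 0 n1 q))) atTop
        (𝓝 (Ξ (fw t a b g' 0 n1 q))) := hΞ.tendsto_at hq
    have e2 := ((bw_differentiable (t := t) (a := a) (b := b) g 0 n1).continuous.tendsto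
      (Ξ (fw t a b g' 0 n1 q))).comp e1
    apply Tendsto.limUnder_eq
    rw [← tendsto_add_atTop_iff_nat n1]
    refine e2.congr fun k => ?_
    show bw t a b g 0 n1 (bw t a b g n1 k (fw t a b g' n1 k (fw t a b g' 0 n1 q))) =
      bw t a b g 0 (k + n1) (fw t a b g' 0 (k + n1) q)
    rw [add_comm k n1, bw_add, fw_add, zero_add]
  refine ⟨?_, ?_, ?_⟩
  · -- differentiability
    have hmem8 : fw t a b e' 0 n1 p ∈ bx C1 α β P Q n1 (1 / 8) := bx_mono (by norm_num) hmem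
    have hD : DifferentiableAt ℂ (fun q => bw t a b e 0 n1 (Θ (fw t a b e' 0 n1 q))) p :=
      (bw_differentiable e 0 n1 _).comp p
        ((h3 _ hmem8).comp p (fw_differentiable e' 0 n1 p))
    refine hD.congr_of_eventuallyEq ?_
    obtain ⟨r, hr, hball⟩ := bx_near (s' := 1 / 4) (by norm_num) hmem
    have hcont := (fw_differentiable (t := t) (a := a) (b := b) e' 0 n1).continuous.tendsto p
    filter_upwards [hcont (ball_mem_nhds _ hr)] with q hq
    exact key e e' Θ h2 q (hball hq)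
  · obtain ⟨i1, i2⟩ := loc_inv ha hb h1 h2 h2' hmem
    rw [key e e' Θ h2 p (bx_mono (by norm_num) hmem)]
    rw [key e' e Θ' h2' _ (by rw [fw_bw ha hb]; exact bx_mono (by norm_num) i1)]
    rw [fw_bw ha hb, i2, bw_fw ha hb]
  · obtain ⟨i1, i2⟩ := loc_inv ha hb h1 h2 h2' hmem
    refine ⟨n1, K0, P, Q, L, ?_⟩
    rw [key e e' Θ h2 p (bx_mono (by norm_num) hmem), fw_bw ha hb]
    exact i1

/-- admissible points are attracted by the full system; this is an open condition -/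
theorem adm_attr {p : ℂ × ℂ} {s : ℝ} (hs : s < 1)
    (hp : Adm t a b c x y d M A C1 S h α β N c s p) :
    ∀ᶠ q in 𝓝 p, Tendsto (fun n => fw t a b c 0 n q) atTop (𝓝 0) := by
  obtain ⟨n1, K0, P, Q, L, hmem⟩ := hp
  obtain ⟨r, hr, hball⟩ := bx_near hs hmem
  have hcont := (fw_differentiable (t := t) (a := a) (b := b) c 0 n1).continuous.tendsto p
  filter_upwards [hcont (ball_mem_nhds _ hr)] with q hq
  have hq1 : fw t a b c 0 n1 q ∈ reg C1 α β P Q n1 := bx_reg le_rfl (hball hq)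
  have hreg : ∀ k, fw t a b c 0 (n1 + k) q ∈ reg C1 α β P Q (n1 + k) := by
    intro k
    rw [fw_add, zero_add]
    exact fw_mem L.pr.he' k hq1
  rw [← tendsto_add_atTop_iff_nat n1]
  have hNt : Tendsto (fun k => Real.exp (-(0.2 * N (k + n1)))) atTop (𝓝 0) := by
    apply Real.tendsto_exp_neg_atTop_nhds_zero.comp
    exact ((tendsto_add_atTop_iff_nat n1).2 L.U.N_tendsto).const_mul_atTop (by norm_num)
  refine squeeze_zero_norm (fun k => ?_) hNt
  obtain ⟨m1, m2⟩ := hreg k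
  rw [add_comm n1 k] at m1 m2
  obtain ⟨s1, s2⟩ := L.sm (k + n1) (by omega)
  obtain ⟨g1, g2⟩ := L.U.T.ge_nu (Nat.zero_le (k + n1))
  have g3 := L.U.C1nn
  have g4 := L.U.T.N_ge (Nat.zero_le (k + n1))
  have g5 := L.U.T.hpos
  rw [Prod.norm_def, max_le_iff]
  exact ⟨m1.trans (Real.exp_le_exp.2 (by linarith)), m2.trans (Real.exp_le_exp.2 (by linarith))⟩

/-- The main theorem in terms of the setup. -/
theorem main_setup (U : Setup t a b c x y d M A C1 S h α β N) (hN1 : 1 ≤ N 0) :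
    IsOpen {p | Tendsto (fun n => fw t a b c 0 n p) atTop (𝓝 0)} ∧
    ∃ φ ψ : ℂ × ℂ → ℂ × ℂ, Differentiable ℂ φ ∧
      DifferentiableOn ℂ ψ {p | Tendsto (fun n => fw t a b c 0 n p) atTop (𝓝 0)} ∧
      range φ = {p | Tendsto (fun n => fw t a b c 0 n p) atTop (𝓝 0)} ∧
      (∀ p, ψ (φ p) = p) ∧
      ∀ p ∈ {p | Tendsto (fun n => fw t a b c 0 n p) atTop (𝓝 0)}, φ (ψ p) = p := by
  have hpr : ∀ n1 K0 P Q, Loc t a b c x y d M A C1 S h α β N n1 K0 P Q →
      ∀ e e' : ℕ → ℂ, (e = c ∧ e' = cut t S α β N c) ∨ (e = cut t S α β N c ∧ e' = c) →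
      Pr t a b M C1 S α β N n1 P Q e e' := by
    intro n1 K0 P Q L e e' hh
    rcases hh with ⟨rfl, rfl⟩ | ⟨rfl, rfl⟩
    · exact L.pr.swap
    · exact L.pr
  set Ω : Set (ℂ × ℂ) := {p | Tendsto (fun n => fw t a b c 0 n p) atTop (𝓝 0)} with hΩ
  have h1 : ∀ p : ℂ × ℂ, _ := fun p =>
    glob (e := c) (e' := cut t S α β N c) hpr (Or.inl ⟨rfl, rfl⟩) (adm_cut U hN1 p)
  have h2 : ∀ p ∈ Ω, _ := fun p hp =>
    glob (e := cut t S α β N c) (e' := c) hpr (Or.inr ⟨rfl, rfl⟩) (adm_full U hN1 hp)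
  have h3 : ∀ p, Phi t a b c (cut t S α β N c) p ∈ Ω := fun p =>
    (adm_attr (by norm_num) (h1 p).2.2).self_of_nhds
  refine ⟨?_, Phi t a b c (cut t S α β N c), Phi t a b (cut t S α β N c) c,
    fun p => (h1 p).1, fun p hp => (h2 p hp).1.differentiableWithinAt, ?_,
    fun p => (h1 p).2.1, fun p hp => (h2 p hp).2.1⟩
  · rw [isOpen_iff_mem_nhds]
    intro p hp
    exact adm_attr (by norm_num) (adm_full U hN1 hp)
  · ext q
    constructor
    · rintro ⟨p, rfl⟩
      exact h3 p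
    · intro hq
      exact ⟨_, (h2 q hq).2.1⟩

end

end Pool.Agent.TH238
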