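import Pool.Agent.TH238.Reg
import Pool.Agent.Helper540.Holo

set_option autoImplicit false

/-!
Displacement estimates and local limits.
-/

namespace Pool.Agent.TH238

open Set Filter Topology Metric

section

variable {t : ℕ → Bool} {a b c : ℕ → ℂ} {x y : ℕ → ℝ} {d M A C1 S h : ℝ} {α β N : ℕ → ℝ}

theorem Setup.Mnn (U : Setup t a b c x y d M A C1 S h α β N) : 0 ≤ M :=
  (norm_nonneg _).trans (U.nc 0)

theorem Setup.Ann (U : Setup t a b c x y d M A C1 S h α β N) : 0 ≤ A :=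
  (by positivity : 0 ≤ 1 / ‖a 0‖).trans (U.hA 0)

/-- the geometric ratio -/
noncomputable def qq (d : ℝ) : ℝ := Real.exp (-(0.0006 * (1.998 * d)))

theorem qq_pos (d : ℝ) : 0 < qq d := Real.exp_pos _

theorem qq_lt {d : ℝ} (hd : 0 < d) : qq d < 1 := by
  unfold qq
  rw [Real.exp_lt_one_iff]
  nlinarith

/-- the amplitude -/
noncomputable def amp (M A N1 : ℝ) : ℝ := (2 * M * A + 1) * Real.exp (-(0.0006 * N1))

theorem fw_mem {P Q : ℕ → ℝ} {n1 : ℕ} {e : ℕ → ℂ}
    (he : ∀ n, n1 ≤ n → ∀ p ∈ reg C1 α β P Q n,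
      el (t n) (a n) (b n) (e n) p ∈ reg C1 α β P Q (n + 1))
    (k : ℕ) {p : ℂ × ℂ} (hp : p ∈ reg C1 α β P Q n1) :
    fw t a b e n1 k p ∈ reg C1 α β P Q (n1 + k) := by
  induction k with
  | zero => exact hp
  | succ k ih => exact he (n1 + k) (by omega) _ ih

/-- the one-step displacement -/
theorem disp_step (U : Setup t a b c x y d M A C1 S h α β N) {n1 : ℕ} {K0 : ℝ} {P Q : ℕ → ℝ}
    (G : GapSeq t S α β N n1 K0 P Q) (hK0 : 0 ≤ K0)
    (hsm : ∀ n, n1 ≤ n → P n ≤ 0.0001 * N n ∧ Q n ≤ 0.0001 * N n)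
    (hsum : amp M A (N n1) / (1 - qq d) ≤ 1 / 8)
    {e e' : ℕ → ℂ}
    (he : ∀ n, n1 ≤ n → ∀ p ∈ reg C1 α β P Q n,
      el (t n) (a n) (b n) (e n) p ∈ reg C1 α β P Q (n + 1))
    (he' : ∀ n, n1 ≤ n → ∀ p ∈ reg C1 α β P Q n,
      el (t n) (a n) (b n) (e' n) p ∈ reg C1 α β P Q (n + 1))
    (hdiff : ∀ n, e' n = e n ∨ (¬ HF t S β N n ∧ ¬ HG t S α N n ∧ ‖e' n - e n‖ ≤ M))
    (k : ℕ) {v : ℂ × ℂ} (hv : v ∈ reg C1 α β P Q n1)
    (h1 : ‖(bw t a b e n1 k (fw t a b e' n1 k v)).1‖ ≤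
      3 / 8 * Real.exp (-C1 - α n1 + P n1))
    (h2 : ‖(bw t a b e n1 k (fw t a b e' n1 k v)).2‖ ≤
      3 / 8 * Real.exp (-C1 - β n1 + Q n1)) :
    ‖(bw t a b e n1 (k + 1) (fw t a b e' n1 (k + 1) v)).1 -
      (bw t a b e n1 k (fw t a b e' n1 k v)).1‖ ≤
      amp M A (N n1) * qq d ^ k * Real.exp (-C1 - α n1 + P n1) ∧
    ‖(bw t a b e n1 (k + 1) (fw t a b e' n1 (k + 1) v)).2 -
      (bw t a b e n1 k (fw t a b e' n1 k v)).2‖ ≤
      amp M A (N n1) * qq d ^ k * Real.exp (-C1 - β n1 + Q n1) := by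
  have hq0 := qq_pos d
  have hq1 := qq_lt U.dpos
  have hM := U.Mnn
  have hA := U.Ann
  have hamp : 0 < amp M A (N n1) := by
    unfold amp; positivity
  set w := fw t a b e' n1 k v with hw
  set p := bw t a b e n1 k w with hp
  have hwp : fw t a b e n1 k p = w := fw_bw U.ane U.bne e n1 k w
  have hwreg : w ∈ reg C1 α β P Q (n1 + k) := fw_mem he' k hv
  set n := n1 + k with hn
  have hstep : bw t a b e n1 (k + 1) (fw t a b e' n1 (k + 1) v) =
      bw t a b e n1 k (w + (if t n = true then ((e' n - e n) / a n * w.2 ^ 2, 0)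
        else (0, (e' n - e n) / b n * w.1 ^ 2))) := by
    rw [bw_succ, fw_succ, ← hw, ← hn, eli_el_diff _ (U.ane _) (U.bne _)]
  set δ : ℂ × ℂ := (if t n = true then ((e' n - e n) / a n * w.2 ^ 2, 0)
        else (0, (e' n - e n) / b n * w.1 ^ 2)) with hδ
  set κ := amp M A (N n1) * qq d ^ k with hκ
  have hκpos : 0 < κ := by positivity
  have hκ8 : κ ≤ 1 / 8 := by
    have h3 : qq d ^ k ≤ 1 := pow_le_one₀ hq0.le hq1.le
    have h4 : amp M A (N n1) ≤ amp M A (N n1) / (1 - qq d) := by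
      rw [le_div_iff₀ (by linarith)]
      nlinarith
    calc κ ≤ amp M A (N n1) * 1 := mul_le_mul_of_nonneg_left h3 hamp.le
      _ ≤ 1 / 8 := by linarith
  rw [hstep, ← hwp]
  refine core (J := ∏ i ∈ Finset.range k, (a (n1 + i) * b (n1 + i)))
    (R1 := Real.exp (-C1 - α n + P n)) (R2 := Real.exp (-C1 - β n + Q n))
    (fw_differentiable e n1 k) (bw_differentiable e n1 k)
    (bw_fw U.ane U.bne e n1 k) (fw_bw U.ane U.bne e n1 k) (fw_det e n1 k)
    (Finset.prod_ne_zero_iff.2 fun i _ => mul_ne_zero (U.ane _) (U.bne _))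
    (Real.exp_pos _) (Real.exp_pos _) (Real.exp_pos _).le (Real.exp_pos _).le
    (fun q hq1 hq2 => fw_mem he k ⟨hq1, hq2⟩) h1 h2 ?_ hκ8
  rw [norm_jac U, ← hn]
  obtain ⟨w1, w2⟩ := hwreg
  rcases hdiff n with h3 | ⟨h3, h4, h5⟩
  · have : δ = 0 := by
      rw [hδ, h3]; split_ifs <;> simp
    rw [this]
    simpa using hκpos
  obtain ⟨s1, s2⟩ := hsm n (by omega)
  obtain ⟨z1, z2⟩ := G.nonneg hK0 le_rfl
  have a0 := U.T.add_le (Nat.zero_le n1)
  have a5 := U.T.N_ge (Nat.zero_le n1)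
  have a6 := U.T.hpos
  have a7 := N_lin U n1 k
  rw [← hn] at a7
  have a8 := U.T.hSpos
  have a9 := U.C1nn
  have a10 := U.dpos
  have hNn : 0 ≤ N n := by
    have := U.T.N_ge (Nat.zero_le n)
    linarith
  have hkd : (k : ℝ) * (d / 500) ≤ 0.001002 * N n := by
    have : 0 ≤ N n1 := by linarith
    nlinarith
  -- the final comparison
  have hfin : ∀ X : ℝ, X ≤ -(0.0006 * N n) → 2 * (M * A) * Real.exp X < κ := by
    intro X hX
    have e1 : Real.exp X ≤ Real.exp (-(0.0006 * N n1)) * qq d ^ k := by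
      unfold qq
      rw [← Real.exp_nat_mul, ← Real.exp_add]
      apply Real.exp_le_exp.2
      nlinarith
    have e2 : 0 < Real.exp (-(0.0006 * N n1)) * qq d ^ k := by positivity
    calc 2 * (M * A) * Real.exp X ≤ 2 * (M * A) * (Real.exp (-(0.0006 * N n1)) * qq d ^ k) :=
          mul_le_mul_of_nonneg_left e1 (by positivity)
      _ < (2 * M * A + 1) * (Real.exp (-(0.0006 * N n1)) * qq d ^ k) := by nlinarith
      _ = κ := by rw [hκ]; unfold amp; ring
  have hden : Real.exp (-(N n - N n1) - k * (d / 500)) *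
      (Real.exp (-C1 - α n1 + P n1) * Real.exp (-C1 - β n1 + Q n1)) =
      Real.exp (-(N n - N n1) - k * (d / 500) + (-C1 - α n1 + P n1) + (-C1 - β n1 + Q n1)) := by
    rw [← Real.exp_add, ← Real.exp_add]; congr 1; ring
  rw [hden]
  rcases ht : t n with _ | _
  · -- second type
    have hδ1 : δ = (0, (e' n - e n) / b n * w.1 ^ 2) := by rw [hδ, ht]; simp
    have hbeta : 1.002 * N n + S < 3 * α n := by
      by_contra hcon; exact h4 ⟨ht, not_lt.1 hcon⟩
    rw [hδ1]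
    simp only [norm_zero, mul_zero, zero_add]
    have e3 : ‖(e' n - e n) / b n * w.1 ^ 2‖ ≤ M * A * Real.exp (-C1 - α n + P n) ^ 2 := by
      rw [norm_mul, norm_div, norm_pow, div_eq_mul_one_div]
      apply mul_le_mul _ (pow_le_pow_left₀ (norm_nonneg _) w1 2) (by positivity) (by positivity)
      exact mul_le_mul h5 (U.hB n) (by positivity) hM
    rw [div_lt_iff₀ (Real.exp_pos _)]
    have e4 := hfin (3 * (-C1 - α n + P n) - (-(N n - N n1) - k * (d / 500) +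
      (-C1 - α n1 + P n1) + (-C1 - β n1 + Q n1))) (by linarith)
    rw [Real.exp_sub, mul_div_assoc', div_lt_iff₀ (Real.exp_pos _)] at e4
    refine lt_of_le_of_lt ?_ e4
    have e5 : Real.exp (3 * (-C1 - α n + P n)) = Real.exp (-C1 - α n + P n) ^ 3 := by
      rw [← Real.exp_nat_mul]; norm_num
    rw [e5]
    have e6 : 0 < Real.exp (-C1 - α n + P n) := Real.exp_pos _
    calc 2 * (Real.exp (-C1 - α n + P n) * ‖(e' n - e n) / b n * w.1 ^ 2‖)
        ≤ 2 * (Real.exp (-C1 - α n + P n) * (M * A * Real.exp (-C1 - α n + P n) ^ 2)) := by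
          gcongr
      _ = 2 * (M * A) * Real.exp (-C1 - α n + P n) ^ 3 := by ring
  · -- first type
    have hδ1 : δ = ((e' n - e n) / a n * w.2 ^ 2, 0) := by rw [hδ, ht]; simp
    have hbeta : 1.002 * N n + S < 3 * β n := by
      by_contra hcon; exact h3 ⟨ht, not_lt.1 hcon⟩
    rw [hδ1]
    simp only [norm_zero, mul_zero, add_zero]
    have e3 : ‖(e' n - e n) / a n * w.2 ^ 2‖ ≤ M * A * Real.exp (-C1 - β n + Q n) ^ 2 := by
      rw [norm_mul, norm_div, norm_pow, div_eq_mul_one_div]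
      apply mul_le_mul _ (pow_le_pow_left₀ (norm_nonneg _) w2 2) (by positivity) (by positivity)
      exact mul_le_mul h5 (U.hA n) (by positivity) hM
    rw [div_lt_iff₀ (Real.exp_pos _)]
    have e4 := hfin (3 * (-C1 - β n + Q n) - (-(N n - N n1) - k * (d / 500) +
      (-C1 - α n1 + P n1) + (-C1 - β n1 + Q n1))) (by linarith)
    rw [Real.exp_sub, mul_div_assoc', div_lt_iff₀ (Real.exp_pos _)] at e4
    refine lt_of_le_of_lt ?_ e4
    have e5 : Real.exp (3 * (-C1 - β n + Q n)) = Real.exp (-C1 - β n + Q n) ^ 3 := by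
      rw [← Real.exp_nat_mul]; norm_num
    rw [e5]
    have e6 : 0 < Real.exp (-C1 - β n + Q n) := Real.exp_pos _
    calc 2 * (Real.exp (-C1 - β n + Q n) * ‖(e' n - e n) / a n * w.2 ^ 2‖)
        ≤ 2 * (Real.exp (-C1 - β n + Q n) * (M * A * Real.exp (-C1 - β n + Q n) ^ 2)) := by
          gcongr
      _ = 2 * (M * A) * Real.exp (-C1 - β n + Q n) ^ 3 := by ring

end

end Pool.Agent.TH238
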