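import Pool.Agent.TH238.Lim

set_option autoImplicit false

/-!
Local limits of the conjugations between two systems.
-/

namespace Pool.Agent.TH238

open Set Filter Topology Metric

section

variable {t : ℕ → Bool} {a b c : ℕ → ℂ} {x y : ℕ → ℝ} {d M A C1 S h : ℝ} {α β N : ℕ → ℝ}

/-- local data at time `n1` -/
structure Loc (t : ℕ → Bool) (a b c : ℕ → ℂ) (x y : ℕ → ℝ) (d M A C1 S h : ℝ)
    (α β N : ℕ → ℝ) (n1 : ℕ) (K0 : ℝ) (P Q : ℕ → ℝ) : Prop where
  U : Setup t a b c x y d M A C1 S h α β N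
  G : GapSeq t S α β N n1 K0 P Q
  nn : 0 ≤ K0
  sm : ∀ n, n1 ≤ n → P n ≤ 0.0001 * N n ∧ Q n ≤ 0.0001 * N n
  sum : amp M A (N n1) / (1 - qq d) ≤ 1 / 8

/-- a pair of systems which differ only at harmless steps -/
structure Pr (t : ℕ → Bool) (a b : ℕ → ℂ) (M C1 S : ℝ)
    (α β N : ℕ → ℝ) (n1 : ℕ) (P Q : ℕ → ℝ) (e e' : ℕ → ℂ) : Prop where
  he : ∀ n, n1 ≤ n → ∀ p ∈ reg C1 α β P Q n,
      el (t n) (a n) (b n) (e n) p ∈ reg C1 α β P Q (n + 1)
  he' : ∀ n, n1 ≤ n → ∀ p ∈ reg C1 α β P Q n,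
      el (t n) (a n) (b n) (e' n) p ∈ reg C1 α β P Q (n + 1)
  diff : ∀ n, e' n = e n ∨ (¬ HF t S β N n ∧ ¬ HG t S α N n ∧ ‖e' n - e n‖ ≤ M)

theorem Pr.swap {n1 : ℕ} {P Q : ℕ → ℝ} {e e' : ℕ → ℂ}
    (R : Pr t a b M C1 S α β N n1 P Q e e') : Pr t a b M C1 S α β N n1 P Q e' e := by
  refine ⟨R.he', R.he, fun n => ?_⟩
  rcases R.diff n with h | ⟨h1, h2, h3⟩
  · exact Or.inl h.symm
  · exact Or.inr ⟨h1, h2, by rw [norm_sub_rev]; exact h3⟩

theorem Loc.pr {n1 : ℕ} {K0 : ℝ} {P Q : ℕ → ℝ}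
    (L : Loc t a b c x y d M A C1 S h α β N n1 K0 P Q) :
    Pr t a b M C1 S α β N n1 P Q (cut t S α β N c) c := by
  refine ⟨fun n hn p hp => reg_cut L.U L.G hn hp,
    fun n hn p hp => reg_full L.U L.G L.nn L.sm hn hp, fun n => ?_⟩
  unfold cut
  by_cases hh : HF t S β N n ∨ HG t S α N n
  · left; rw [if_pos hh]
  · right
    rw [if_neg hh, sub_zero]
    exact ⟨fun h => hh (Or.inl h), fun h => hh (Or.inr h), L.U.nc n⟩

/-- boxes -/
def bx (C1 : ℝ) (α β P Q : ℕ → ℝ) (n : ℕ) (s : ℝ) : Set (ℂ × ℂ) :=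
  {p | ‖p.1‖ ≤ s * Real.exp (-C1 - α n + P n) ∧ ‖p.2‖ ≤ s * Real.exp (-C1 - β n + Q n)}

theorem bx_mono {P Q : ℕ → ℝ} {n : ℕ} {s s' : ℝ} (hs : s ≤ s') :
    bx C1 α β P Q n s ⊆ bx C1 α β P Q n s' := by
  rintro p ⟨h1, h2⟩
  exact ⟨h1.trans (mul_le_mul_of_nonneg_right hs (Real.exp_pos _).le),
    h2.trans (mul_le_mul_of_nonneg_right hs (Real.exp_pos _).le)⟩

theorem bx_reg {P Q : ℕ → ℝ} {n : ℕ} {s : ℝ} (hs : s ≤ 1) :
    bx C1 α β P Q n s ⊆ reg C1 α β P Q n := by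
  intro p hp
  obtain ⟨h1, h2⟩ := bx_mono hs hp
  exact ⟨by simpa using h1, by simpa using h2⟩

/-- points near a point of a box lie in a bigger box -/
theorem bx_near {P Q : ℕ → ℝ} {n : ℕ} {s s' : ℝ} (hs : s < s') {p : ℂ × ℂ}
    (hp : p ∈ bx C1 α β P Q n s) : ∃ R > 0, ball p R ⊆ bx C1 α β P Q n s' := by
  set r1 := Real.exp (-C1 - α n + P n) with hr1
  set r2 := Real.exp (-C1 - β n + Q n) with hr2
  have h1 : 0 < r1 := Real.exp_pos _
  have h2 : 0 < r2 := Real.exp_pos _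
  refine ⟨(s' - s) * min r1 r2, mul_pos (by linarith) (lt_min h1 h2), fun q hq => ?_⟩
  rw [mem_ball, dist_eq_norm, Prod.norm_def, max_lt_iff] at hq
  obtain ⟨q1, q2⟩ := hq
  obtain ⟨p1, p2⟩ := hp
  have m1 := min_le_left r1 r2
  have m2 := min_le_right r1 r2
  constructor
  · calc ‖q.1‖ = ‖p.1 + (q - p).1‖ := by simp
      _ ≤ ‖p.1‖ + ‖(q - p).1‖ := norm_add_le _ _
      _ ≤ s * r1 + (s' - s) * min r1 r2 := by linarith
      _ ≤ s * r1 + (s' - s) * r1 := by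
          have := mul_le_mul_of_nonneg_left m1 (by linarith : 0 ≤ s' - s)
          linarith
      _ = s' * r1 := by ring
  · calc ‖q.2‖ = ‖p.2 + (q - p).2‖ := by simp
      _ ≤ ‖p.2‖ + ‖(q - p).2‖ := norm_add_le _ _
      _ ≤ s * r2 + (s' - s) * min r1 r2 := by linarith
      _ ≤ s * r2 + (s' - s) * r2 := by
          have := mul_le_mul_of_nonneg_left m2 (by linarith : 0 ≤ s' - s)
          linarith
      _ = s' * r2 := by ring

/-- the conjugations stay close to the identity -/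
theorem Loc.disp_sum {n1 : ℕ} {K0 : ℝ} {P Q : ℕ → ℝ}
    (L : Loc t a b c x y d M A C1 S h α β N n1 K0 P Q) {e e' : ℕ → ℂ}
    (R : Pr t a b M C1 S α β N n1 P Q e e') {v : ℂ × ℂ}
    (hv : v ∈ bx C1 α β P Q n1 (1 / 4)) (k : ℕ) :
    ‖(bw t a b e n1 k (fw t a b e' n1 k v)).1 - v.1‖ ≤
      1 / 8 * Real.exp (-C1 - α n1 + P n1) ∧
    ‖(bw t a b e n1 k (fw t a b e' n1 k v)).2 - v.2‖ ≤
      1 / 8 * Real.exp (-C1 - β n1 + Q n1) := by
  set r1 := Real.exp (-C1 - α n1 + P n1) with hr1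
  set r2 := Real.exp (-C1 - β n1 + Q n1) with hr2
  have h1 : 0 < r1 := Real.exp_pos _
  have h2 : 0 < r2 := Real.exp_pos _
  have hq0 := qq_pos d
  have hq1 := qq_lt L.U.dpos
  have hamp : 0 < amp M A (N n1) := by
    have := L.U.Mnn; have := L.U.Ann
    unfold amp; positivity
  have hsum : ∀ k : ℕ, amp M A (N n1) * ∑ j ∈ Finset.range k, qq d ^ j ≤ 1 / 8 := by
    intro k
    have e1 : (∑ j ∈ Finset.range k, qq d ^ j) * (1 - qq d) = 1 - qq d ^ k :=
      geom_sum_mul_neg _ _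
    have e2 : 0 < qq d ^ k := by positivity
    have e3 := L.sum
    rw [div_le_iff₀ (by linarith)] at e3
    have e4 : (∑ j ∈ Finset.range k, qq d ^ j) ≤ 1 / (1 - qq d) := by
      rw [le_div_iff₀ (by linarith)]; linarith
    calc amp M A (N n1) * ∑ j ∈ Finset.range k, qq d ^ j
        ≤ amp M A (N n1) * (1 / (1 - qq d)) := mul_le_mul_of_nonneg_left e4 hamp.le
      _ = amp M A (N n1) / (1 - qq d) := by ring
      _ ≤ 1 / 8 := L.sum
  have key : ∀ k : ℕ, ‖(bw t a b e n1 k (fw t a b e' n1 k v)).1 - v.1‖ ≤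
      (amp M A (N n1) * ∑ j ∈ Finset.range k, qq d ^ j) * r1 ∧
    ‖(bw t a b e n1 k (fw t a b e' n1 k v)).2 - v.2‖ ≤
      (amp M A (N n1) * ∑ j ∈ Finset.range k, qq d ^ j) * r2 := by
    intro k
    induction k with
    | zero => simp [fw_zero, bw_zero]
    | succ k ih =>
      obtain ⟨i1, i2⟩ := ih
      obtain ⟨v1, v2⟩ := hv
      have g1 : ‖(bw t a b e n1 k (fw t a b e' n1 k v)).1‖ ≤ 3 / 8 * r1 := by
        have := mul_le_mul_of_nonneg_right (hsum k) h1.le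
        have e5 := norm_add_le ((bw t a b e n1 k (fw t a b e' n1 k v)).1 - v.1) v.1
        rw [sub_add_cancel] at e5
        linarith
      have g2 : ‖(bw t a b e n1 k (fw t a b e' n1 k v)).2‖ ≤ 3 / 8 * r2 := by
        have := mul_le_mul_of_nonneg_right (hsum k) h2.le
        have e5 := norm_add_le ((bw t a b e n1 k (fw t a b e' n1 k v)).2 - v.2) v.2
        rw [sub_add_cancel] at e5
        linarith
      obtain ⟨d1, d2⟩ := disp_step L.U L.G L.nn L.sm L.sum R.he R.he' R.diff k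
        (bx_reg (by norm_num) ⟨v1, v2⟩) g1 g2
      rw [Finset.sum_range_succ]
      constructor
      · have e5 := norm_add_le ((bw t a b e n1 (k + 1) (fw t a b e' n1 (k + 1) v)).1 -
          (bw t a b e n1 k (fw t a b e' n1 k v)).1)
          ((bw t a b e n1 k (fw t a b e' n1 k v)).1 - v.1)
        rw [sub_add_sub_cancel] at e5
        calc _ ≤ _ := e5
          _ ≤ amp M A (N n1) * qq d ^ k * r1 +
            (amp M A (N n1) * ∑ j ∈ Finset.range k, qq d ^ j) * r1 := add_le_add d1 i1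
          _ = _ := by ring
      · have e5 := norm_add_le ((bw t a b e n1 (k + 1) (fw t a b e' n1 (k + 1) v)).2 -
          (bw t a b e n1 k (fw t a b e' n1 k v)).2)
          ((bw t a b e n1 k (fw t a b e' n1 k v)).2 - v.2)
        rw [sub_add_sub_cancel] at e5
        calc _ ≤ _ := e5
          _ ≤ amp M A (N n1) * qq d ^ k * r2 +
            (amp M A (N n1) * ∑ j ∈ Finset.range k, qq d ^ j) * r2 := add_le_add d2 i2
          _ = _ := by ring
  obtain ⟨k1, k2⟩ := key k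
  exact ⟨k1.trans (mul_le_mul_of_nonneg_right (hsum k) h1.le),
    k2.trans (mul_le_mul_of_nonneg_right (hsum k) h2.le)⟩

theorem Loc.dist_step {n1 : ℕ} {K0 : ℝ} {P Q : ℕ → ℝ}
    (L : Loc t a b c x y d M A C1 S h α β N n1 K0 P Q) {e e' : ℕ → ℂ}
    (R : Pr t a b M C1 S α β N n1 P Q e e') {v : ℂ × ℂ}
    (hv : v ∈ bx C1 α β P Q n1 (1 / 4)) (k : ℕ) :
    dist (bw t a b e n1 k (fw t a b e' n1 k v))
      (bw t a b e n1 (k + 1) (fw t a b e' n1 (k + 1) v)) ≤
      (amp M A (N n1) * max (Real.exp (-C1 - α n1 + P n1)) (Real.exp (-C1 - β n1 + Q n1))) *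
        qq d ^ k := by
  obtain ⟨v1, v2⟩ := id hv
  obtain ⟨i1, i2⟩ := L.disp_sum R hv k
  set r1 := Real.exp (-C1 - α n1 + P n1) with hr1
  set r2 := Real.exp (-C1 - β n1 + Q n1) with hr2
  have hq0 := qq_pos d
  have hamp : 0 < amp M A (N n1) := by
    have := L.U.Mnn; have := L.U.Ann
    unfold amp; positivity
  have g1 : ‖(bw t a b e n1 k (fw t a b e' n1 k v)).1‖ ≤ 3 / 8 * r1 := by
    have e5 := norm_add_le ((bw t a b e n1 k (fw t a b e' n1 k v)).1 - v.1) v.1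
    rw [sub_add_cancel] at e5
    linarith
  have g2 : ‖(bw t a b e n1 k (fw t a b e' n1 k v)).2‖ ≤ 3 / 8 * r2 := by
    have e5 := norm_add_le ((bw t a b e n1 k (fw t a b e' n1 k v)).2 - v.2) v.2
    rw [sub_add_cancel] at e5
    linarith
  obtain ⟨d1, d2⟩ := disp_step L.U L.G L.nn L.sm L.sum R.he R.he' R.diff k
    (bx_reg (by norm_num) hv) g1 g2
  rw [dist_comm, dist_eq_norm, Prod.norm_def, max_le_iff]
  have m1 := le_max_left r1 r2
  have m2 := le_max_right r1 r2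
  constructor
  · calc _ ≤ amp M A (N n1) * qq d ^ k * r1 := d1
      _ ≤ amp M A (N n1) * qq d ^ k * max r1 r2 :=
          mul_le_mul_of_nonneg_left m1 (by positivity)
      _ = _ := by ring
  · calc _ ≤ amp M A (N n1) * qq d ^ k * r2 := d2
      _ ≤ amp M A (N n1) * qq d ^ k * max r1 r2 :=
          mul_le_mul_of_nonneg_left m2 (by positivity)
      _ = _ := by ring

/-- existence of the local limit -/
theorem Loc.lim {n1 : ℕ} {K0 : ℝ} {P Q : ℕ → ℝ}
    (L : Loc t a b c x y d M A C1 S h α β N n1 K0 P Q) {e e' : ℕ → ℂ}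
    (R : Pr t a b M C1 S α β N n1 P Q e e') :
    ∃ Θ : ℂ × ℂ → ℂ × ℂ,
      (∀ v ∈ bx C1 α β P Q n1 (1 / 4), ‖(Θ v).1 - v.1‖ ≤ 1 / 8 * Real.exp (-C1 - α n1 + P n1) ∧
        ‖(Θ v).2 - v.2‖ ≤ 1 / 8 * Real.exp (-C1 - β n1 + Q n1)) ∧
      TendstoUniformlyOn (fun k v => bw t a b e n1 k (fw t a b e' n1 k v)) Θ atTop
        (bx C1 α β P Q n1 (1 / 4)) ∧
      ∀ v ∈ bx C1 α β P Q n1 (1 / 8), DifferentiableAt ℂ Θ v := by
  have hq0 := qq_pos d
  have hq1 := qq_lt L.U.dpos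
  set B := amp M A (N n1) *
    max (Real.exp (-C1 - α n1 + P n1)) (Real.exp (-C1 - β n1 + Q n1)) with hB
  have hlim : ∀ v ∈ bx C1 α β P Q n1 (1 / 4), ∃ u,
      Tendsto (fun k => bw t a b e n1 k (fw t a b e' n1 k v)) atTop (𝓝 u) := by
    intro v hv
    exact cauchySeq_tendsto_of_complete
      (cauchySeq_of_le_geometric (qq d) B hq1 (L.dist_step R hv))
  choose! Θ hΘ using hlim
  have hunif : TendstoUniformlyOn (fun k v => bw t a b e n1 k (fw t a b e' n1 k v)) Θ atTop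
        (bx C1 α β P Q n1 (1 / 4)) := by
    rw [Metric.tendstoUniformlyOn_iff]
    intro ε hε
    have h0 : Tendsto (fun k : ℕ => B * qq d ^ k / (1 - qq d)) atTop (𝓝 0) := by
      have := ((tendsto_pow_atTop_nhds_zero_of_lt_one hq0.le hq1).const_mul B).div_const
        (1 - qq d)
      simpa using this
    filter_upwards [(tendsto_order.1 h0).2 ε hε] with k hk v hv
    rw [dist_comm]
    exact lt_of_le_of_lt (dist_le_of_le_geometric_of_tendsto (qq d) B hq1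
      (L.dist_step R hv) (hΘ v hv) k) hk
  refine ⟨Θ, fun v hv => ⟨?_, ?_⟩, hunif, fun v hv => ?_⟩
  · refine le_of_tendsto ((((continuous_fst.tendsto _).comp (hΘ v hv)).sub_const v.1).norm) ?_
    exact Eventually.of_forall fun k => (L.disp_sum R hv k).1
  · refine le_of_tendsto ((((continuous_snd.tendsto _).comp (hΘ v hv)).sub_const v.2).norm) ?_
    exact Eventually.of_forall fun k => (L.disp_sum R hv k).2
  · obtain ⟨r, hr, hball⟩ := bx_near (s' := 1 / 4) (by norm_num) hv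
    have h1 := Pool.Agent.Helper540.differentiableOn_of_uniform_limit (c := v) (R := r)
      (f := fun k v => bw t a b e n1 k (fw t a b e' n1 k v)) (g := Θ)
      (fun k => ((bw_differentiable e n1 k).comp (fw_differentiable e' n1 k)).differentiableOn)
      (hunif.mono hball)
    exact (h1 v (mem_ball_self (by linarith))).differentiableAt
      (ball_mem_nhds v (by linarith))

/-- the two local limits are inverse to each other -/
theorem loc_inv (ha : ∀ n, a n ≠ 0) (hb : ∀ n, b n ≠ 0) {n1 : ℕ} {P Q : ℕ → ℝ}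
    {e e' : ℕ → ℂ} {Θ Θ' : ℂ × ℂ → ℂ × ℂ}
    (h1 : ∀ v ∈ bx C1 α β P Q n1 (1 / 4),
      ‖(Θ v).1 - v.1‖ ≤ 1 / 8 * Real.exp (-C1 - α n1 + P n1) ∧
        ‖(Θ v).2 - v.2‖ ≤ 1 / 8 * Real.exp (-C1 - β n1 + Q n1))
    (h2 : TendstoUniformlyOn (fun k v => bw t a b e n1 k (fw t a b e' n1 k v)) Θ atTop
        (bx C1 α β P Q n1 (1 / 4)))
    (h2' : TendstoUniformlyOn (fun k v => bw t a b e' n1 k (fw t a b e n1 k v)) Θ' atTop
        (bx C1 α β P Q n1 (1 / 4)))
    {v : ℂ × ℂ} (hv : v ∈ bx C1 α β P Q n1 (1 / 16)) :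
    Θ v ∈ bx C1 α β P Q n1 (3 / 16) ∧ Θ' (Θ v) = v := by
  have hv4 : v ∈ bx C1 α β P Q n1 (1 / 4) := bx_mono (by norm_num) hv
  have hm : Θ v ∈ bx C1 α β P Q n1 (3 / 16) := by
    obtain ⟨a1, a2⟩ := h1 v hv4
    obtain ⟨b1, b2⟩ := hv
    constructor
    · have e5 := norm_add_le ((Θ v).1 - v.1) v.1
      rw [sub_add_cancel] at e5
      linarith
    · have e5 := norm_add_le ((Θ v).2 - v.2) v.2
      rw [sub_add_cancel] at e5
      linarith
  refine ⟨hm, ?_⟩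
  obtain ⟨r, hr, hball⟩ := bx_near (s' := 1 / 4) (by norm_num) hm
  have hm4 : Θ v ∈ bx C1 α β P Q n1 (1 / 4) := bx_mono (by norm_num) hm
  have hcont : ContinuousOn Θ' (bx C1 α β P Q n1 (1 / 4)) := by
    refine h2'.continuousOn (Frequently.of_forall fun k => ?_)
    exact ((bw_differentiable e' n1 k).comp (fw_differentiable e n1 k)).continuous.continuousOn
  have ht : Tendsto (fun k => bw t a b e n1 k (fw t a b e' n1 k v)) atTop (𝓝 (Θ v)) :=
    h2.tendsto_at hv4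
  have ht' : Tendsto (fun k => bw t a b e n1 k (fw t a b e' n1 k v)) atTop
      (𝓝[bx C1 α β P Q n1 (1 / 4)] (Θ v)) := by
    rw [tendsto_nhdsWithin_iff]
    refine ⟨ht, ?_⟩
    filter_upwards [ht (ball_mem_nhds _ hr)] with k hk
    exact hball hk
  have h3 := h2'.tendstoLocallyUniformlyOn.tendsto_comp (hcont _ hm4) hm4 ht'
  have h4 : (fun k => bw t a b e' n1 k (fw t a b e n1 k
      (bw t a b e n1 k (fw t a b e' n1 k v)))) = fun _ => v := by
    funext k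
    rw [fw_bw ha hb, bw_fw ha hb]
  rw [h4] at h3
  exact tendsto_nhds_unique h3 tendsto_const_nhds

end

end Pool.Agent.TH238
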