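import Pool.Agent.TH238.Dyn
import Pool.Agent.TH238.Gap

set_option autoImplicit false

/-!
Invariant regions and the displacement estimate.
-/

namespace Pool.Agent.TH238

open Set Filter Topology Metric

/-- harmful steps of the first type -/
def HF (t : ℕ → Bool) (S : ℝ) (β N : ℕ → ℝ) (n : ℕ) : Prop :=
  t n = true ∧ 3 * β n ≤ 1.002 * N n + S

/-- harmful steps of the second type -/
def HG (t : ℕ → Bool) (S : ℝ) (α N : ℕ → ℝ) (n : ℕ) : Prop :=
  t n = false ∧ 3 * α n ≤ 1.002 * N n + S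

open Classical in
/-- coefficients with all harmless ones replaced by zero -/
noncomputable def cut (t : ℕ → Bool) (S : ℝ) (α β N : ℕ → ℝ) (c : ℕ → ℂ) (n : ℕ) : ℂ :=
  if HF t S β N n ∨ HG t S α N n then c n else 0

/-- all the data and their relations -/
structure Setup (t : ℕ → Bool) (a b c : ℕ → ℂ) (x y : ℕ → ℝ) (d M A C1 S h : ℝ)
    (α β N : ℕ → ℝ) : Prop where
  T : Trop t x y S h 0 α β N
  dpos : 0 < d
  na : ∀ n, ‖a n‖ = Real.exp (-(x n + d / 1000))
  nb : ∀ n, ‖b n‖ = Real.exp (-(y n + d / 1000))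
  nc : ∀ n, ‖c n‖ ≤ M
  C1nn : 0 ≤ C1
  hC : Real.exp (-(d / 1000)) + M * Real.exp (-C1) ≤ 1
  hd : ∀ n, 1.998 * d ≤ x n + y n
  hA : ∀ n, 1 / ‖a n‖ ≤ A
  hB : ∀ n, 1 / ‖b n‖ ≤ A

/-- the region at time `n` -/
def reg (C1 : ℝ) (α β P Q : ℕ → ℝ) (n : ℕ) : Set (ℂ × ℂ) :=
  {p | ‖p.1‖ ≤ Real.exp (-C1 - α n + P n) ∧ ‖p.2‖ ≤ Real.exp (-C1 - β n + Q n)}

theorem size_bound {a c p1 p2 : ℂ} {x e M C1 α β P Q E : ℝ} (ha : ‖a‖ = Real.exp (-(x + e)))
    (hc : ‖c‖ ≤ M) (hC : Real.exp (-e) + M * Real.exp (-C1) ≤ 1)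
    (h1 : ‖p1‖ ≤ Real.exp (-C1 - α + P)) (h2 : ‖p2‖ ≤ Real.exp (-C1 - β + Q))
    (hE1 : -(α + x) + P ≤ E) (hE2 : -2 * β + 2 * Q ≤ E) :
    ‖a * p1 + c * p2 ^ 2‖ ≤ Real.exp (-C1 + E) := by
  have hM : 0 ≤ M := (norm_nonneg _).trans hc
  have e1 : ‖a * p1‖ ≤ Real.exp (-e) * Real.exp (-C1 + E) := by
    rw [norm_mul, ha]
    calc Real.exp (-(x + e)) * ‖p1‖ ≤ Real.exp (-(x + e)) * Real.exp (-C1 - α + P) :=
          mul_le_mul_of_nonneg_left h1 (Real.exp_pos _).le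
      _ = Real.exp (-e) * Real.exp (-C1 + (-(α + x) + P)) := by
          rw [← Real.exp_add, ← Real.exp_add]; congr 1; ring
      _ ≤ Real.exp (-e) * Real.exp (-C1 + E) := by
          apply mul_le_mul_of_nonneg_left _ (Real.exp_pos _).le
          apply Real.exp_le_exp.2; linarith
  have e2 : ‖c * p2 ^ 2‖ ≤ M * Real.exp (-C1) * Real.exp (-C1 + E) := by
    rw [norm_mul, norm_pow]
    calc ‖c‖ * ‖p2‖ ^ 2 ≤ M * (Real.exp (-C1 - β + Q)) ^ 2 :=
          mul_le_mul hc (pow_le_pow_left₀ (norm_nonneg _) h2 2) (by positivity) hM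
      _ = M * Real.exp (-C1) * Real.exp (-C1 + (-2 * β + 2 * Q)) := by
          rw [mul_assoc, ← Real.exp_add, ← Real.exp_nat_mul]; congr 2; push_cast; ring
      _ ≤ M * Real.exp (-C1) * Real.exp (-C1 + E) := by
          apply mul_le_mul_of_nonneg_left _ (by positivity)
          apply Real.exp_le_exp.2; linarith
  calc ‖a * p1 + c * p2 ^ 2‖ ≤ ‖a * p1‖ + ‖c * p2 ^ 2‖ := norm_add_le _ _
    _ ≤ (Real.exp (-e) + M * Real.exp (-C1)) * Real.exp (-C1 + E) := by linarith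
    _ ≤ 1 * Real.exp (-C1 + E) := mul_le_mul_of_nonneg_right hC (Real.exp_pos _).le
    _ = Real.exp (-C1 + E) := one_mul _

theorem size_lin {b p : ℂ} {y e C1 β Q E : ℝ} (hb : ‖b‖ = Real.exp (-(y + e))) (he : 0 ≤ e)
    (h2 : ‖p‖ ≤ Real.exp (-C1 - β + Q)) (hE : -(β + y) + Q ≤ E) :
    ‖b * p‖ ≤ Real.exp (-C1 + E) := by
  rw [norm_mul, hb]
  calc Real.exp (-(y + e)) * ‖p‖ ≤ Real.exp (-(y + e)) * Real.exp (-C1 - β + Q) :=
        mul_le_mul_of_nonneg_left h2 (Real.exp_pos _).le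
    _ = Real.exp (-e + (-C1 + (-(β + y) + Q))) := by
        rw [← Real.exp_add]; congr 1; ring
    _ ≤ Real.exp (-C1 + E) := by apply Real.exp_le_exp.2; linarith

section

variable {t : ℕ → Bool} {a b c : ℕ → ℂ} {x y : ℕ → ℝ} {d M A C1 S h : ℝ} {α β N : ℕ → ℝ}

theorem Setup.ane (U : Setup t a b c x y d M A C1 S h α β N) (n : ℕ) : a n ≠ 0 := by
  rw [← norm_pos_iff, U.na]; exact Real.exp_pos _

theorem Setup.bne (U : Setup t a b c x y d M A C1 S h α β N) (n : ℕ) : b n ≠ 0 := by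
  rw [← norm_pos_iff, U.nb]; exact Real.exp_pos _

theorem cut_norm (U : Setup t a b c x y d M A C1 S h α β N) (n : ℕ) :
    ‖cut t S α β N c n‖ ≤ M := by
  unfold cut
  split_ifs
  · exact U.nc n
  · rw [norm_zero]; exact (norm_nonneg _).trans (U.nc n)

/-- One step preserves the regions. -/
theorem reg_step (U : Setup t a b c x y d M A C1 S h α β N) {P Q : ℕ → ℝ} {n : ℕ}
    (hP : P n ≤ P (n + 1)) (hQ : Q n ≤ Q (n + 1)) {g : ℂ} (hg : ‖g‖ ≤ M)
    (hT : t n = true → g = 0 ∨ -2 * β n + 2 * Q n ≤ -α (n + 1) + P (n + 1))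
    (hF : t n = false → g = 0 ∨ -2 * α n + 2 * P n ≤ -β (n + 1) + Q (n + 1))
    {p : ℂ × ℂ} (hp : p ∈ reg C1 α β P Q n) :
    el (t n) (a n) (b n) g p ∈ reg C1 α β P Q (n + 1) := by
  obtain ⟨p1, p2⟩ := hp
  have hd : 0 ≤ d / 1000 := by have := U.dpos; positivity
  have k1 : Real.exp (-C1 - α (n + 1) + P (n + 1)) =
      Real.exp (-C1 + (-α (n + 1) + P (n + 1))) := by congr 1; ring
  have k2 : Real.exp (-C1 - β (n + 1) + Q (n + 1)) =
      Real.exp (-C1 + (-β (n + 1) + Q (n + 1))) := by congr 1; ring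
  rcases ht : t n with _ | _
  · have a1 := U.T.G1 n (Nat.zero_le _) ht
    have a2 := U.T.G2 n (Nat.zero_le _) ht
    have a3 : β (n + 1) ≤ β n + y n := by rw [a2]; exact min_le_left _ _
    rw [el_false]
    refine ⟨?_, ?_⟩
    · rw [k1]
      exact size_lin (U.na n) hd p1 (by linarith)
    · rw [k2]
      show ‖b n * p.2 + g * p.1 ^ 2‖ ≤ _
      rcases hF ht with h1 | h1
      · rw [h1, zero_mul, add_zero]
        exact size_lin (U.nb n) hd p2 (by linarith)
      · exact size_bound (U.nb n) hg U.hC p2 p1 (by linarith) h1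
  · have a1 := U.T.F1 n (Nat.zero_le _) ht
    have a2 := U.T.F2 n (Nat.zero_le _) ht
    have a3 : α (n + 1) ≤ α n + x n := by rw [a1]; exact min_le_left _ _
    rw [el_true]
    refine ⟨?_, ?_⟩
    · rw [k1]
      show ‖a n * p.1 + g * p.2 ^ 2‖ ≤ _
      rcases hT ht with h1 | h1
      · rw [h1, zero_mul, add_zero]
        exact size_lin (U.na n) hd p1 (by linarith)
      · exact size_bound (U.na n) hg U.hC p1 p2 (by linarith) h1
    · rw [k2]
      exact size_lin (U.nb n) hd p2 (by linarith)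

/-- Gap sequences starting at time `n1` with value `K0`. -/
structure GapSeq (t : ℕ → Bool) (S : ℝ) (α β N : ℕ → ℝ) (n1 : ℕ) (K0 : ℝ)
    (P Q : ℕ → ℝ) : Prop where
  iP : P n1 = K0
  iQ : Q n1 = K0
  p1 : ∀ n, n1 ≤ n → HF t S β N n → P (n + 1) = max (P n) (2 * Q n)
  p0 : ∀ n, n1 ≤ n → ¬ HF t S β N n → P (n + 1) = P n
  q1 : ∀ n, n1 ≤ n → HG t S α N n → Q (n + 1) = max (Q n) (2 * P n)
  q0 : ∀ n, n1 ≤ n → ¬ HG t S α N n → Q (n + 1) = Q n

theorem exists_gapSeq (t : ℕ → Bool) (S : ℝ) (α β N : ℕ → ℝ) (n1 : ℕ) (K0 : ℝ) :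
    ∃ P Q : ℕ → ℝ, GapSeq t S α β N n1 K0 P Q := by
  classical
  let o : ℕ → ℝ × ℝ := fun k => Nat.rec (K0, K0) (fun k p =>
    (if HF t S β N (n1 + k) then max p.1 (2 * p.2) else p.1,
      if HG t S α N (n1 + k) then max p.2 (2 * p.1) else p.2)) k
  have ho : ∀ k, o (k + 1) =
    (if HF t S β N (n1 + k) then max (o k).1 (2 * (o k).2) else (o k).1,
      if HG t S α N (n1 + k) then max (o k).2 (2 * (o k).1) else (o k).2) := fun k => rfl
  have ho0 : o 0 = (K0, K0) := rfl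
  refine ⟨fun n => (o (n - n1)).1, fun n => (o (n - n1)).2, ?_, ?_, ?_, ?_, ?_, ?_⟩
  · simp [ho0]
  · simp [ho0]
  all_goals
    intro n hn
    obtain ⟨k, rfl⟩ := Nat.exists_eq_add_of_le hn
    have e1 : n1 + k + 1 - n1 = k + 1 := by omega
    have e2 : n1 + k - n1 = k := by omega
    intro hh
    simp only [e1, e2, ho, hh, if_true, if_false]

theorem GapSeq.nonneg {n1 : ℕ} {K0 : ℝ} {P Q : ℕ → ℝ} (G : GapSeq t S α β N n1 K0 P Q)
    (hK : 0 ≤ K0) {n : ℕ} (hn : n1 ≤ n) : 0 ≤ P n ∧ 0 ≤ Q n := by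
  induction n, hn using Nat.le_induction with
  | base => rw [G.iP, G.iQ]; exact ⟨hK, hK⟩
  | succ k hk ih =>
    obtain ⟨i1, i2⟩ := ih
    constructor
    · by_cases hF : HF t S β N k
      · rw [G.p1 k hk hF]; exact le_max_of_le_left i1
      · rw [G.p0 k hk hF]; exact i1
    · by_cases hG : HG t S α N k
      · rw [G.q1 k hk hG]; exact le_max_of_le_left i2
      · rw [G.q0 k hk hG]; exact i2

theorem GapSeq.mono {n1 : ℕ} {K0 : ℝ} {P Q : ℕ → ℝ} (G : GapSeq t S α β N n1 K0 P Q)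
    {n : ℕ} (hn : n1 ≤ n) : P n ≤ P (n + 1) ∧ Q n ≤ Q (n + 1) := by
  constructor
  · by_cases hF : HF t S β N n
    · rw [G.p1 n hn hF]; exact le_max_left _ _
    · rw [G.p0 n hn hF]
  · by_cases hG : HG t S α N n
    · rw [G.q1 n hn hG]; exact le_max_left _ _
    · rw [G.q0 n hn hG]

/-- growth of gap sequences -/
theorem GapSeq.growth (T : Trop t x y S h 0 α β N) {n1 : ℕ} {K0 K : ℝ} {P Q : ℕ → ℝ}
    (G : GapSeq t S α β N n1 K0 P Q) (hK : 0 ≤ K) (hK0 : K0 ≤ K * N n1 ^ th)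
    {n : ℕ} (hn : n1 ≤ n) : P n ≤ 2 * K * N n ^ th ∧ Q n ≤ 2 * K * N n ^ th := by
  refine gap (HF := HF t S β N) (HG := HG t S α N) hK (fun n _ => ?_)
    (fun m n _ h2 => T.N_mono (Nat.zero_le _) h2) ?_ ?_
    (fun n hn hF => (G.p0 n hn hF).le) (fun n hn hF => (G.p1 n hn hF).le)
    (fun n hn hG => (G.q0 n hn hG).le) (fun n hn hG => (G.q1 n hn hG).le)
    (by rw [G.iP]; exact hK0) (by rw [G.iQ]; exact hK0) hn
  · have := T.N_ge (Nat.zero_le n); have := T.hpos; linarith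
  · intro m n _ h2 h3 h4
    exact T.star (Nat.zero_le _) h2.le h3.2 h4.2
  · intro m n _ h2 h3 h4
    exact T.swap.star (Nat.zero_le _) h2.le h3.2 h4.2

/-- the cut system preserves the regions -/
theorem reg_cut (U : Setup t a b c x y d M A C1 S h α β N) {n1 : ℕ} {K0 : ℝ} {P Q : ℕ → ℝ}
    (G : GapSeq t S α β N n1 K0 P Q) {n : ℕ} (hn : n1 ≤ n)
    {p : ℂ × ℂ} (hp : p ∈ reg C1 α β P Q n) :
    el (t n) (a n) (b n) (cut t S α β N c n) p ∈ reg C1 α β P Q (n + 1) := by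
  refine reg_step U (G.mono hn).1 (G.mono hn).2 (cut_norm U n) ?_ ?_ hp
  · intro ht
    by_cases hF : HF t S β N n
    · right
      rw [G.p1 n hn hF, U.T.F1 n (Nat.zero_le _) ht]
      have := le_max_right (P n) (2 * Q n)
      have := min_le_right (α n + x n) (2 * β n)
      linarith
    · left
      have hG : ¬ HG t S α N n := fun hG => by have := hG.1; rw [ht] at this; simp at this
      simp [cut, hF, hG]
  · intro ht
    by_cases hG : HG t S α N n
    · right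
      rw [G.q1 n hn hG, U.T.G2 n (Nat.zero_le _) ht]
      have := le_max_right (Q n) (2 * P n)
      have := min_le_right (β n + y n) (2 * α n)
      linarith
    · left
      have hF : ¬ HF t S β N n := fun hF => by have := hF.1; rw [ht] at this; simp at this
      simp [cut, hF, hG]

/-- the full system preserves the regions as long as the gaps are small -/
theorem reg_full (U : Setup t a b c x y d M A C1 S h α β N) {n1 : ℕ} {K0 : ℝ} {P Q : ℕ → ℝ}
    (G : GapSeq t S α β N n1 K0 P Q) (hK0 : 0 ≤ K0)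
    (hsm : ∀ n, n1 ≤ n → P n ≤ 0.0001 * N n ∧ Q n ≤ 0.0001 * N n)
    {n : ℕ} (hn : n1 ≤ n) {p : ℂ × ℂ} (hp : p ∈ reg C1 α β P Q n) :
    el (t n) (a n) (b n) (c n) p ∈ reg C1 α β P Q (n + 1) := by
  obtain ⟨s1, s2⟩ := hsm n hn
  obtain ⟨k1, k2⟩ := G.nonneg hK0 hn
  have a0 := U.T.add_le (Nat.zero_le n)
  have a1 := U.T.hS n
  have a2 := U.T.hx n
  have a3 := U.T.hy n
  have a4 := U.T.h0 n
  have a5 := U.T.N_ge (Nat.zero_le n)
  have a6 := U.T.hpos
  obtain ⟨m1, m2⟩ := G.mono hn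
  refine reg_step U m1 m2 (U.nc n) ?_ ?_ hp
  · intro ht
    right
    by_cases hF : HF t S β N n
    · rw [G.p1 n hn hF, U.T.F1 n (Nat.zero_le _) ht]
      have := le_max_right (P n) (2 * Q n)
      have := min_le_right (α n + x n) (2 * β n)
      linarith
    · have h1 : 1.002 * N n + S < 3 * β n := by
        by_contra hcon
        exact hF ⟨ht, not_lt.1 hcon⟩
      rw [U.T.F1 n (Nat.zero_le _) ht]
      have := min_le_left (α n + x n) (2 * β n)
      linarith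
  · intro ht
    right
    by_cases hG : HG t S α N n
    · rw [G.q1 n hn hG, U.T.G2 n (Nat.zero_le _) ht]
      have := le_max_right (Q n) (2 * P n)
      have := min_le_right (β n + y n) (2 * α n)
      linarith
    · have h1 : 1.002 * N n + S < 3 * α n := by
        by_contra hcon
        exact hG ⟨ht, not_lt.1 hcon⟩
      rw [U.T.G2 n (Nat.zero_le _) ht]
      have := min_le_left (β n + y n) (2 * α n)
      linarith

/-- norm of the Jacobian -/
theorem norm_jac (U : Setup t a b c x y d M A C1 S h α β N) (n k : ℕ) :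
    ‖∏ i ∈ Finset.range k, (a (n + i) * b (n + i))‖ =
      Real.exp (-(N (n + k) - N n) - k * (d / 500)) := by
  induction k with
  | zero => simp
  | succ k ih =>
    rw [Finset.prod_range_succ, norm_mul, ih, norm_mul, U.na, U.nb, ← Real.exp_add,
      ← Real.exp_add, show n + (k + 1) = n + k + 1 from rfl, U.T.stN (n + k) (Nat.zero_le _)]
    congr 1; push_cast; ring

theorem N_lin (U : Setup t a b c x y d M A C1 S h α β N) (n k : ℕ) :
    N n + k * (1.998 * d) ≤ N (n + k) := by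
  induction k with
  | zero => simp
  | succ k ih =>
    rw [show n + (k + 1) = n + k + 1 from rfl, U.T.stN (n + k) (Nat.zero_le _)]
    have := U.hd (n + k)
    push_cast; linarith

end

end Pool.Agent.TH238
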