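import Pool.Agent.TH238.T4Reg

set_option autoImplicit false

/-!
Gap sequences, local data and admissibility for automorphisms in normal form.
-/

namespace Pool.Agent.TH238

open Set Filter Topology Metric

/-- Gap sequences starting at time `n1` with value `K0`. -/
structure Gs (HF HG : ℕ → Prop) (n1 : ℕ) (K0 : ℝ) (P Q : ℕ → ℝ) : Prop where
  iP : P n1 = K0
  iQ : Q n1 = K0
  p1 : ∀ n, n1 ≤ n → HF n → P (n + 1) = max (P n) (3 * Q n)
  p0 : ∀ n, n1 ≤ n → ¬ HF n → P (n + 1) = P n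
  q1 : ∀ n, n1 ≤ n → HG n → Q (n + 1) = max (Q n) (3 * P n)
  q0 : ∀ n, n1 ≤ n → ¬ HG n → Q (n + 1) = Q n

theorem exists_Gs (HF HG : ℕ → Prop) (n1 : ℕ) (K0 : ℝ) :
    ∃ P Q : ℕ → ℝ, Gs HF HG n1 K0 P Q := by
  classical
  let o : ℕ → ℝ × ℝ := fun k => Nat.rec (K0, K0) (fun k p =>
    (if HF (n1 + k) then max p.1 (3 * p.2) else p.1,
      if HG (n1 + k) then max p.2 (3 * p.1) else p.2)) k
  have ho : ∀ k, o (k + 1) =
    (if HF (n1 + k) then max (o k).1 (3 * (o k).2) else (o k).1,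
      if HG (n1 + k) then max (o k).2 (3 * (o k).1) else (o k).2) := fun k => rfl
  have ho0 : o 0 = (K0, K0) := rfl
  refine ⟨fun n => (o (n - n1)).1, fun n => (o (n - n1)).2, ?_, ?_, ?_, ?_, ?_, ?_⟩
  · simp [ho0]
  · simp [ho0]
  all_goals
    intro n hn
    obtain ⟨k, rfl⟩ := Nat.exists_eq_add_of_le hn
    have e1 : n1 + k + 1 - n1 = k + 1 := by omega
    have e2 : n1 + k - n1 = k := by omega
    intro hh
    simp only [e1, e2, ho, hh, if_true, if_false]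

section gs

variable {HF HG : ℕ → Prop} {n1 : ℕ} {K0 : ℝ} {P Q : ℕ → ℝ}

theorem Gs.swap (G : Gs HF HG n1 K0 P Q) : Gs HG HF n1 K0 Q P :=
  ⟨G.iQ, G.iP, G.q1, G.q0, G.p1, G.p0⟩

theorem Gs.nonneg (G : Gs HF HG n1 K0 P Q)
    (hK : 0 ≤ K0) {n : ℕ} (hn : n1 ≤ n) : 0 ≤ P n ∧ 0 ≤ Q n := by
  induction n, hn using Nat.le_induction with
  | base => rw [G.iP, G.iQ]; exact ⟨hK, hK⟩
  | succ k hk ih =>
    obtain ⟨i1, i2⟩ := ih
    constructor
    · by_cases hF : HF k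
      · rw [G.p1 k hk hF]; exact le_max_of_le_left i1
      · rw [G.p0 k hk hF]; exact i1
    · by_cases hG : HG k
      · rw [G.q1 k hk hG]; exact le_max_of_le_left i2
      · rw [G.q0 k hk hG]; exact i2

theorem Gs.mono (G : Gs HF HG n1 K0 P Q) {n : ℕ} (hn : n1 ≤ n) : P n ≤ P (n + 1) := by
  by_cases hF : HF n
  · rw [G.p1 n hn hF]; exact le_max_left _ _
  · rw [G.p0 n hn hF]

end gs

section

variable {f fi : ℕ → ℂ × ℂ → ℂ × ℂ} {a b c2 c3 e2 e3 : ℕ → ℂ} {M r0 : ℝ}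
  {x y : ℕ → ℝ} {c d e0 C1 S h : ℝ} {α β N : ℕ → ℝ}

theorem Tro.Hm_excl (T : Tro x y c S h 0 α β N) {n : ℕ} (h1 : Hm c S β N n) :
    ¬ Hm c S α N n := by
  intro h2
  obtain ⟨a1, a2⟩ := T.harm (Nat.zero_le n) h1
  obtain ⟨b1, b2⟩ := T.swap.harm (Nat.zero_le n) h2
  linarith

/-- growth of gap sequences -/
theorem Gs.growth (T : Tro x y c S h 0 α β N) {n1 : ℕ} {K0 K : ℝ} {P Q : ℕ → ℝ}
    (G : Gs (Hm c S β N) (Hm c S α N) n1 K0 P Q) (hK : 0 ≤ K)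
    (hK0 : K0 ≤ K * (0.03 * N n1) ^ th4) {n : ℕ} (hn : n1 ≤ n) :
    P n ≤ K * (7 * N n) ^ th4 ∧ Q n ≤ K * (7 * N n) ^ th4 := by
  have h03 : 0 ≤ 0.03 * N n1 := by
    have := T.N_pos (Nat.zero_le n1); positivity
  have key := gap4 (P := P) (Q := Q) (cP := Tro.cp α β N) (cQ := Tro.cp β α N)
    (HF := Hm c S β N) (HG := Hm c S α N) (n1 := n1) (K := K) hK
    (fun n _ => T.cp_pos (Nat.zero_le _)) (fun n _ => T.swap.cp_pos (Nat.zero_le _))
    (fun n _ => T.cp_mono (Nat.zero_le _)) (fun n _ => T.swap.cp_mono (Nat.zero_le _))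
    (fun n _ hh => by
      obtain ⟨h4, h5⟩ := T.harm_cp (Nat.zero_le n) hh
      rw [h4, h5]
      exact le_of_eq (by ring))
    (fun n _ hh => by
      obtain ⟨h4, h5⟩ := T.swap.harm_cp (Nat.zero_le n) hh
      rw [h4, h5]
      exact le_of_eq (by ring))
    (fun n hn hF => (G.p0 n hn hF).le) (fun n hn hF => (G.p1 n hn hF).le)
    (fun n hn hG => (G.q0 n hn hG).le) (fun n hn hG => (G.q1 n hn hG).le)
    (by
      rw [G.iP]
      refine hK0.trans (mul_le_mul_of_nonneg_left ?_ hK)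
      exact Real.rpow_le_rpow h03 (T.cp_lower (Nat.zero_le _)) th4_pos.le)
    (by
      rw [G.iQ]
      refine hK0.trans (mul_le_mul_of_nonneg_left ?_ hK)
      exact Real.rpow_le_rpow h03 (T.swap.cp_lower (Nat.zero_le _)) th4_pos.le) hn
  constructor
  · refine key.1.trans (mul_le_mul_of_nonneg_left ?_ hK)
    exact Real.rpow_le_rpow (T.cp_pos (Nat.zero_le _)).le (T.cp_upper (Nat.zero_le _)) th4_pos.le
  · refine key.2.trans (mul_le_mul_of_nonneg_left ?_ hK)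
    exact Real.rpow_le_rpow (T.swap.cp_pos (Nat.zero_le _)).le
      (T.swap.cp_upper (Nat.zero_le _)) th4_pos.le

/-- radii -/
noncomputable def rad (C1 : ℝ) (α P : ℕ → ℝ) (n : ℕ) : ℝ := Real.exp (-C1 - (α n - P n))

theorem rad_pos (C1 : ℝ) (α P : ℕ → ℝ) (n : ℕ) : 0 < rad C1 α P n := Real.exp_pos _

theorem gcut_box (U : Set4 f fi a b c2 c3 e2 e3 M r0 x y c d e0 C1 S h α β N)
    {n1 : ℕ} {K0 : ℝ} {P Q : ℕ → ℝ} (G : Gs (Hm c S β N) (Hm c S α N) n1 K0 P Q)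
    (hK0 : 0 ≤ K0) {n : ℕ} (hn : n1 ≤ n) {p : ℂ × ℂ}
    (h1 : ‖p.1‖ ≤ rad C1 α P n) (h2 : ‖p.2‖ ≤ rad C1 β Q n) :
    ‖(gcut a b c2 c3 e2 e3 c S α β N n p).1‖ ≤ rad C1 α P (n + 1) ∧
    ‖(gcut a b c2 c3 e2 e3 c S α β N n p).2‖ ≤ rad C1 β Q (n + 1) := by
  obtain ⟨k1, k2⟩ := G.nonneg hK0 hn
  have m1 := G.mono hn
  have m2 := G.swap.mono hn
  obtain ⟨a1, a2, a3⟩ := U.T.le_succ (Nat.zero_le n)
  obtain ⟨b1, b2, b3⟩ := U.T.swap.le_succ (Nat.zero_le n)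
  obtain ⟨d1, d2, _, _⟩ := U.T.cone (Nat.zero_le n)
  have hp := U.T.hpos
  have x1 := U.T.xS n
  have y1 := U.T.yS n
  have hSp := U.T.hSpos
  unfold rad at h1 h2 ⊢
  have he := U.epos.le
  unfold gcut
  by_cases hF : Hm c S β N n
  · rw [if_pos hF]
    have hP := G.p1 n hn hF
    have := le_max_right (P n) (3 * Q n)
    refine ⟨?_, ?_⟩
    · exact size2 (U.na n) U.F.M0 (U.F.bc2 n) (U.F.bc3 n) U.C0 U.hC h1 h2
        (by linarith) (by linarith) (by linarith)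
    · show ‖b n * p.2 + (0 * p.1 ^ 2 + 0 * p.1 ^ 3)‖ ≤ _
      rw [zero_mul, zero_mul, add_zero, add_zero]
      exact size3 (U.nb n) he h2 (by linarith)
  · rw [if_neg hF]
    by_cases hG : Hm c S α N n
    · rw [if_pos hG]
      have hQ := G.q1 n hn hG
      have := le_max_right (Q n) (3 * P n)
      refine ⟨?_, ?_⟩
      · show ‖a n * p.1 + (0 * p.2 ^ 2 + 0 * p.2 ^ 3)‖ ≤ _
        rw [zero_mul, zero_mul, add_zero, add_zero]
        exact size3 (U.na n) he h1 (by linarith)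
      · exact size2 (U.nb n) U.F.M0 (U.F.be2 n) (U.F.be3 n) U.C0 U.hC h2 h1
          (by linarith) (by linarith) (by linarith)
    · rw [if_neg hG]
      refine ⟨?_, ?_⟩
      · show ‖a n * p.1 + (0 * p.2 ^ 2 + 0 * p.2 ^ 3)‖ ≤ _
        rw [zero_mul, zero_mul, add_zero, add_zero]
        exact size3 (U.na n) he h1 (by linarith)
      · show ‖b n * p.2 + (0 * p.1 ^ 2 + 0 * p.1 ^ 3)‖ ≤ _
        rw [zero_mul, zero_mul, add_zero, add_zero]
        exact size3 (U.nb n) he h2 (by linarith)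

/-- the half of the invariance of the boxes under the full system -/
theorem f_box_aux (T : Tro x y c S h 0 α β N)
    {n1 : ℕ} {K0 : ℝ} {P Q : ℕ → ℝ} (G : Gs (Hm c S β N) (Hm c S α N) n1 K0 P Q)
    (hK0 : 0 ≤ K0) {n : ℕ} (hn : n1 ≤ n) (hsm : Q n ≤ 0.01 * c * N n) :
    α (n + 1) - P (n + 1) ≤ 2 * (β n - Q n) + 2 * S := by
  obtain ⟨k1, k2⟩ := G.nonneg hK0 hn
  have m1 := G.mono hn
  obtain ⟨a1, a2, a3⟩ := T.le_succ (Nat.zero_le n)
  obtain ⟨b1, b2, b3⟩ := T.swap.le_succ (Nat.zero_le n)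
  have y1 := T.yS n
  have hN := T.N_pos (Nat.zero_le n)
  have hcN : 0 < c * N n := mul_pos T.c0 hN
  have hSp := T.hSpos
  by_cases hF : Hm c S β N n
  · have hP := G.p1 n hn hF
    have := le_max_right (P n) (3 * Q n)
    linarith
  · have hβ : (1 + c) * N n + S < 3 * β n := not_le.1 hF
    have h1 := T.add_le (Nat.zero_le (n + 1))
    rw [T.stN n (Nat.zero_le _)] at h1
    have h2 := T.hS n
    linarith

theorem f_box (U : Set4 f fi a b c2 c3 e2 e3 M r0 x y c d e0 C1 S h α β N)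
    {n1 : ℕ} {K0 : ℝ} {P Q : ℕ → ℝ} (G : Gs (Hm c S β N) (Hm c S α N) n1 K0 P Q)
    (hK0 : 0 ≤ K0) {n : ℕ} (hn : n1 ≤ n)
    (hsm : P n ≤ 0.01 * c * N n ∧ Q n ≤ 0.01 * c * N n) {p : ℂ × ℂ}
    (h1 : ‖p.1‖ ≤ rad C1 α P n) (h2 : ‖p.2‖ ≤ rad C1 β Q n) :
    ‖(f n p).1‖ ≤ rad C1 α P (n + 1) ∧ ‖(f n p).2‖ ≤ rad C1 β Q (n + 1) := by
  have m1 := G.mono hn
  have m2 := G.swap.mono hn
  obtain ⟨a1, a2, a3⟩ := U.T.le_succ (Nat.zero_le n)
  obtain ⟨b1, b2, b3⟩ := U.T.swap.le_succ (Nat.zero_le n)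
  obtain ⟨g1, g2⟩ := U.T.ge5 (Nat.zero_le n)
  have hN := U.T.N_pos (Nat.zero_le n)
  have hc1 := U.T.c1
  have hcN : c * N n ≤ 0.001 * N n := mul_le_mul_of_nonneg_right hc1 hN.le
  obtain ⟨s1, s2⟩ := hsm
  have u0 : 0 ≤ α n - P n := by linarith
  have v0 : 0 ≤ β n - Q n := by linarith
  have hp1 : ‖p.1‖ ≤ r0 := h1.trans ((Real.exp_le_exp.2 (by linarith)).trans U.Cr)
  have hp2 : ‖p.2‖ ≤ r0 := h2.trans ((Real.exp_le_exp.2 (by linarith)).trans U.Cr)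
  have k1 := f_box_aux U.T G hK0 hn s2
  have k2 := f_box_aux U.T.swap G.swap hK0 hn s1
  unfold rad at h1 h2 ⊢
  exact ⟨size1 (U.na n) U.F.M0 (U.F.bc2 n) (U.F.bc3 n) (U.F.nf1 n p hp1 hp2) (U.T.xS n)
      U.T.hSpos.le U.C0 U.hC h1 h2 u0 v0 (by linarith) k1,
    size1 (U.nb n) U.F.M0 (U.F.be2 n) (U.F.be3 n) (U.F.nf2 n p hp1 hp2) (U.T.yS n)
      U.T.hSpos.le U.C0 U.hC h2 h1 v0 u0 (by linarith) k2⟩

theorem f_det (U : Set4 f fi a b c2 c3 e2 e3 M r0 x y c d e0 C1 S h α β N) (n : ℕ)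
    {p : ℂ × ℂ} (h1 : ‖p.1‖ ≤ Real.exp (-C1)) (h2 : ‖p.2‖ ≤ Real.exp (-C1)) :
    Real.exp (-(x n + y n) - 3 * e0) ≤ ‖det2 (fderiv ℂ (f n) p)‖ := by
  have h3 := U.F.det n p (h1.trans U.Cr) (h2.trans U.Cr)
  have hab : ‖a n * b n‖ = Real.exp (-(x n + y n) - 2 * e0) := by
    rw [norm_mul, U.na, U.nb, ← Real.exp_add]; congr 1; ring
  have h4 : M * (‖p.1‖ + ‖p.2‖) ≤ ‖a n * b n‖ * (1 - Real.exp (-e0)) := by
    calc M * (‖p.1‖ + ‖p.2‖) ≤ M * (Real.exp (-C1) + Real.exp (-C1)) :=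
          mul_le_mul_of_nonneg_left (add_le_add h1 h2) U.F.M0
      _ = 2 * M * Real.exp (-C1) := by ring
      _ ≤ _ := U.hJ
      _ ≤ _ := by
          rw [hab]
          apply mul_le_mul_of_nonneg_right
          · apply Real.exp_le_exp.2
            have := U.T.hS n
            linarith
          · have : Real.exp (-e0) ≤ 1 := Real.exp_le_one_iff.2 (by linarith [U.epos])
            linarith
  have h5 : ‖a n * b n‖ ≤ ‖det2 (fderiv ℂ (f n) p)‖ +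
      ‖det2 (fderiv ℂ (f n) p) - a n * b n‖ := by
    have := norm_sub_le (det2 (fderiv ℂ (f n) p)) (det2 (fderiv ℂ (f n) p) - a n * b n)
    rwa [sub_sub_cancel] at this
  have h6 : Real.exp (-(x n + y n) - 3 * e0) = ‖a n * b n‖ * Real.exp (-e0) := by
    rw [hab, ← Real.exp_add]; congr 1; ring
  rw [h6]
  linarith

theorem gcut_det (U : Set4 f fi a b c2 c3 e2 e3 M r0 x y c d e0 C1 S h α β N) (n : ℕ)
    (p : ℂ × ℂ) :
    Real.exp (-(x n + y n) - 3 * e0) ≤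
      ‖det2 (fderiv ℂ (gcut a b c2 c3 e2 e3 c S α β N n) p)‖ := by
  have hab : ‖a n * b n‖ = Real.exp (-(x n + y n) - 2 * e0) := by
    rw [norm_mul, U.na, U.nb, ← Real.exp_add]; congr 1; ring
  have h1 : det2 (fderiv ℂ (gcut a b c2 c3 e2 e3 c S α β N n) p) = a n * b n := by
    unfold gcut
    split_ifs <;> rw [gmap_det] <;> ring
  rw [h1, hab]
  exact Real.exp_le_exp.2 (by linarith [U.epos])

theorem N_lin4 (U : Set4 f fi a b c2 c3 e2 e3 M r0 x y c d e0 C1 S h α β N) (n k : ℕ) :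
    N n + k * (1.9 * d) ≤ N (n + k) := by
  induction k with
  | zero => simp
  | succ k ih =>
    rw [show n + (k + 1) = n + k + 1 from rfl, U.T.stN (n + k) (Nat.zero_le _)]
    have := U.hd (n + k)
    push_cast; linarith

theorem Set4.N_tendsto (U : Set4 f fi a b c2 c3 e2 e3 M r0 x y c d e0 C1 S h α β N) :
    Tendsto N atTop atTop := by
  have h1 : Tendsto (fun n : ℕ => (n : ℝ) * (1.9 * d)) atTop atTop :=
    tendsto_natCast_atTop_atTop.atTop_mul_const (by have := U.dpos; positivity)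
  refine tendsto_atTop_mono (fun n => ?_) h1
  have h2 := N_lin4 U 0 n
  rw [zero_add] at h2
  have h3 := U.T.N_pos le_rfl
  linarith

theorem gcut_diff (n : ℕ) : Differentiable ℂ (gcut a b c2 c3 e2 e3 c S α β N n) := by
  unfold gcut; split_ifs <;> exact gmap_diff _ _ _ _ _ _

theorem gcuti_diff (n : ℕ) : Differentiable ℂ (gcuti a b c2 c3 e2 e3 c S α β N n) := by
  unfold gcuti; split_ifs
  · exact ginv1_diff _ _ _ _
  · exact ginv2_diff _ _ _ _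
  · exact ginv2_diff _ _ _ _

theorem Set4.ane (U : Set4 f fi a b c2 c3 e2 e3 M r0 x y c d e0 C1 S h α β N) (n : ℕ) :
    a n ≠ 0 := by
  rw [← norm_pos_iff, U.na]; exact Real.exp_pos _

theorem Set4.bne (U : Set4 f fi a b c2 c3 e2 e3 M r0 x y c d e0 C1 S h α β N) (n : ℕ) :
    b n ≠ 0 := by
  rw [← norm_pos_iff, U.nb]; exact Real.exp_pos _

theorem gcuti_gcut (U : Set4 f fi a b c2 c3 e2 e3 M r0 x y c d e0 C1 S h α β N) (n : ℕ)
    (p : ℂ × ℂ) : gcuti a b c2 c3 e2 e3 c S α β N n (gcut a b c2 c3 e2 e3 c S α β N n p) = p := by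
  unfold gcut gcuti; split_ifs
  · exact ginv1_gmap (U.ane n) (U.bne n) _ _ _
  · exact ginv2_gmap (U.ane n) (U.bne n) _ _ _
  · exact ginv2_gmap (U.ane n) (U.bne n) _ _ _

theorem gcut_gcuti (U : Set4 f fi a b c2 c3 e2 e3 M r0 x y c d e0 C1 S h α β N) (n : ℕ)
    (p : ℂ × ℂ) : gcut a b c2 c3 e2 e3 c S α β N n (gcuti a b c2 c3 e2 e3 c S α β N n p) = p := by
  unfold gcut gcuti; split_ifs
  · exact gmap_ginv1 (U.ane n) (U.bne n) _ _ _
  · exact gmap_ginv2 (U.ane n) (U.bne n) _ _ _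
  · exact gmap_ginv2 (U.ane n) (U.bne n) _ _ _

/-- the difference of the two systems -/
theorem diff4 (U : Set4 f fi a b c2 c3 e2 e3 M r0 x y c d e0 C1 S h α β N)
    {n1 : ℕ} {K0 : ℝ} {P Q : ℕ → ℝ} (G : Gs (Hm c S β N) (Hm c S α N) n1 K0 P Q)
    (hK0 : 0 ≤ K0)
    (hsm : ∀ n, n1 ≤ n → P n ≤ 0.01 * c * N n ∧ Q n ≤ 0.01 * c * N n)
    {n : ℕ} (hn : n1 ≤ n) {p : ℂ × ℂ}
    (h1 : ‖p.1‖ ≤ rad C1 α P n) (h2 : ‖p.2‖ ≤ rad C1 β Q n) :
    2 * (rad C1 β Q (n + 1) * ‖(f n p).1 - (gcut a b c2 c3 e2 e3 c S α β N n p).1‖ +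
      rad C1 α P (n + 1) * ‖(f n p).2 - (gcut a b c2 c3 e2 e3 c S α β N n p).2‖) ≤
      28 * M * Real.exp (-3 * C1 + 5 * (0.02 * c * N n) - (1 + c) * N n) := by
  have hM := U.F.M0
  have hC0 := U.C0
  obtain ⟨k1, k2⟩ := G.nonneg hK0 hn
  obtain ⟨a1, a2, a3⟩ := U.T.le_succ (Nat.zero_le n)
  obtain ⟨b1, b2, b3⟩ := U.T.swap.le_succ (Nat.zero_le n)
  obtain ⟨g1, g2⟩ := U.T.ge5 (Nat.zero_le n)
  obtain ⟨v1, v2⟩ := U.T.ge_nu (Nat.zero_le n)
  obtain ⟨w1, w2⟩ := U.T.sum31 (Nat.zero_le n)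
  have hN := U.T.N_pos (Nat.zero_le n)
  have hNS : S ≤ N n := by
    have e1 := U.T.N_ge (Nat.zero_le n); have e2 := U.T.hh; have e3 := U.T.hSpos
    linarith
  have hc0 := U.T.c0
  have hc1 := U.T.c1
  have hcN0 : 0 < c * N n := mul_pos hc0 hN
  have hcN : c * N n ≤ 0.001 * N n := mul_le_mul_of_nonneg_right hc1 hN.le
  have hcS : c * S ≤ c * N n := mul_le_mul_of_nonneg_left hNS hc0.le
  obtain ⟨s1, s2⟩ := hsm n hn
  obtain ⟨s3, s4⟩ := hsm (n + 1) (by omega)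
  have hst := U.T.stN n (Nat.zero_le _)
  have hs := U.T.hS n
  have hcs : c * (x n + y n) ≤ c * S := mul_le_mul_of_nonneg_left hs hc0.le
  have s5 : P (n + 1) ≤ 0.02 * c * N n := by
    have : c * N (n + 1) = c * N n + c * (x n + y n) := by rw [hst]; ring
    linarith
  have s6 : Q (n + 1) ≤ 0.02 * c * N n := by
    have : c * N (n + 1) = c * N n + c * (x n + y n) := by rw [hst]; ring
    linarith
  set E : ℝ := 0.02 * c * N n with hE
  have hE0 : 0 ≤ E := by positivity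
  have z1 : ‖p.1‖ ≤ Real.exp (-C1 - α n + E) := h1.trans (Real.exp_le_exp.2 (by linarith))
  have z2 : ‖p.2‖ ≤ Real.exp (-C1 - β n + E) := h2.trans (Real.exp_le_exp.2 (by linarith))
  have W1 : rad C1 α P (n + 1) ≤ Real.exp (-C1 - α n + E) := Real.exp_le_exp.2 (by linarith)
  have W2 : rad C1 β Q (n + 1) ≤ Real.exp (-C1 - β n + E) := Real.exp_le_exp.2 (by linarith)
  have hp1 : ‖p.1‖ ≤ r0 := h1.trans ((Real.exp_le_exp.2 (by linarith)).trans U.Cr)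
  have hp2 : ‖p.2‖ ≤ r0 := h2.trans ((Real.exp_le_exp.2 (by linarith)).trans U.Cr)
  have n1' := U.F.nf1 n p hp1 hp2
  have n2' := U.F.nf2 n p hp1 hp2
  have r1 := rad_pos C1 α P (n + 1)
  have r2 := rad_pos C1 β Q (n + 1)
  set X := Real.exp (-3 * C1 + 5 * E - (1 + c) * N n) with hX
  have X0 : 0 < X := Real.exp_pos _
  have H1 : rad C1 β Q (n + 1) * ‖(f n p).1 -
      (a n * p.1 + (c2 n * p.2 ^ 2 + c3 n * p.2 ^ 3))‖ ≤ 5 * M * X := by
    refine (mul_le_mul_of_nonneg_left n1' r2.le).trans ?_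
    exact harmless hM hC0 hE0 W2 z1 z2 (by linarith) (by linarith) (by linarith)
  have H2 : rad C1 α P (n + 1) * ‖(f n p).2 -
      (b n * p.2 + (e2 n * p.1 ^ 2 + e3 n * p.1 ^ 3))‖ ≤ 5 * M * X := by
    refine (mul_le_mul_of_nonneg_left n2' r1.le).trans ?_
    exact harmless hM hC0 hE0 W1 z2 z1 (by linarith) (by linarith) (by linarith)
  have H3 : ¬ Hm c S β N n → rad C1 β Q (n + 1) * ‖(f n p).1 - a n * p.1‖ ≤ 7 * M * X := by
    intro hF
    have hβ : (1 + c) * N n + S < 3 * β n := not_le.1 hF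
    have h3 := harmless2 (c := c) (N := N n) hM hC0 hE0 W2 (U.F.bc2 n) (U.F.bc3 n) z2
      (by linarith) (by have := U.T.hSpos; linarith)
    have h4 : ‖(f n p).1 - a n * p.1‖ ≤
        ‖(f n p).1 - (a n * p.1 + (c2 n * p.2 ^ 2 + c3 n * p.2 ^ 3))‖ +
        ‖c2 n * p.2 ^ 2 + c3 n * p.2 ^ 3‖ := by
      have := norm_add_le ((f n p).1 - (a n * p.1 + (c2 n * p.2 ^ 2 + c3 n * p.2 ^ 3)))
        (c2 n * p.2 ^ 2 + c3 n * p.2 ^ 3)
      refine le_trans (le_of_eq ?_) this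
      congr 1; ring
    have h5 := mul_le_mul_of_nonneg_left h4 r2.le
    rw [mul_add] at h5
    linarith
  have H4 : ¬ Hm c S α N n → rad C1 α P (n + 1) * ‖(f n p).2 - b n * p.2‖ ≤ 7 * M * X := by
    intro hG
    have hα : (1 + c) * N n + S < 3 * α n := not_le.1 hG
    have h3 := harmless2 (c := c) (N := N n) hM hC0 hE0 W1 (U.F.be2 n) (U.F.be3 n) z1
      (by linarith) (by have := U.T.hSpos; linarith)
    have h4 : ‖(f n p).2 - b n * p.2‖ ≤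
        ‖(f n p).2 - (b n * p.2 + (e2 n * p.1 ^ 2 + e3 n * p.1 ^ 3))‖ +
        ‖e2 n * p.1 ^ 2 + e3 n * p.1 ^ 3‖ := by
      have := norm_add_le ((f n p).2 - (b n * p.2 + (e2 n * p.1 ^ 2 + e3 n * p.1 ^ 3)))
        (e2 n * p.1 ^ 2 + e3 n * p.1 ^ 3)
      refine le_trans (le_of_eq ?_) this
      congr 1; ring
    have h5 := mul_le_mul_of_nonneg_left h4 r1.le
    rw [mul_add] at h5
    linarith
  have hMX : 0 ≤ M * X := by positivity
  by_cases hF : Hm c S β N n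
  · have hG := U.T.Hm_excl hF
    have e1 : gcut a b c2 c3 e2 e3 c S α β N n p =
        (a n * p.1 + (c2 n * p.2 ^ 2 + c3 n * p.2 ^ 3), b n * p.2) := by
      simp [gcut, hF, gmap]
    rw [e1]
    have := H4 hG
    linarith
  · by_cases hG : Hm c S α N n
    · have e1 : gcut a b c2 c3 e2 e3 c S α β N n p =
          (a n * p.1, b n * p.2 + (e2 n * p.1 ^ 2 + e3 n * p.1 ^ 3)) := by
        simp [gcut, hF, hG, gmap]
      rw [e1]
      have := H3 hF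
      linarith
    · have e1 : gcut a b c2 c3 e2 e3 c S α β N n p = (a n * p.1, b n * p.2) := by
        simp [gcut, hF, hG, gmap]
      rw [e1]
      have := H3 hF
      have := H4 hG
      linarith

end

end Pool.Agent.TH238
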