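import Pool.Agent.TH238.T4Adm

set_option autoImplicit false

/-!
The basin theorem for automorphisms in normal form.
-/

namespace Pool.Agent.TH238

open Set Filter Topology Metric

section

variable {f fi : ℕ → ℂ × ℂ → ℂ × ℂ} {a b c2 c3 e2 e3 : ℕ → ℂ} {M r0 : ℝ}
  {x y : ℕ → ℝ} {c d e0 C1 S h : ℝ} {α β N : ℕ → ℝ}

/-- lower bound for the determinants -/
noncomputable def JJ (N : ℕ → ℝ) (e0 : ℝ) (n1 k : ℕ) : ℝ :=
  Real.exp (-(N (n1 + k) - N n1) - k * (3 * e0))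

theorem jac_lower {F : ℕ → ℂ × ℂ → ℂ × ℂ} (T : Tro x y c S h 0 α β N)
    (dF : ∀ n, Differentiable ℂ (F n)) (n1 : ℕ) (p : ℂ × ℂ)
    (hd : ∀ k, Real.exp (-(x (n1 + k) + y (n1 + k)) - 3 * e0) ≤
      ‖det2 (fderiv ℂ (F (n1 + k)) (fwd F n1 k p))‖) (k : ℕ) :
    JJ N e0 n1 k ≤ ‖det2 (fderiv ℂ (fwd F n1 k) p)‖ := by
  unfold JJ
  induction k with
  | zero =>
    have : fwd F n1 0 = fun p => p := rfl
    rw [this, fderiv_fun_id, det2_id]; simp
  | succ k ih =>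
    rw [fwd_det_succ dF, norm_mul]
    have h1 : Real.exp (-(N (n1 + (k + 1)) - N n1) - ((k + 1 : ℕ) : ℝ) * (3 * e0)) =
        Real.exp (-(x (n1 + k) + y (n1 + k)) - 3 * e0) *
          Real.exp (-(N (n1 + k) - N n1) - k * (3 * e0)) := by
      rw [← Real.exp_add, show n1 + (k + 1) = n1 + k + 1 from rfl,
        T.stN (n1 + k) (Nat.zero_le _)]
      congr 1; push_cast; ring
    rw [h1]
    exact mul_le_mul (hd k) ih (Real.exp_pos _).le (norm_nonneg _)

theorem rad_tendsto (U : Set4 f fi a b c2 c3 e2 e3 M r0 x y c d e0 C1 S h α β N)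
    {n1 : ℕ} {P γ : ℕ → ℝ} (hα : ∀ n, N n ≤ 5 * γ n)
    (hsm : ∀ n, n1 ≤ n → P n ≤ 0.01 * c * N n) : Tendsto (rad C1 γ P) atTop (𝓝 0) := by
  have h1 : Tendsto (fun n => Real.exp (-(0.1 * N n))) atTop (𝓝 0) := by
    apply Real.tendsto_exp_neg_atTop_nhds_zero.comp
    exact U.N_tendsto.const_mul_atTop (by norm_num)
  refine squeeze_zero' (Eventually.of_forall fun n => (rad_pos _ _ _ n).le) ?_ h1
  filter_upwards [eventually_ge_atTop n1] with n hn
  apply Real.exp_le_exp.2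
  have h2 := hα n
  have h3 := hsm n hn
  have hN := U.T.N_pos (Nat.zero_le n)
  have hcN : c * N n ≤ 0.001 * N n := mul_le_mul_of_nonneg_right U.T.c1 hN.le
  have h4 := U.C0
  linarith

/-- local data exist at all large times -/
theorem exists_LocD (U : Set4 f fi a b c2 c3 e2 e3 M r0 x y c d e0 C1 S h α β N) {K : ℝ}
    (hK : 0 ≤ K) :
    ∃ n2, ∀ n1, n2 ≤ n1 → ∃ (P Q : ℕ → ℝ) (A q : ℝ), P n1 = K * N n1 ^ th4 ∧
      Q n1 = K * N n1 ^ th4 ∧
      LocD f fi (gcut a b c2 c3 e2 e3 c S α β N) (gcuti a b c2 c3 e2 e3 c S α β N) n1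
        (rad C1 α P) (rad C1 β Q) (JJ N e0 n1) A q := by
  have hc0 := U.T.c0
  have hc1 := U.T.c1
  have hd := U.dpos
  -- growth constant
  set K' : ℝ := K / 0.03 ^ th4 with hK'
  have h03 : (0 : ℝ) < 0.03 ^ th4 := Real.rpow_pos_of_pos (by norm_num) _
  have hK'nn : 0 ≤ K' := div_nonneg hK h03.le
  obtain ⟨R, hR, hR2⟩ := th4_small (K := K' * 7 ^ th4) (e := 0.01 * c) (by positivity)
  set q : ℝ := Real.exp (-(1.5 * c * d)) with hq
  have hq0 : 0 < q := Real.exp_pos _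
  have hq1 : q < 1 := by
    rw [hq, Real.exp_lt_one_iff]
    have : 0 < c * d := mul_pos hc0 hd
    linarith
  have e1 : Tendsto (fun n => 2 * Real.exp (-(0.8 * c * N n)) / (1 - q)) atTop (𝓝 0) := by
    have h1 : Tendsto (fun n => Real.exp (-(0.8 * c * N n))) atTop (𝓝 0) := by
      apply Real.tendsto_exp_neg_atTop_nhds_zero.comp
      exact U.N_tendsto.const_mul_atTop (by positivity)
    simpa using (h1.const_mul 2).div_const (1 - q)
  have e2 := (tendsto_order.1 e1).2 (1 / 8) (by norm_num)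
  obtain ⟨n2, hn2⟩ := (e2.and (U.N_tendsto.eventually_ge_atTop R)).exists_forall_of_atTop
  refine ⟨n2, fun n1 hn1 => ?_⟩
  obtain ⟨h1, h2⟩ := hn2 n1 hn1
  have hNp : ∀ n, 0 < N n := fun n => U.T.N_pos (Nat.zero_le n)
  obtain ⟨P, Q, G⟩ := exists_Gs (Hm c S β N) (Hm c S α N) n1 (K * N n1 ^ th4)
  have hK0 : 0 ≤ K * N n1 ^ th4 := mul_nonneg hK (Real.rpow_nonneg (hNp n1).le _)
  have hsm : ∀ n, n1 ≤ n → P n ≤ 0.01 * c * N n ∧ Q n ≤ 0.01 * c * N n := by
    intro n hn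
    have hKK : K * N n1 ^ th4 ≤ K' * (0.03 * N n1) ^ th4 := by
      rw [Real.mul_rpow (by norm_num) (hNp n1).le, hK']
      apply le_of_eq
      field_simp
    obtain ⟨g1, g2⟩ := G.growth U.T hK'nn hKK hn
    have g3 := hR2 (N n) (h2.trans (U.T.N_mono (Nat.zero_le _) hn))
    rw [Real.mul_rpow (by norm_num) (hNp n).le] at g1 g2
    constructor <;> linarith
  have hge : ∀ n, N n ≤ 5 * α n ∧ N n ≤ 5 * β n := fun n => U.T.ge5 (Nat.zero_le n)
  refine ⟨P, Q, 2 * Real.exp (-(0.8 * c * N n1)), q, G.iP, G.iQ, ?_⟩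
  have mf : ∀ n, n1 ≤ n → ∀ p : ℂ × ℂ, ‖p.1‖ ≤ rad C1 α P n → ‖p.2‖ ≤ rad C1 β Q n →
      ‖(f n p).1‖ ≤ rad C1 α P (n + 1) ∧ ‖(f n p).2‖ ≤ rad C1 β Q (n + 1) :=
    fun n hn p u1 u2 => f_box U G hK0 hn (hsm n hn) u1 u2
  have radle : ∀ n, n1 ≤ n → rad C1 α P n ≤ Real.exp (-C1) ∧
      rad C1 β Q n ≤ Real.exp (-C1) := by
    intro n hn
    obtain ⟨s1, s2⟩ := hsm n hn
    obtain ⟨s3, s4⟩ := hge n
    have hcN : c * N n ≤ 0.001 * N n := mul_le_mul_of_nonneg_right hc1 (hNp n).le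
    have := hNp n
    constructor <;> apply Real.exp_le_exp.2 <;> linarith
  refine
    { df := U.F.df
      dfi := U.F.dfi
      dg := gcut_diff
      dgi := gcuti_diff
      lf := U.F.lf
      rf := U.F.rf
      lg := gcuti_gcut U
      rg := gcut_gcuti U
      p1 := rad_pos _ _ _
      p2 := rad_pos _ _ _
      mf := mf
      mg := fun n hn p u1 u2 => gcut_box U G hK0 hn u1 u2
      Jp := fun k => Real.exp_pos _
      jf := ?_
      jg := ?_
      A0 := by positivity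
      q0 := hq0
      q1 := hq1
      sum := h1.le
      diff := ?_
      t1 := rad_tendsto U (fun n => (hge n).1) (fun n hn => (hsm n hn).1)
      t2 := rad_tendsto U (fun n => (hge n).2) (fun n hn => (hsm n hn).2) }
  · intro k p u1 u2
    refine jac_lower U.T U.F.df n1 p (fun k => ?_) k
    have hmem : ∀ k, ‖(fwd f n1 k p).1‖ ≤ rad C1 α P (n1 + k) ∧
        ‖(fwd f n1 k p).2‖ ≤ rad C1 β Q (n1 + k) := by
      intro k
      induction k with
      | zero => exact ⟨u1, u2⟩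
      | succ k ih => exact mf (n1 + k) (by omega) _ ih.1 ih.2
    obtain ⟨m1, m2⟩ := hmem k
    obtain ⟨l1, l2⟩ := radle (n1 + k) (by omega)
    exact f_det U (n1 + k) (m1.trans l1) (m2.trans l2)
  · intro k p u1 u2
    exact jac_lower U.T gcut_diff n1 p (fun k => gcut_det U (n1 + k) _) k
  · intro k p u1 u2
    have hdf := diff4 U G hK0 hsm (by omega : n1 ≤ n1 + k) u1 u2
    have hden : 0 < JJ N e0 n1 (k + 1) * (rad C1 α P n1 * rad C1 β Q n1) :=
      mul_pos (Real.exp_pos _) (mul_pos (rad_pos _ _ _ _) (rad_pos _ _ _ _))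
    rw [div_lt_iff₀ hden]
    refine lt_of_le_of_lt hdf ?_
    have hd2 : JJ N e0 n1 (k + 1) * (rad C1 α P n1 * rad C1 β Q n1) =
        Real.exp (-(N (n1 + k + 1) - N n1) - ((k + 1 : ℕ) : ℝ) * (3 * e0) +
          ((-C1 - (α n1 - P n1)) + (-C1 - (β n1 - Q n1)))) := by
      unfold JJ rad
      rw [← Real.exp_add, ← Real.exp_add]; rfl
    obtain ⟨z1, z2⟩ := G.nonneg hK0 le_rfl
    have ha := U.T.add_le (Nat.zero_le n1)
    have hst := U.T.stN (n1 + k) (Nat.zero_le _)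
    have hs := U.T.hS (n1 + k)
    have hl := N_lin4 U n1 k
    have hed := U.ed
    have hN1 := hNp n1
    have hN := hNp (n1 + k)
    have hkd : (k : ℝ) * (c * d) * 1.9 ≤ c * (N (n1 + k) - N n1) := by
      have := mul_le_mul_of_nonneg_left (show (k : ℝ) * (1.9 * d) ≤ N (n1 + k) - N n1 by
        linarith) hc0.le
      linarith
    have hke : (k : ℝ) * (20 * e0) ≤ k * (c * d) :=
      mul_le_mul_of_nonneg_left hed (Nat.cast_nonneg k)
    have hcN1 : 0 < c * N n1 := mul_pos hc0 hN1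
    have hcN : 0 < c * N (n1 + k) := mul_pos hc0 hN
    -- the main comparison
    have main : 28 * M * Real.exp (-3 * C1 + 5 * (0.02 * c * N (n1 + k)) -
        (1 + c) * N (n1 + k)) ≤ Real.exp (-(0.8 * c * N n1)) * q ^ k *
        (JJ N e0 n1 (k + 1) * (rad C1 α P n1 * rad C1 β Q n1)) := by
      rw [hd2, hq, ← Real.exp_nat_mul, ← Real.exp_add, ← Real.exp_add]
      have e5 : Real.exp (-3 * C1 + 5 * (0.02 * c * N (n1 + k)) - (1 + c) * N (n1 + k)) =
          Real.exp (S + 3 * e0 - C1) * Real.exp (-2 * C1 + 5 * (0.02 * c * N (n1 + k)) -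
            (1 + c) * N (n1 + k) - S - 3 * e0) := by
        rw [← Real.exp_add]; congr 1; ring
      rw [e5, ← mul_assoc]
      refine (mul_le_mul_of_nonneg_right U.hA (Real.exp_pos _).le).trans ?_
      rw [one_mul]
      apply Real.exp_le_exp.2
      rw [hst]
      push_cast
      linarith
    have hpos : 0 < Real.exp (-(0.8 * c * N n1)) * q ^ k *
        (JJ N e0 n1 (k + 1) * (rad C1 α P n1 * rad C1 β Q n1)) := by positivity
    calc _ ≤ _ := main
      _ < 2 * (Real.exp (-(0.8 * c * N n1)) * q ^ k *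
        (JJ N e0 n1 (k + 1) * (rad C1 α P n1 * rad C1 β Q n1))) := by linarith
      _ = _ := by ring

theorem exp_neg_three' : Real.exp (-3) ≤ 1 / 16 := by
  have h1 : (2.7 : ℝ) ≤ Real.exp 1 := by have := Real.exp_one_gt_d9; linarith
  have h2 : (16 : ℝ) ≤ Real.exp 3 := by
    have : Real.exp 3 = Real.exp 1 ^ 3 := by rw [← Real.exp_nat_mul]; norm_num
    rw [this]
    calc (16 : ℝ) ≤ 2.7 ^ 3 := by norm_num
      _ ≤ _ := pow_le_pow_left₀ (by norm_num) h1 3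
  rw [Real.exp_neg, one_div]
  exact inv_anti₀ (by norm_num) h2

/-- an orbit with sublinear gap ends up in the boxes -/
theorem adm_of_bound4 (U : Set4 f fi a b c2 c3 e2 e3 M r0 x y c d e0 C1 S h α β N)
    {F : ℕ → ℂ × ℂ → ℂ × ℂ} {p : ℂ × ℂ} {K : ℝ} (hK : 0 ≤ K) {n0 : ℕ}
    (hb : ∀ n, n0 ≤ n → ‖(fwd F 0 n p).1‖ ≤ Real.exp (-C1 - α n + K * N n ^ th4) ∧
      ‖(fwd F 0 n p).2‖ ≤ Real.exp (-C1 - β n + K * N n ^ th4)) (hN1 : 1 ≤ N 0) :
    ∃ (n1 : ℕ) (P Q : ℕ → ℝ) (A q : ℝ),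
      LocD f fi (gcut a b c2 c3 e2 e3 c S α β N) (gcuti a b c2 c3 e2 e3 c S α β N) n1
        (rad C1 α P) (rad C1 β Q) (JJ N e0 n1) A q ∧
      fwd F 0 n1 p ∈ box (rad C1 α P) (rad C1 β Q) n1 (1 / 16) := by
  obtain ⟨n2, hn2⟩ := exists_LocD U (K := K + 3) (by linarith)
  obtain ⟨P, Q, A, q, iP, iQ, L⟩ := hn2 (max n0 n2) (le_max_right _ _)
  set n1 := max n0 n2 with hn1
  refine ⟨n1, P, Q, A, q, L, ?_⟩
  obtain ⟨b1, b2⟩ := hb n1 (le_max_left _ _)
  have hth : 1 ≤ N n1 ^ th4 :=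
    Real.one_le_rpow (hN1.trans (U.T.N_mono le_rfl (Nat.zero_le _))) th4_pos.le
  have k1 : ∀ u : ℝ, Real.exp (-C1 - u + K * N n1 ^ th4) ≤
      1 / 16 * Real.exp (-C1 - (u - (K + 3) * N n1 ^ th4)) := by
    intro u
    calc Real.exp (-C1 - u + K * N n1 ^ th4) ≤
        Real.exp (-3 + (-C1 - (u - (K + 3) * N n1 ^ th4))) := by
          apply Real.exp_le_exp.2; linarith
      _ = Real.exp (-3) * Real.exp (-C1 - (u - (K + 3) * N n1 ^ th4)) := Real.exp_add _ _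
      _ ≤ _ := mul_le_mul_of_nonneg_right exp_neg_three' (Real.exp_pos _).le
  constructor
  · unfold rad; rw [iP]; exact b1.trans (k1 _)
  · unfold rad; rw [iQ]; exact b2.trans (k1 _)

/-- every point is admissible for the cut system -/
theorem adm_g4 (U : Set4 f fi a b c2 c3 e2 e3 M r0 x y c d e0 C1 S h α β N)
    (hN1 : 1 ≤ N 0) (p : ℂ × ℂ) :
    AdmD (gcut a b c2 c3 e2 e3 c S α β N) (gcuti a b c2 c3 e2 e3 c S α β N) f fi
      (1 / 16) p := by
  set u := max (‖p.1‖) (‖p.2‖) + 1 with hu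
  have hu1 : 1 ≤ u := by
    have := le_max_of_le_left (b := ‖p.1‖) (c := ‖p.2‖) (norm_nonneg p.1); linarith
  set K0 := C1 + h + Real.log u with hK0
  have hK0nn : 0 ≤ K0 := by
    have h1 := U.C0
    have h2 := U.T.hpos
    have h3 := Real.log_nonneg hu1
    linarith
  obtain ⟨P, Q, G⟩ := exists_Gs (Hm c S β N) (Hm c S α N) 0 K0
  have h0 : ‖p.1‖ ≤ rad C1 α P 0 ∧ ‖p.2‖ ≤ rad C1 β Q 0 := by
    have e1 : -C1 - (h - K0) = Real.log u := by rw [hK0]; ring
    unfold rad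
    constructor
    · rw [G.iP, U.T.ia, e1, Real.exp_log (by linarith)]
      have := le_max_left (‖p.1‖) (‖p.2‖); linarith
    · rw [G.iQ, U.T.ib, e1, Real.exp_log (by linarith)]
      have := le_max_right (‖p.1‖) (‖p.2‖); linarith
  set g := gcut a b c2 c3 e2 e3 c S α β N with hg
  have hmem : ∀ n, ‖(fwd g 0 n p).1‖ ≤ rad C1 α P n ∧ ‖(fwd g 0 n p).2‖ ≤ rad C1 β Q n := by
    intro n
    induction n with
    | zero => exact h0
    | succ n ih =>
      rw [fwd_succ, zero_add]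
      exact gcut_box U G hK0nn (Nat.zero_le n) ih.1 ih.2
  set K' : ℝ := K0 / 0.03 ^ th4 with hK'
  have h03 : (0 : ℝ) < 0.03 ^ th4 := Real.rpow_pos_of_pos (by norm_num) _
  have hK'nn : 0 ≤ K' := div_nonneg hK0nn h03.le
  have hKK : K0 ≤ K' * (0.03 * N 0) ^ th4 := by
    have h1 : 1 ≤ N 0 ^ th4 := Real.one_le_rpow hN1 th4_pos.le
    rw [Real.mul_rpow (by norm_num) (by linarith), hK']
    calc K0 = K0 / 0.03 ^ th4 * (0.03 ^ th4 * 1) := by field_simp
      _ ≤ _ := by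
          apply mul_le_mul_of_nonneg_left _ hK'nn
          exact mul_le_mul_of_nonneg_left h1 h03.le
  obtain ⟨n1, P', Q', A, q, L, hbox⟩ := adm_of_bound4 U (F := g) (p := p)
    (K := K' * 7 ^ th4) (by positivity) (n0 := 0) (fun n hn => by
      obtain ⟨g1, g2⟩ := G.growth U.T hK'nn hKK hn
      obtain ⟨m1, m2⟩ := hmem n
      rw [Real.mul_rpow (by norm_num) (U.T.N_pos (Nat.zero_le n)).le] at g1 g2
      unfold rad at m1 m2
      exact ⟨m1.trans (Real.exp_le_exp.2 (by linarith)),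
        m2.trans (Real.exp_le_exp.2 (by linarith))⟩) hN1
  exact ⟨n1, _, _, _, A, q, L.swap, hbox⟩

/-- points attracted to the origin are admissible for the full system -/
theorem adm_f4 (U : Set4 f fi a b c2 c3 e2 e3 M r0 x y c d e0 C1 S h α β N)
    (hN1 : 1 ≤ N 0) {p : ℂ × ℂ} (hp : Tendsto (fun n => fwd f 0 n p) atTop (𝓝 0)) :
    AdmD f fi (gcut a b c2 c3 e2 e3 c S α β N) (gcuti a b c2 c3 e2 e3 c S α β N)
      (1 / 16) p := by
  have h1 : ∀ᶠ n in atTop, fwd f 0 n p ∈ ball (0 : ℂ × ℂ) (Real.exp (-C1 - h)) :=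
    hp (ball_mem_nhds _ (Real.exp_pos _))
  obtain ⟨n0, hn0⟩ := h1.exists
  rw [mem_ball, dist_zero_right, Prod.norm_def, max_lt_iff] at hn0
  obtain ⟨α', β', N', T'⟩ := exists_tro x y U.T.c0 U.T.c1 U.T.hx U.T.hy U.T.hS U.T.h0
    U.T.hSpos U.T.hh n0
  have horb : ∀ n, n0 ≤ n → ‖(fwd f 0 n p).1‖ ≤ Real.exp (-C1 - α' n) ∧
      ‖(fwd f 0 n p).2‖ ≤ Real.exp (-C1 - β' n) := by
    intro n hn
    induction n, hn using Nat.le_induction with
    | base =>
      rw [T'.ia, T'.ib]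
      exact ⟨hn0.1.le, hn0.2.le⟩
    | succ k hk ih =>
      obtain ⟨i1, i2⟩ := ih
      rw [fwd_succ, zero_add]
      obtain ⟨a1, a2, a3⟩ := T'.le_succ hk
      obtain ⟨b1, b2, b3⟩ := T'.swap.le_succ hk
      obtain ⟨d1, d2, _, _⟩ := T'.cone hk
      have hpos := T'.hpos
      have x1 := T'.xS k
      have y1 := T'.yS k
      have hp1 : ‖(fwd f 0 k p).1‖ ≤ r0 :=
        i1.trans ((Real.exp_le_exp.2 (by linarith)).trans U.Cr)
      have hp2 : ‖(fwd f 0 k p).2‖ ≤ r0 :=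
        i2.trans ((Real.exp_le_exp.2 (by linarith)).trans U.Cr)
      exact ⟨size1 (U.na k) U.F.M0 (U.F.bc2 k) (U.F.bc3 k) (U.F.nf1 k _ hp1 hp2) x1
          U.T.hSpos.le U.C0 U.hC i1 i2 (by linarith) (by linarith) (by linarith)
          (by linarith),
        size1 (U.nb k) U.F.M0 (U.F.be2 k) (U.F.be3 k) (U.F.nf2 k _ hp1 hp2) y1
          U.T.hSpos.le U.C0 U.hC i2 i1 (by linarith) (by linarith) (by linarith)
          (by linarith)⟩
  obtain ⟨K, hK, hf⟩ := forget4 U.T T'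
  obtain ⟨n1, P', Q', A, q, L, hbox⟩ := adm_of_bound4 U (F := f) (p := p)
    (K := K) hK (n0 := n0) (fun n hn => by
      obtain ⟨f1, f2⟩ := hf n hn
      obtain ⟨m1, m2⟩ := horb n hn
      exact ⟨m1.trans (Real.exp_le_exp.2 (by linarith)),
        m2.trans (Real.exp_le_exp.2 (by linarith))⟩) hN1
  exact ⟨n1, _, _, _, A, q, L, hbox⟩

/-- The conclusion: the basin of `f` is open and biholomorphic to `ℂ²`. -/
def IsC2 (f : ℕ → ℂ × ℂ → ℂ × ℂ) : Prop :=
  IsOpen {p | Tendsto (fun n => fwd f 0 n p) atTop (𝓝 0)} ∧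
    ∃ φ ψ : ℂ × ℂ → ℂ × ℂ, Differentiable ℂ φ ∧
      DifferentiableOn ℂ ψ {p | Tendsto (fun n => fwd f 0 n p) atTop (𝓝 0)} ∧
      range φ = {p | Tendsto (fun n => fwd f 0 n p) atTop (𝓝 0)} ∧
      (∀ p, ψ (φ p) = p) ∧
      ∀ p ∈ {p | Tendsto (fun n => fwd f 0 n p) atTop (𝓝 0)}, φ (ψ p) = p

theorem main_set4 (U : Set4 f fi a b c2 c3 e2 e3 M r0 x y c d e0 C1 S h α β N)
    (hN1 : 1 ≤ N 0) : IsC2 f :=
  mainD (fun p => adm_g4 U hN1 p) (fun _ hp => adm_f4 U hN1 hp)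

end

/-- The basin theorem for automorphisms in normal form. -/
theorem main_nf {f fi : ℕ → ℂ × ℂ → ℂ × ℂ} {a b c2 c3 e2 e3 : ℕ → ℂ} {M r0 C D : ℝ}
    (F : Nf f fi a b c2 c3 e2 e3 M r0) (hr : 0 < r0) (hC : 0 < C) (hD : D < 1)
    (hCD : D ^ 4 < C)
    (ha : ∀ n, C ≤ ‖a n‖ ∧ ‖a n‖ ≤ D) (hb : ∀ n, C ≤ ‖b n‖ ∧ ‖b n‖ ≤ D) : IsC2 f := by
  have hCle : C ≤ D := (ha 0).1.trans (ha 0).2
  have hD0 : 0 < D := hC.trans_le hCle
  have hM : 0 ≤ M := F.M0
  set d : ℝ := -Real.log D with hd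
  have hdpos : 0 < d := by
    have := Real.log_neg hD0 hD; linarith
  set ρ : ℝ := -Real.log C with hρ
  have hρd : ρ < 4 * d := by
    have h1 : Real.log (D ^ 4) < Real.log C := Real.log_lt_log (by positivity) hCD
    rw [Real.log_pow] at h1
    push_cast at h1
    linarith
  have hlog : ∀ u : ℂ, C ≤ ‖u‖ ∧ ‖u‖ ≤ D → d ≤ -Real.log ‖u‖ ∧ -Real.log ‖u‖ ≤ ρ := by
    rintro u ⟨h1, h2⟩
    have h3 : Real.log C ≤ Real.log ‖u‖ := Real.log_le_log hC h1
    have h4 : Real.log ‖u‖ ≤ Real.log D := Real.log_le_log (hC.trans_le h1) h2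
    constructor <;> linarith
  have hρ1 : d ≤ ρ := by
    obtain ⟨h1, h2⟩ := hlog _ (ha 0)
    linarith
  -- the small constants
  set t : ℝ := (4 * d - ρ) / d with ht
  have ht0 : 0 < t := div_pos (by linarith) hdpos
  have htd : t * d = 4 * d - ρ := by rw [ht]; field_simp
  set c : ℝ := min 0.001 (t / 100) with hc
  have hc0 : 0 < c := lt_min (by norm_num) (by positivity)
  have hc1 : c ≤ 0.001 := min_le_left _ _
  have hct : c ≤ t / 100 := min_le_right _ _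
  have hcd : c * d ≤ (4 * d - ρ) / 100 := by
    have := mul_le_mul_of_nonneg_right hct hdpos.le
    rw [div_mul_eq_mul_div, htd] at this
    exact this
  have hcd0 : 0 < c * d := mul_pos hc0 hdpos
  have hcd1 : c * d ≤ 0.001 * d := mul_le_mul_of_nonneg_right hc1 hdpos.le
  set e0 : ℝ := c * d / 20 with he0
  have he0p : 0 < e0 := by positivity
  set x : ℕ → ℝ := fun n => -Real.log ‖a n‖ - e0 with hx
  set y : ℕ → ℝ := fun n => -Real.log ‖b n‖ - e0 with hy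
  have hxb : ∀ n, d - e0 ≤ x n ∧ x n ≤ ρ - e0 := fun n => by
    obtain ⟨h1, h2⟩ := hlog _ (ha n)
    constructor
    · show _ ≤ -Real.log ‖a n‖ - e0
      linarith
    · show -Real.log ‖a n‖ - e0 ≤ _
      linarith
  have hyb : ∀ n, d - e0 ≤ y n ∧ y n ≤ ρ - e0 := fun n => by
    obtain ⟨h1, h2⟩ := hlog _ (hb n)
    constructor
    · show _ ≤ -Real.log ‖b n‖ - e0
      linarith
    · show -Real.log ‖b n‖ - e0 ≤ _
      linarith
  have hpin : ∀ u v : ℝ, d - e0 ≤ u → v ≤ ρ - e0 → 0 ≤ v → u ≤ ρ - e0 →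
      (1 + 4 * c) * (u + v) ≤ 5 * u := by
    intro u v h1 h2 h3 h4
    have h5 : u + v ≤ 8 * d := by linarith
    have h6 : c * (u + v) ≤ c * (8 * d) := mul_le_mul_of_nonneg_left h5 hc0.le
    linarith
  set S : ℝ := 8 * d with hS
  set h : ℝ := 10000 * S + 1 with hh
  obtain ⟨α, β, N, T⟩ := exists_tro x y (c := c) (S := S) (h := h) hc0 hc1
    (fun n => by
      have h1 := hxb n; have h2 := hyb n
      exact hpin _ _ h1.1 h2.2 (by linarith) h1.2)
    (fun n => by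
      have h1 := hxb n; have h2 := hyb n
      have := hpin _ _ h2.1 h1.2 (by linarith) h2.2
      linarith)
    (fun n => by have h1 := hxb n; have h2 := hyb n; linarith)
    (fun n => by have h1 := hxb n; have h2 := hyb n; linarith)
    (by positivity) (by linarith) 0
  -- choice of `C1`
  have he1 : Real.exp (-e0) < 1 := by
    rw [Real.exp_lt_one_iff]; linarith
  have hlim0 : Tendsto (fun C1 : ℝ => Real.exp (-C1)) atTop (𝓝 0) :=
    Real.tendsto_exp_neg_atTop_nhds_zero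
  have g1 : ∀ᶠ C1 : ℝ in atTop, Real.exp (-C1) ≤ r0 :=
    ((tendsto_order.1 hlim0).2 r0 hr).mono fun _ h => h.le
  have g2 : ∀ᶠ C1 : ℝ in atTop, Real.exp (-e0) + 7 * M * Real.exp (2 * S - C1) ≤ 1 := by
    have h1 : Tendsto (fun C1 : ℝ => Real.exp (-e0) + 7 * M * Real.exp (2 * S) *
        Real.exp (-C1)) atTop (𝓝 (Real.exp (-e0) + 7 * M * Real.exp (2 * S) * 0)) :=
      (hlim0.const_mul _).const_add _
    rw [mul_zero, add_zero] at h1
    refine ((tendsto_order.1 h1).2 1 he1).mono fun C1 h => ?_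
    rw [show 2 * S - C1 = 2 * S + -C1 by ring, Real.exp_add, ← mul_assoc]
    exact h.le
  have g3 : ∀ᶠ C1 : ℝ in atTop, 2 * M * Real.exp (-C1) ≤
      Real.exp (-(S + 2 * e0)) * (1 - Real.exp (-e0)) := by
    have h1 : Tendsto (fun C1 : ℝ => 2 * M * Real.exp (-C1)) atTop (𝓝 (2 * M * 0)) :=
      hlim0.const_mul _
    rw [mul_zero] at h1
    refine ((tendsto_order.1 h1).2 _ ?_).mono fun C1 h => h.le
    exact mul_pos (Real.exp_pos _) (by linarith)
  have g4 : ∀ᶠ C1 : ℝ in atTop, 28 * M * Real.exp (S + 3 * e0 - C1) ≤ 1 := by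
    have h1 : Tendsto (fun C1 : ℝ => 28 * M * Real.exp (S + 3 * e0) *
        Real.exp (-C1)) atTop (𝓝 (28 * M * Real.exp (S + 3 * e0) * 0)) :=
      hlim0.const_mul _
    rw [mul_zero] at h1
    refine ((tendsto_order.1 h1).2 1 one_pos).mono fun C1 h => ?_
    rw [show S + 3 * e0 - C1 = S + 3 * e0 + -C1 by ring, Real.exp_add, ← mul_assoc]
    exact h.le
  obtain ⟨C1, ⟨⟨⟨k1, k2⟩, k3⟩, k4⟩, k5⟩ :=
    ((((g1.and g2).and g3).and g4).and (eventually_ge_atTop (0 : ℝ))).exists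
  have U : Set4 f fi a b c2 c3 e2 e3 M r0 x y c d e0 C1 S h α β N := by
    refine ⟨F, T, hdpos, he0p, by rw [he0]; linarith, fun n => ?_, fun n => ?_, fun n => ?_,
      k5, k1, k2, k3, k4⟩
    · have h1 : 0 < ‖a n‖ := hC.trans_le (ha n).1
      rw [show -(x n + e0) = Real.log ‖a n‖ by simp only [hx]; ring, Real.exp_log h1]
    · have h1 : 0 < ‖b n‖ := hC.trans_le (hb n).1
      rw [show -(y n + e0) = Real.log ‖b n‖ by simp only [hy]; ring, Real.exp_log h1]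
    · have h1 := hxb n; have h2 := hyb n; linarith
  refine main_set4 U ?_
  rw [T.iN]
  have : 0 < S := by positivity
  linarith

end Pool.Agent.TH238
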