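import Pool.Agent.TH238.T4Reg
import Pool.Agent.Helper540.Taylor

set_option autoImplicit false

/-!
Taylor estimates in one and two variables.
-/

namespace Pool.Agent.TH238

open Set Filter Topology Metric Pool.Agent.Helper540

theorem tc_bound {F : ℂ → ℂ} {R B : ℝ} (hR : 0 < R) (hF : DifferentiableOn ℂ F (ball 0 R))
    (hB : ∀ z ∈ ball (0 : ℂ) R, ‖F z‖ ≤ B) (k : ℕ) : ‖tc k F‖ ≤ B * (2 / R) ^ k := by
  have hr : 0 < R / 2 := by linarith
  have h1 : DiffContOnCl ℂ F (ball 0 (R / 2)) := by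
    apply DifferentiableOn.diffContOnCl
    apply hF.mono
    rw [closure_ball _ hr.ne']
    exact closedBall_subset_ball (by linarith)
  have h2 := Complex.norm_iteratedDeriv_le_of_forall_mem_sphere_norm_le (C := B) k hr h1
    (fun z hz => hB z (by
      have hz' : ‖z‖ = R / 2 := by simpa using hz
      rw [mem_ball_zero_iff, hz']; linarith))
  rw [tc, norm_smul, norm_inv, Complex.norm_natCast]
  have hk : (0 : ℝ) < k.factorial := by exact_mod_cast k.factorial_pos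
  rw [inv_mul_le_iff₀ hk]
  calc _ ≤ _ := h2
    _ = _ := by
      rw [div_pow, div_pow]; field_simp

theorem taylor_isBigO {F : ℂ → ℂ} {R : ℝ} (hR : 0 < R) (hF : DifferentiableOn ℂ F (ball 0 R))
    (n : ℕ) :
    (fun z => F z - ∑ k ∈ Finset.range n, tc k F * z ^ k) =O[𝓝 0] fun z => ‖z‖ ^ n := by
  have han : AnalyticAt ℂ F 0 := hF.analyticAt (isOpen_ball.mem_nhds (mem_ball_self hR))
  have h1 := (AnalyticAt.hasFPowerSeriesAt han).isBigO_sub_partialSum_pow n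
  refine (h1.congr_left fun z => ?_)
  rw [zero_add]
  congr 1
  unfold FormalMultilinearSeries.partialSum
  apply Finset.sum_congr rfl
  intro k _
  rw [FormalMultilinearSeries.ofScalars_apply_eq]
  simp only [tc, smul_eq_mul]
  ring

theorem taylor_bound {F : ℂ → ℂ} {R B : ℝ} (hR : 0 < R) (hF : DifferentiableOn ℂ F (ball 0 R))
    (hB : ∀ z ∈ ball (0 : ℂ) R, ‖F z‖ ≤ B) (n : ℕ) {z : ℂ} (hz : ‖z‖ < R) :
    ‖F z - ∑ k ∈ Finset.range (n + 1), tc k F * z ^ k‖ ≤ 2 ^ (n + 1) * B * (‖z‖ / R) ^ (n + 1) := by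
  set G : ℂ → ℂ := fun z => F z - ∑ k ∈ Finset.range (n + 1), tc k F * z ^ k with hG
  have hB0 : 0 ≤ B := (norm_nonneg _).trans (hB 0 (mem_ball_self hR))
  have hG0 : G 0 = 0 := by
    simp only [hG]
    rw [Finset.sum_range_succ']
    simp [tc]
  have hGd : DifferentiableOn ℂ G (ball 0 R) := by
    refine hF.sub ?_
    exact (by fun_prop : Differentiable ℂ fun z : ℂ =>
      ∑ k ∈ Finset.range (n + 1), tc k F * z ^ k).differentiableOn
  have hmaps : MapsTo G (ball 0 R) (closedBall (G 0) (2 ^ (n + 1) * B)) := by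
    intro w hw
    rw [mem_closedBall, hG0, dist_zero_right]
    have hw' : ‖w‖ < R := by simpa using hw
    have h1 : ∀ k ∈ Finset.range (n + 1), ‖tc k F * w ^ k‖ ≤ B * 2 ^ k := by
      intro k _
      rw [norm_mul, norm_pow]
      calc ‖tc k F‖ * ‖w‖ ^ k ≤ (B * (2 / R) ^ k) * R ^ k := by
            apply mul_le_mul (tc_bound hR hF hB k) _ (by positivity) (by positivity)
            exact pow_le_pow_left₀ (norm_nonneg _) hw'.le k
        _ = B * 2 ^ k := by rw [div_pow]; field_simp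
    have h2 : ∑ k ∈ Finset.range (n + 1), B * (2 : ℝ) ^ k = B * (2 ^ (n + 1) - 1) := by
      rw [← Finset.mul_sum]
      congr 1
      have := geom_sum_eq (x := (2 : ℝ)) (by norm_num) (n + 1)
      rw [this]; norm_num
    calc ‖G w‖ ≤ ‖F w‖ + ‖∑ k ∈ Finset.range (n + 1), tc k F * w ^ k‖ := norm_sub_le _ _
      _ ≤ B + ∑ k ∈ Finset.range (n + 1), B * (2 : ℝ) ^ k :=
          add_le_add (hB w hw) (norm_sum_le_of_le _ h1)
      _ = 2 ^ (n + 1) * B := by rw [h2]; ring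
  have hn : (G · - G 0) =o[𝓝 0] (fun w ↦ ‖w - 0‖ ^ n) := by
    simp only [hG0, sub_zero]
    refine (taylor_isBigO hR hF (n + 1)).trans_isLittleO ?_
    have := (Asymptotics.isLittleO_pow_pow (𝕜 := ℝ) (m := n) (n := n + 1) (Nat.lt_succ_self n))
    exact this.comp_tendsto tendsto_norm_zero
  have h := Complex.dist_le_mul_div_pow_of_mapsTo_ball_of_isLittleO hGd hmaps hn
    (by simpa using hz : z ∈ ball (0 : ℂ) R)
  rw [hG0, dist_zero_right, dist_zero_right] at h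
  exact h

/-- Second order Taylor polynomial of a function of two variables. -/
theorem jet2 {φ : ℂ × ℂ → ℂ} {R B : ℝ} (hR : 0 < R) (hφ : DifferentiableOn ℂ φ (ball 0 R))
    (hB : ∀ p ∈ ball (0 : ℂ × ℂ) R, ‖φ p‖ ≤ B) :
    ∃ s1 s2 s3 : ℂ, ‖s1‖ ≤ 12 * B / R ^ 2 ∧ ‖s2‖ ≤ 12 * B / R ^ 2 ∧ ‖s3‖ ≤ 12 * B / R ^ 2 ∧
      ∀ p : ℂ × ℂ, ‖p‖ < R → ‖φ p - φ 0 - fderiv ℂ φ 0 p -
        (s1 * p.1 ^ 2 + s2 * (p.1 * p.2) + s3 * p.2 ^ 2)‖ ≤ 8 * B * (‖p‖ / R) ^ 3 := by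
  have hB0 : 0 ≤ B := (norm_nonneg _).trans (hB 0 (mem_ball_self hR))
  set H := fderiv ℂ (fderiv ℂ φ) 0 with hH
  set Q : ℂ × ℂ → ℂ := fun v => tc 2 (fun t : ℂ => φ (t • v)) with hQ
  have hQe : ∀ v, Q v = 2⁻¹ * H v v := by
    intro v
    simp only [hQ]
    rw [tc_slice hR hφ 2 v, iteratedFDeriv_two_apply]
    simp [hH]
  -- slices
  have hsl : ∀ v : ℂ × ℂ, v ≠ 0 → DifferentiableOn ℂ (fun t : ℂ => φ (t • v)) (ball 0 (R / ‖v‖)) ∧
      ∀ t ∈ ball (0 : ℂ) (R / ‖v‖), ‖φ (t • v)‖ ≤ B := by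
    intro v hv
    have hv' : 0 < ‖v‖ := norm_pos_iff.2 hv
    have hm : ∀ t ∈ ball (0 : ℂ) (R / ‖v‖), t • v ∈ ball (0 : ℂ × ℂ) R := by
      intro t ht
      rw [mem_ball_zero_iff] at *
      rw [norm_smul]
      rwa [lt_div_iff₀ hv'] at ht
    refine ⟨?_, fun t ht => hB _ (hm t ht)⟩
    intro t ht
    have h1 : DifferentiableAt ℂ φ (t • v) := hφ.differentiableAt (isOpen_ball.mem_nhds (hm t ht))
    have h2 : DifferentiableAt ℂ (fun t : ℂ => t • v) t := by fun_prop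
    exact (DifferentiableAt.comp t h1 h2).differentiableWithinAt
  have hQb : ∀ v : ℂ × ℂ, v ≠ 0 → ‖Q v‖ ≤ B * (2 * ‖v‖ / R) ^ 2 := by
    intro v hv
    have hv' : 0 < ‖v‖ := norm_pos_iff.2 hv
    have := tc_bound (div_pos hR hv') (hsl v hv).1 (hsl v hv).2 2
    calc _ ≤ _ := this
      _ = _ := by congr 2; field_simp
  set s1 := Q (1, 0)
  set s3 := Q (0, 1)
  set s2 := Q (1, 1) - Q (1, 0) - Q (0, 1)
  have n1 : ‖((1, 0) : ℂ × ℂ)‖ = 1 := by simp [Prod.norm_def]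
  have n2 : ‖((0, 1) : ℂ × ℂ)‖ = 1 := by simp [Prod.norm_def]
  have n3 : ‖((1, 1) : ℂ × ℂ)‖ = 1 := by simp [Prod.norm_def]
  have b1 : ‖Q (1, 0)‖ ≤ 4 * B / R ^ 2 := by
    have := hQb (1, 0) (by simp)
    rw [n1] at this
    calc _ ≤ _ := this
      _ = _ := by field_simp; ring
  have b2 : ‖Q (0, 1)‖ ≤ 4 * B / R ^ 2 := by
    have := hQb (0, 1) (by simp)
    rw [n2] at this
    calc _ ≤ _ := this
      _ = _ := by field_simp; ring
  have b3 : ‖Q (1, 1)‖ ≤ 4 * B / R ^ 2 := by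
    have := hQb (1, 1) (by simp)
    rw [n3] at this
    calc _ ≤ _ := this
      _ = _ := by field_simp; ring
  have hmono : 4 * B / R ^ 2 ≤ 12 * B / R ^ 2 := by gcongr; norm_num
  refine ⟨s1, s2, s3, b1.trans hmono, ?_, b2.trans hmono, ?_⟩
  · calc ‖s2‖ ≤ ‖Q (1, 1)‖ + ‖Q (1, 0)‖ + ‖Q (0, 1)‖ := by
          refine (norm_sub_le _ _).trans ?_
          gcongr
          exact norm_sub_le _ _
      _ ≤ 4 * B / R ^ 2 + 4 * B / R ^ 2 + 4 * B / R ^ 2 := by linarith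
      _ = _ := by ring
  · intro p hp
    have hform : s1 * p.1 ^ 2 + s2 * (p.1 * p.2) + s3 * p.2 ^ 2 = Q p := by
      have hp' : p = p.1 • ((1, 0) : ℂ × ℂ) + p.2 • ((0, 1) : ℂ × ℂ) := by
        ext <;> simp
      have h11 : ((1, 1) : ℂ × ℂ) = (1, 0) + (0, 1) := by ext <;> simp
      show Q (1, 0) * p.1 ^ 2 + (Q (1, 1) - Q (1, 0) - Q (0, 1)) * (p.1 * p.2) +
        Q (0, 1) * p.2 ^ 2 = Q p
      rw [hQe, hQe, hQe, hQe, h11]
      conv_rhs => rw [hp']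
      simp only [map_add, map_smul, add_apply, smul_apply,
        smul_eq_mul]
      ring
    rw [hform]
    by_cases hp0 : p = 0
    · subst hp0
      have : Q 0 = 0 := by rw [hQe]; simp
      simp [this]
    · have hv' : 0 < ‖p‖ := norm_pos_iff.2 hp0
      have h1 := taylor_bound (div_pos hR hv') (hsl p hp0).1 (hsl p hp0).2 2 (z := 1)
        (by rw [norm_one, lt_div_iff₀ hv']; linarith)
      have e0 : tc 0 (fun t : ℂ => φ (t • p)) = φ 0 := by simp [tc]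
      have e1 : tc 1 (fun t : ℂ => φ (t • p)) = fderiv ℂ φ 0 p := by
        have hd : DifferentiableAt ℂ φ 0 :=
          hφ.differentiableAt (isOpen_ball.mem_nhds (mem_ball_self hR))
        apply tc_one
        have h2 : HasDerivAt (fun t : ℂ => t • p) p 0 := by
          simpa using (hasDerivAt_id (0 : ℂ)).smul_const p
        have h3 : HasFDerivAt φ (fderiv ℂ φ 0) ((fun t : ℂ => t • p) 0) := by
          simpa using hd.hasFDerivAt
        exact h3.comp_hasDerivAt 0 h2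
      simp only [Finset.sum_range_succ, Finset.sum_range_zero, zero_add, one_smul,
        mul_one, one_pow, e0, e1] at h1
      calc ‖φ p - φ 0 - fderiv ℂ φ 0 p - Q p‖
          = ‖φ p - (φ 0 + fderiv ℂ φ 0 p + tc 2 fun t : ℂ => φ (t • p))‖ := by
            congr 1; simp only [hQ]; ring
        _ ≤ _ := h1
        _ = _ := by
          rw [norm_one]; norm_num

theorem nf_scalar {g : ℂ × ℂ → ℂ} (hg : Differentiable ℂ g) {M r : ℝ} (hr : 0 < r)
    (hj : ∀ p, ‖p‖ ≤ r → ‖g p‖ ≤ M * ‖p‖ ^ 3) :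
    ∃ c3 : ℂ, ‖c3‖ ≤ 8 * M ∧ ∀ z w : ℂ, ‖z‖ ≤ r / 4 → ‖w‖ ≤ r / 4 →
      ‖g (z, w) - c3 * w ^ 3‖ ≤ (16 * M + 16 * M / r) * (‖z‖ * (‖z‖ + ‖w‖) ^ 2 + ‖w‖ ^ 4) := by
  have hM : 0 ≤ M := by
    have h := hj (r, 0) (by simp [Prod.norm_def, abs_of_pos hr, hr.le])
    have h2 : ‖((r : ℂ), (0 : ℂ))‖ = r := by simp [Prod.norm_def, abs_of_pos hr, hr.le]
    rw [h2] at h
    exact nonneg_of_mul_nonneg_left ((norm_nonneg _).trans h) (by positivity)
  have nw : ∀ w : ℂ, ‖((0 : ℂ), w)‖ = ‖w‖ := by intro w; simp [Prod.norm_def]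
  set F : ℂ → ℂ := fun w => g (0, w) with hF
  have hFd : DifferentiableOn ℂ F (ball 0 r) :=
    (by simp only [hF]; fun_prop : Differentiable ℂ F).differentiableOn
  have hF3 : ∀ w ∈ ball (0 : ℂ) r, ‖F w‖ ≤ M * ‖w‖ ^ 3 := by
    intro w hw
    have hw' : ‖w‖ < r := by simpa using hw
    have := hj (0, w) (by rw [nw]; exact hw'.le)
    rwa [nw] at this
  have hFB : ∀ w ∈ ball (0 : ℂ) r, ‖F w‖ ≤ M * r ^ 3 := by
    intro w hw
    refine (hF3 w hw).trans ?_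
    have hw' : ‖w‖ < r := by simpa using hw
    gcongr
  have t2 : tc 2 F = 0 := tc_eq_zero_of_bound 2 hr hFd (C := M) hF3
  have t1 : tc 1 F = 0 := tc_eq_zero_of_bound 1 hr hFd (C := M * r) (fun w hw => by
    have hw' : ‖w‖ < r := by simpa using hw
    calc ‖F w‖ ≤ M * ‖w‖ ^ 3 := hF3 w hw
      _ = M * ‖w‖ * ‖w‖ ^ 2 := by ring
      _ ≤ M * r * ‖w‖ ^ (1 + 1) := by norm_num; gcongr)
  have t0 : tc 0 F = 0 := tc_eq_zero_of_bound 0 hr hFd (C := M * r ^ 2) (fun w hw => by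
    have hw' : ‖w‖ < r := by simpa using hw
    calc ‖F w‖ ≤ M * ‖w‖ ^ 3 := hF3 w hw
      _ = M * ‖w‖ ^ 2 * ‖w‖ := by ring
      _ ≤ M * r ^ 2 * ‖w‖ := by gcongr
      _ = _ := by ring)
  have t3 : ‖tc 3 F‖ ≤ 8 * M := by
    calc _ ≤ _ := tc_bound hr hFd hFB 3
      _ = _ := by field_simp; ring
  refine ⟨tc 3 F, t3, fun z w hz hw => ?_⟩
  have e1 : ‖F w - tc 3 F * w ^ 3‖ ≤ 16 * M / r * ‖w‖ ^ 4 := by
    have := taylor_bound hr hFd hFB 3 (z := w) (by linarith)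
    simp only [Finset.sum_range_succ, Finset.sum_range_zero, zero_add, t0, t1, t2, zero_mul] at this
    calc _ ≤ _ := this
      _ = _ := by rw [div_pow]; field_simp; ring
  have e2 : ‖g (z, w) - g (0, w)‖ ≤ 16 * M * (‖z‖ * (‖z‖ + ‖w‖) ^ 2) := by
    by_cases hz0 : z = 0
    · subst hz0; simp
    have hz' : 0 < ‖z‖ := norm_pos_iff.2 hz0
    set s := ‖z‖ + ‖w‖ with hs
    have hs0 : 0 < s := by positivity
    set G : ℂ → ℂ := fun ζ => g (ζ, w) - g (0, w) with hG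
    have hGd : DifferentiableOn ℂ G (ball 0 (2 * s)) :=
      (by simp only [hG]; fun_prop : Differentiable ℂ G).differentiableOn
    have hnb : ∀ ζ ∈ ball (0 : ℂ) (2 * s), ‖g (ζ, w)‖ ≤ M * (2 * s) ^ 3 := by
      intro ζ hζ
      have h1 : ‖ζ‖ < 2 * s := by simpa using hζ
      have h2 : ‖(ζ, w)‖ ≤ 2 * s := by
        rw [Prod.norm_def]
        exact max_le h1.le (by simp only; linarith)
      refine (hj _ (h2.trans (by linarith))).trans ?_
      gcongr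
    have hGB : ∀ ζ ∈ ball (0 : ℂ) (2 * s), ‖G ζ‖ ≤ 16 * M * s ^ 3 := by
      intro ζ hζ
      calc ‖G ζ‖ ≤ ‖g (ζ, w)‖ + ‖g (0, w)‖ := norm_sub_le _ _
        _ ≤ M * (2 * s) ^ 3 + M * (2 * s) ^ 3 :=
            add_le_add (hnb ζ hζ) (hnb 0 (mem_ball_self (by positivity)))
        _ = _ := by ring
    have := taylor_bound (by positivity : (0 : ℝ) < 2 * s) hGd hGB 0 (z := z)
      (by linarith [norm_nonneg w])
    simp only [Finset.sum_range_succ, Finset.sum_range_zero, zero_add, pow_one, pow_zero] at this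
    have t0 : tc 0 G = 0 := by simp [tc, hG]
    rw [t0, zero_mul, sub_zero] at this
    calc ‖g (z, w) - g (0, w)‖ ≤ _ := this
      _ = _ := by field_simp
  have e3 : g (z, w) - tc 3 F * w ^ 3 = (g (z, w) - g (0, w)) + (F w - tc 3 F * w ^ 3) := by
    simp only [hF]; ring
  rw [e3]
  calc _ ≤ ‖g (z, w) - g (0, w)‖ + ‖F w - tc 3 F * w ^ 3‖ := norm_add_le _ _
    _ ≤ 16 * M * (‖z‖ * (‖z‖ + ‖w‖) ^ 2) + 16 * M / r * ‖w‖ ^ 4 := add_le_add e2 e1
    _ ≤ (16 * M + 16 * M / r) * (‖z‖ * (‖z‖ + ‖w‖) ^ 2) +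
        (16 * M + 16 * M / r) * ‖w‖ ^ 4 := by
        have h1 : 0 ≤ 16 * M / r := by positivity
        gcongr
        · linarith
        · linarith
    _ = _ := by ring

theorem det_of_quad {f : ℂ × ℂ → ℂ × ℂ} (hf : Differentiable ℂ f) {a b : ℂ} {U r : ℝ}
    (hr : 0 < r) (hU0 : 0 ≤ U) (ha : ‖a‖ ≤ 1) (hb : ‖b‖ ≤ 1)
    (hU : ∀ p : ℂ × ℂ, ‖p‖ ≤ r → ‖f p - (a * p.1, b * p.2)‖ ≤ U * ‖p‖ ^ 2) :
    ∀ p : ℂ × ℂ, ‖p‖ ≤ r / 4 →
      ‖det2 (fderiv ℂ f p) - a * b‖ ≤ (16 * U + 64 * U ^ 2 * r) * ‖p‖ := by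
  intro p hp
  set h : ℂ × ℂ → ℂ × ℂ := fun q => f q - (a * q.1, b * q.2) with hh
  have hld : Differentiable ℂ (fun q : ℂ × ℂ => (a * q.1, b * q.2)) := by fun_prop
  have hd : Differentiable ℂ h := hf.sub hld
  set E := fderiv ℂ h p with hE
  have hL : ∀ v : ℂ × ℂ, fderiv ℂ (fun q : ℂ × ℂ => (a * q.1, b * q.2)) p v =
      (a * v.1, b * v.2) := by
    intro v
    have h1 : HasFDerivAt (fun q : ℂ × ℂ => (a * q.1, b * q.2))
        ((a • ContinuousLinearMap.fst ℂ ℂ ℂ).prod (b • ContinuousLinearMap.snd ℂ ℂ ℂ)) p := by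
      exact ((ContinuousLinearMap.fst ℂ ℂ ℂ).hasFDerivAt.const_mul a).prodMk
        ((ContinuousLinearMap.snd ℂ ℂ ℂ).hasFDerivAt.const_mul b)
    rw [h1.fderiv]
    simp
  have hfE : ∀ v, fderiv ℂ f p v = (a * v.1, b * v.2) + E v := by
    intro v
    have h1 : f = fun q => h q + (a * q.1, b * q.2) := by
      funext q; simp [hh]
    have h2 : fderiv ℂ f p = E + fderiv ℂ (fun q : ℂ × ℂ => (a * q.1, b * q.2)) p := by
      conv_lhs => rw [h1]
      exact fderiv_fun_add (hd p) (hld p)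
    rw [h2, add_apply, hL, add_comm]
  have key : ∀ ε, 0 < ε → ε ≤ r / 4 → ‖det2 (fderiv ℂ f p) - a * b‖ ≤
      (16 * U + 64 * U ^ 2 * r) * (‖p‖ + ε) := by
    intro ε he her
    set ρ := ‖p‖ + ε with hρ
    have hρ0 : 0 < ρ := by positivity
    have hρr : ρ ≤ r / 2 := by linarith
    have hbd : ∀ q ∈ ball p ρ, ‖h q‖ ≤ 4 * U * ρ ^ 2 := by
      intro q hq
      have h1 : ‖q - p‖ < ρ := by rwa [mem_ball, dist_eq_norm] at hq
      have h2 : ‖q‖ ≤ 2 * ρ := by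
        calc ‖q‖ = ‖p + (q - p)‖ := by congr 1; abel
          _ ≤ ‖p‖ + ‖q - p‖ := norm_add_le _ _
          _ ≤ 2 * ρ := by linarith
      calc ‖h q‖ ≤ U * ‖q‖ ^ 2 := hU q (by linarith)
        _ ≤ U * (2 * ρ) ^ 2 := by gcongr
        _ = _ := by ring
    have hmaps : MapsTo h (ball p ρ) (closedBall (h p) (8 * U * ρ ^ 2)) := by
      intro q hq
      rw [mem_closedBall, dist_eq_norm]
      calc ‖h q - h p‖ ≤ ‖h q‖ + ‖h p‖ := norm_sub_le _ _
        _ ≤ 8 * U * ρ ^ 2 := by linarith [hbd q hq, hbd p (mem_ball_self hρ0)]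
    have hEn : ‖E‖ ≤ 8 * U * ρ := by
      have := Complex.norm_fderiv_le_div_of_mapsTo_ball hd.differentiableOn hmaps hρ0
      calc _ ≤ _ := this
        _ = _ := by field_simp
    have hEv : ∀ v : ℂ × ℂ, ‖v‖ = 1 → ‖(E v).1‖ ≤ 8 * U * ρ ∧ ‖(E v).2‖ ≤ 8 * U * ρ := by
      intro v hv
      have h1 : ‖E v‖ ≤ 8 * U * ρ := by
        calc ‖E v‖ ≤ ‖E‖ * ‖v‖ := E.le_opNorm v
          _ ≤ _ := by rw [hv, mul_one]; exact hEn
      exact ⟨(norm_fst_le _).trans h1, (norm_snd_le _).trans h1⟩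
    have n1 := hEv (1, 0) (by simp [Prod.norm_def])
    have n2 := hEv (0, 1) (by simp [Prod.norm_def])
    have e : det2 (fderiv ℂ f p) - a * b = a * (E (0, 1)).2 + b * (E (1, 0)).1 +
        (E (1, 0)).1 * (E (0, 1)).2 - (E (0, 1)).1 * (E (1, 0)).2 := by
      unfold det2
      rw [hfE, hfE]
      simp
      ring
    rw [e]
    set T := 8 * U * ρ with hT
    have hT0 : 0 ≤ T := by positivity
    calc _ ≤ ‖a * (E (0, 1)).2‖ + ‖b * (E (1, 0)).1‖ + ‖(E (1, 0)).1 * (E (0, 1)).2‖ +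
          ‖(E (0, 1)).1 * (E (1, 0)).2‖ := by
          refine (norm_sub_le _ _).trans ?_
          gcongr
          exact norm_add₃_le
      _ ≤ 1 * T + 1 * T + T * T + T * T := by
          simp only [norm_mul]
          gcongr
          · exact n2.2
          · exact n1.1
          · exact n1.1
          · exact n2.2
          · exact n2.1
          · exact n1.2
      _ = (16 * U + 128 * U ^ 2 * ρ) * ρ := by rw [hT]; ring
      _ ≤ (16 * U + 128 * U ^ 2 * (r / 2)) * ρ := by gcongr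
      _ = _ := by ring
  set K := 16 * U + 64 * U ^ 2 * r with hK
  have hK0 : 0 ≤ K := by positivity
  have hlim : Tendsto (fun ε : ℝ => K * (‖p‖ + ε)) (𝓝[>] 0) (𝓝 (K * ‖p‖)) := by
    have : Tendsto (fun ε : ℝ => K * (‖p‖ + ε)) (𝓝 0) (𝓝 (K * (‖p‖ + 0))) := by
      exact (continuous_const.mul (continuous_const.add continuous_id)).tendsto 0
    rw [add_zero] at this
    exact this.mono_left nhdsWithin_le_nhds
  refine ge_of_tendsto hlim ?_
  filter_upwards [Ioo_mem_nhdsGT (by positivity : (0 : ℝ) < r / 4)] with ε hε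
  exact key ε hε.1 hε.2.le

end Pool.Agent.TH238
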