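import Pool.Agent.TH238.Core
import Pool.Agent.Helper540.Holo

set_option autoImplicit false

/-!
Local limits of conjugations between two sequences of automorphisms of `ℂ²`, and their
globalization, in an abstract form.
-/

namespace Pool.Agent.TH238

open Set Filter Topology Metric

/-- The core displacement estimate. -/
theorem core' {H Hi : ℂ × ℂ → ℂ × ℂ} (hH : Differentiable ℂ H) (hHi : Differentiable ℂ Hi)
    (li : ∀ p, Hi (H p) = p) (ri : ∀ p, H (Hi p) = p) {Jm : ℝ}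
    (hJp : 0 < Jm) {r1 r2 R1 R2 : ℝ}
    (hJ : ∀ p : ℂ × ℂ, ‖p.1‖ ≤ r1 / 2 → ‖p.2‖ ≤ r2 / 2 → Jm ≤ ‖det2 (fderiv ℂ H p)‖)
    (hr1 : 0 < r1) (hr2 : 0 < r2) (hR1 : 0 ≤ R1) (hR2 : 0 ≤ R2)
    (hmap : ∀ p : ℂ × ℂ, ‖p.1‖ ≤ r1 → ‖p.2‖ ≤ r2 → ‖(H p).1‖ ≤ R1 ∧ ‖(H p).2‖ ≤ R2)
    {p δ : ℂ × ℂ} (hp1 : ‖p.1‖ ≤ 3 / 8 * r1) (hp2 : ‖p.2‖ ≤ 3 / 8 * r2) {κ : ℝ}
    (hκ : 2 * (R2 * ‖δ.1‖ + R1 * ‖δ.2‖) / (Jm * (r1 * r2)) < κ) (hκ8 : κ ≤ 1 / 8) :
    ‖(Hi (H p + δ)).1 - p.1‖ ≤ κ * r1 ∧ ‖(Hi (H p + δ)).2 - p.2‖ ≤ κ * r2 := by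
  set u : ℝ → ℂ × ℂ := fun τ => Hi (H p + (τ : ℂ) • δ) with hu
  set u' : ℝ → ℂ × ℂ := fun τ => fderiv ℂ Hi (H p + (τ : ℂ) • δ) δ with hu'
  have hud : ∀ τ : ℝ, HasDerivAt u (u' τ) τ := by
    intro τ
    have h3 : HasDerivAt (fun s : ℂ => H p + s • δ) δ (τ : ℂ) := by
      simpa using ((hasDerivAt_id (τ : ℂ)).smul_const δ).const_add (H p)
    have h4 : HasDerivAt (fun s : ℂ => Hi (H p + s • δ)) (u' τ) (τ : ℂ) :=
      (hHi _).hasFDerivAt.comp_hasDerivAt (τ : ℂ) h3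
    have h5 := h4.scomp τ (Complex.ofRealCLM.hasDerivAt (x := τ))
    rw [Complex.ofRealCLM_apply, Complex.ofReal_one, one_smul] at h5
    exact h5
  have hHu : ∀ τ : ℝ, fderiv ℂ H (u τ) (u' τ) = δ := by
    intro τ
    have h5 : HasFDerivAt (fun q => H (Hi q))
        ((fderiv ℂ H (u τ)).comp (fderiv ℂ Hi (H p + (τ : ℂ) • δ))) (H p + (τ : ℂ) • δ) :=
      (hH _).hasFDerivAt.comp _ (hHi _).hasFDerivAt
    have h6 : HasFDerivAt (fun q => H (Hi q)) (ContinuousLinearMap.id ℂ (ℂ × ℂ))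
        (H p + (τ : ℂ) • δ) := by
      have : (fun q => H (Hi q)) = fun q => q := funext ri
      rw [this]; exact hasFDerivAt_id _
    have h7 := h5.unique h6
    exact congrArg (fun L : ℂ × ℂ →L[ℂ] ℂ × ℂ => L δ) h7
  -- Cramer
  have hcr : ∀ τ : ℝ, det2 (fderiv ℂ H (u τ)) * (u' τ).1 = (fderiv ℂ H (u τ) (0, 1)).2 * δ.1 -
        (fderiv ℂ H (u τ) (0, 1)).1 * δ.2 ∧
      det2 (fderiv ℂ H (u τ)) * (u' τ).2 = (fderiv ℂ H (u τ) (1, 0)).1 * δ.2 -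
        (fderiv ℂ H (u τ) (1, 0)).2 * δ.1 := by
    intro τ
    have h1 := hHu τ
    rw [clm_apply] at h1
    have h2 := congrArg Prod.fst h1
    have h3 := congrArg Prod.snd h1
    simp only [Prod.fst_add, Prod.snd_add, Prod.smul_fst, Prod.smul_snd, smul_eq_mul] at h2 h3
    unfold det2
    rw [← h2, ← h3]
    constructor <;> ring
  set E : ℝ := 2 * (R2 * ‖δ.1‖ + R1 * ‖δ.2‖) / (Jm * (r1 * r2)) with hE
  have hE0 : 0 ≤ E := by positivity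
  have hbd : ∀ τ : ℝ, ‖(u τ).1‖ ≤ r1 / 2 → ‖(u τ).2‖ ≤ r2 / 2 →
      ‖(u' τ).1‖ ≤ E * r1 ∧ ‖(u' τ).2‖ ≤ E * r2 := by
    intro τ h1 h2
    obtain ⟨d1, d2, d3, d4⟩ := partial_bound hH hr1 hr2 hmap h1 h2
    obtain ⟨c1, c2⟩ := hcr τ
    have hJt := hJ (u τ) h1 h2
    constructor
    · have e1 : Jm * ‖(u' τ).1‖ ≤ R2 / (r2 / 2) * ‖δ.1‖ + R1 / (r2 / 2) * ‖δ.2‖ := by
        refine (mul_le_mul_of_nonneg_right hJt (norm_nonneg _)).trans ?_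
        rw [← norm_mul, c1]
        refine (norm_sub_le _ _).trans ?_
        rw [norm_mul, norm_mul]
        exact add_le_add (mul_le_mul_of_nonneg_right d4 (norm_nonneg _))
          (mul_le_mul_of_nonneg_right d3 (norm_nonneg _))
      have e2 : E * r1 = (R2 / (r2 / 2) * ‖δ.1‖ + R1 / (r2 / 2) * ‖δ.2‖) / Jm := by
        rw [hE]; field_simp
      rw [e2, le_div_iff₀ hJp]
      linarith
    · have e1 : Jm * ‖(u' τ).2‖ ≤ R1 / (r1 / 2) * ‖δ.2‖ + R2 / (r1 / 2) * ‖δ.1‖ := by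
        refine (mul_le_mul_of_nonneg_right hJt (norm_nonneg _)).trans ?_
        rw [← norm_mul, c2]
        refine (norm_sub_le _ _).trans ?_
        rw [norm_mul, norm_mul]
        exact add_le_add (mul_le_mul_of_nonneg_right d1 (norm_nonneg _))
          (mul_le_mul_of_nonneg_right d2 (norm_nonneg _))
      have e2 : E * r2 = (R1 / (r1 / 2) * ‖δ.2‖ + R2 / (r1 / 2) * ‖δ.1‖) / Jm := by
        rw [hE]; field_simp; ring
      rw [e2, le_div_iff₀ hJp]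
      linarith
  -- normalised curve
  set f : ℝ → ℂ × ℂ := fun τ => (((r1⁻¹ : ℝ) : ℂ) * ((u τ).1 - p.1),
    ((r2⁻¹ : ℝ) : ℂ) * ((u τ).2 - p.2)) with hf
  set f' : ℝ → ℂ × ℂ := fun τ => (((r1⁻¹ : ℝ) : ℂ) * (u' τ).1,
    ((r2⁻¹ : ℝ) : ℂ) * (u' τ).2) with hf'
  have hfd : ∀ τ : ℝ, HasDerivAt f (f' τ) τ := by
    intro τ
    have h1 : HasDerivAt (fun τ => (u τ).1) (u' τ).1 τ :=
      (hasFDerivAt_fst (𝕜 := ℝ) (p := u τ)).comp_hasDerivAt τ (hud τ)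
    have h2 : HasDerivAt (fun τ => (u τ).2) (u' τ).2 τ :=
      (hasFDerivAt_snd (𝕜 := ℝ) (p := u τ)).comp_hasDerivAt τ (hud τ)
    exact ((h1.sub_const p.1).const_mul _).prodMk ((h2.sub_const p.2).const_mul _)
  have hu0 : u 0 = p := by simp [hu, li]
  have hf0 : f 0 = 0 := by
    rw [hf]; simp [hu0]
  have hn1 : ∀ (r : ℝ) (z : ℂ), 0 < r → ‖((r⁻¹ : ℝ) : ℂ) * z‖ = ‖z‖ / r := by
    intro r z hr
    rw [norm_mul, Complex.norm_real, Real.norm_of_nonneg (by positivity)]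
    field_simp
  have key := image_norm_le_of_norm_deriv_right_lt_deriv_boundary (f := f) (f' := f')
    (a := 0) (b := 1) (B := fun τ => κ * τ) (B' := fun _ => κ)
    (fun τ _ => (hfd τ).continuousAt.continuousWithinAt)
    (fun τ _ => (hfd τ).hasDerivWithinAt) (by rw [hf0]; simp)
    (fun τ => by simpa using (hasDerivAt_id τ).const_mul κ)
    (fun τ hτ hnorm => by
      have h1 : κ * τ ≤ 1 / 8 := by
        have : κ * τ ≤ κ * 1 := mul_le_mul_of_nonneg_left hτ.2.le (hE0.trans hκ.le)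
        linarith
      have h2 : ‖(f τ).1‖ ≤ 1 / 8 := ((norm_fst_le (f τ)).trans hnorm.le).trans h1
      have h3 : ‖(f τ).2‖ ≤ 1 / 8 := ((norm_snd_le (f τ)).trans hnorm.le).trans h1
      rw [hf] at h2 h3
      simp only [] at h2 h3
      rw [hn1 _ _ hr1, div_le_iff₀ hr1] at h2
      rw [hn1 _ _ hr2, div_le_iff₀ hr2] at h3
      have h4 : ‖(u τ).1‖ ≤ r1 / 2 := by
        have : ‖(u τ).1‖ ≤ ‖(u τ).1 - p.1‖ + ‖p.1‖ := by
          simpa using norm_add_le ((u τ).1 - p.1) p.1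
        linarith
      have h5 : ‖(u τ).2‖ ≤ r2 / 2 := by
        have : ‖(u τ).2‖ ≤ ‖(u τ).2 - p.2‖ + ‖p.2‖ := by
          simpa using norm_add_le ((u τ).2 - p.2) p.2
        linarith
      obtain ⟨h6, h7⟩ := hbd τ h4 h5
      refine lt_of_le_of_lt ?_ hκ
      rw [Prod.norm_def]
      apply max_le
      · rw [hf']; simp only []
        rw [hn1 _ _ hr1, div_le_iff₀ hr1]; exact h6
      · rw [hf']; simp only []
        rw [hn1 _ _ hr2, div_le_iff₀ hr2]; exact h7)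
    (x := 1) (by simp)
  have k1 : ‖(f 1).1‖ ≤ κ := ((norm_fst_le (f 1)).trans key).trans (by simp)
  have k2 : ‖(f 1).2‖ ≤ κ := ((norm_snd_le (f 1)).trans key).trans (by simp)
  rw [hf] at k1 k2
  simp only [] at k1 k2
  rw [hn1 _ _ hr1, div_le_iff₀ hr1] at k1
  rw [hn1 _ _ hr2, div_le_iff₀ hr2] at k2
  simp only [hu, Complex.ofReal_one, one_smul] at k1 k2
  exact ⟨k1, k2⟩


/-- forward composition of `k` maps from time `n` on -/
def fwd (f : ℕ → ℂ × ℂ → ℂ × ℂ) (n : ℕ) : ℕ → ℂ × ℂ → ℂ × ℂ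
  | 0 => fun p => p
  | k + 1 => fun p => f (n + k) (fwd f n k p)

/-- composition of the inverses -/
def bwd (f : ℕ → ℂ × ℂ → ℂ × ℂ) (n : ℕ) : ℕ → ℂ × ℂ → ℂ × ℂ
  | 0 => fun p => p
  | k + 1 => fun p => bwd f n k (f (n + k) p)

section basic

variable {f fi : ℕ → ℂ × ℂ → ℂ × ℂ}

theorem fwd_succ (n k : ℕ) (p : ℂ × ℂ) : fwd f n (k + 1) p = f (n + k) (fwd f n k p) := rfl

theorem bwd_succ (n k : ℕ) (p : ℂ × ℂ) : bwd f n (k + 1) p = bwd f n k (f (n + k) p) := rfl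

theorem bwd_fwd (h : ∀ n p, fi n (f n p) = p) (n k : ℕ) (p : ℂ × ℂ) :
    bwd fi n k (fwd f n k p) = p := by
  induction k with
  | zero => rfl
  | succ k ih => rw [fwd_succ, bwd_succ, h, ih]

theorem fwd_bwd (h : ∀ n p, f n (fi n p) = p) (n k : ℕ) (p : ℂ × ℂ) :
    fwd f n k (bwd fi n k p) = p := by
  induction k generalizing p with
  | zero => rfl
  | succ k ih => rw [fwd_succ, bwd_succ, ih, h]

theorem fwd_diff (h : ∀ n, Differentiable ℂ (f n)) (n k : ℕ) :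
    Differentiable ℂ (fwd f n k) := by
  induction k with
  | zero => exact differentiable_id
  | succ k ih => exact (h _).comp ih

theorem bwd_diff (h : ∀ n, Differentiable ℂ (f n)) (n k : ℕ) :
    Differentiable ℂ (bwd f n k) := by
  induction k with
  | zero => exact differentiable_id
  | succ k ih => exact ih.comp (h _)

theorem fwd_add (n j k : ℕ) (p : ℂ × ℂ) :
    fwd f n (j + k) p = fwd f (n + j) k (fwd f n j p) := by
  induction k with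
  | zero => rfl
  | succ k ih => rw [← add_assoc, fwd_succ, fwd_succ, ih, add_assoc]

theorem bwd_add (n j k : ℕ) (p : ℂ × ℂ) :
    bwd f n (j + k) p = bwd f n j (bwd f (n + j) k p) := by
  induction k generalizing p with
  | zero => rfl
  | succ k ih => rw [← add_assoc, bwd_succ, bwd_succ, ih, add_assoc]

theorem fwd_det_succ (h : ∀ n, Differentiable ℂ (f n)) (n k : ℕ) (p : ℂ × ℂ) :
    det2 (fderiv ℂ (fwd f n (k + 1)) p) =
      det2 (fderiv ℂ (f (n + k)) (fwd f n k p)) * det2 (fderiv ℂ (fwd f n k) p) := by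
  have h1 : fwd f n (k + 1) = f (n + k) ∘ fwd f n k := rfl
  rw [h1, fderiv_comp p (h _ _) (fwd_diff h _ _ _), det2_comp]

end basic

/-- Local data at time `n1` for the comparison of two systems. -/
structure LocD (f fi g gi : ℕ → ℂ × ℂ → ℂ × ℂ) (n1 : ℕ) (R1 R2 J : ℕ → ℝ) (A q : ℝ) :
    Prop where
  df : ∀ n, Differentiable ℂ (f n)
  dfi : ∀ n, Differentiable ℂ (fi n)
  dg : ∀ n, Differentiable ℂ (g n)
  dgi : ∀ n, Differentiable ℂ (gi n)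
  lf : ∀ n p, fi n (f n p) = p
  rf : ∀ n p, f n (fi n p) = p
  lg : ∀ n p, gi n (g n p) = p
  rg : ∀ n p, g n (gi n p) = p
  p1 : ∀ n, 0 < R1 n
  p2 : ∀ n, 0 < R2 n
  mf : ∀ n, n1 ≤ n → ∀ p : ℂ × ℂ, ‖p.1‖ ≤ R1 n → ‖p.2‖ ≤ R2 n →
    ‖(f n p).1‖ ≤ R1 (n + 1) ∧ ‖(f n p).2‖ ≤ R2 (n + 1)
  mg : ∀ n, n1 ≤ n → ∀ p : ℂ × ℂ, ‖p.1‖ ≤ R1 n → ‖p.2‖ ≤ R2 n →
    ‖(g n p).1‖ ≤ R1 (n + 1) ∧ ‖(g n p).2‖ ≤ R2 (n + 1)
  Jp : ∀ k, 0 < J k
  jf : ∀ k, ∀ p : ℂ × ℂ, ‖p.1‖ ≤ R1 n1 → ‖p.2‖ ≤ R2 n1 →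
    J k ≤ ‖det2 (fderiv ℂ (fwd f n1 k) p)‖
  jg : ∀ k, ∀ p : ℂ × ℂ, ‖p.1‖ ≤ R1 n1 → ‖p.2‖ ≤ R2 n1 →
    J k ≤ ‖det2 (fderiv ℂ (fwd g n1 k) p)‖
  A0 : 0 < A
  q0 : 0 < q
  q1 : q < 1
  sum : A / (1 - q) ≤ 1 / 8
  diff : ∀ k, ∀ p : ℂ × ℂ, ‖p.1‖ ≤ R1 (n1 + k) → ‖p.2‖ ≤ R2 (n1 + k) →
    2 * (R2 (n1 + k + 1) * ‖(f (n1 + k) p).1 - (g (n1 + k) p).1‖ +
      R1 (n1 + k + 1) * ‖(f (n1 + k) p).2 - (g (n1 + k) p).2‖) /
      (J (k + 1) * (R1 n1 * R2 n1)) < A * q ^ k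
  t1 : Tendsto R1 atTop (𝓝 0)
  t2 : Tendsto R2 atTop (𝓝 0)

/-- boxes -/
def box (R1 R2 : ℕ → ℝ) (n : ℕ) (s : ℝ) : Set (ℂ × ℂ) :=
  {p | ‖p.1‖ ≤ s * R1 n ∧ ‖p.2‖ ≤ s * R2 n}

section

variable {f fi g gi : ℕ → ℂ × ℂ → ℂ × ℂ} {n1 : ℕ} {R1 R2 J : ℕ → ℝ} {A q : ℝ}

theorem LocD.swap (L : LocD f fi g gi n1 R1 R2 J A q) : LocD g gi f fi n1 R1 R2 J A q where
  df := L.dg
  dfi := L.dgi
  dg := L.df
  dgi := L.dfi
  lf := L.lg
  rf := L.rg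
  lg := L.lf
  rg := L.rf
  p1 := L.p1
  p2 := L.p2
  mf := L.mg
  mg := L.mf
  Jp := L.Jp
  jf := L.jg
  jg := L.jf
  A0 := L.A0
  q0 := L.q0
  q1 := L.q1
  sum := L.sum
  diff := fun k p h1 h2 => by
    rw [norm_sub_rev, norm_sub_rev (g (n1 + k) p).2]
    exact L.diff k p h1 h2
  t1 := L.t1
  t2 := L.t2

theorem LocD.fwd_mem (L : LocD f fi g gi n1 R1 R2 J A q) (k : ℕ) {p : ℂ × ℂ}
    (h1 : ‖p.1‖ ≤ R1 n1) (h2 : ‖p.2‖ ≤ R2 n1) :
    ‖(fwd f n1 k p).1‖ ≤ R1 (n1 + k) ∧ ‖(fwd f n1 k p).2‖ ≤ R2 (n1 + k) := by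
  induction k with
  | zero => exact ⟨h1, h2⟩
  | succ k ih => exact L.mf (n1 + k) (by omega) _ ih.1 ih.2

theorem box_mono (p1 : ∀ n, 0 < R1 n) (p2 : ∀ n, 0 < R2 n) {n : ℕ} {s s' : ℝ} (hs : s ≤ s') :
    box R1 R2 n s ⊆ box R1 R2 n s' := by
  rintro p ⟨h1, h2⟩
  exact ⟨h1.trans (mul_le_mul_of_nonneg_right hs (p1 n).le),
    h2.trans (mul_le_mul_of_nonneg_right hs (p2 n).le)⟩

theorem box_one (p1 : ∀ n, 0 < R1 n) (p2 : ∀ n, 0 < R2 n) {n : ℕ} {s : ℝ} (hs : s ≤ 1)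
    {p : ℂ × ℂ} (hp : p ∈ box R1 R2 n s) : ‖p.1‖ ≤ R1 n ∧ ‖p.2‖ ≤ R2 n := by
  obtain ⟨h1, h2⟩ := box_mono p1 p2 hs hp
  exact ⟨by simpa using h1, by simpa using h2⟩

/-- points near a point of a box lie in a bigger box -/
theorem box_near (p1 : ∀ n, 0 < R1 n) (p2 : ∀ n, 0 < R2 n) {n : ℕ} {s s' : ℝ} (hs : s < s')
    {p : ℂ × ℂ} (hp : p ∈ box R1 R2 n s) : ∃ R > 0, ball p R ⊆ box R1 R2 n s' := by
  have h1 := p1 n
  have h2 := p2 n
  refine ⟨(s' - s) * min (R1 n) (R2 n), mul_pos (by linarith) (lt_min h1 h2), fun v hv => ?_⟩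
  rw [mem_ball, dist_eq_norm, Prod.norm_def, max_lt_iff] at hv
  obtain ⟨v1, v2⟩ := hv
  obtain ⟨u1, u2⟩ := hp
  have m1 := min_le_left (R1 n) (R2 n)
  have m2 := min_le_right (R1 n) (R2 n)
  constructor
  · calc ‖v.1‖ = ‖p.1 + (v - p).1‖ := by simp
      _ ≤ ‖p.1‖ + ‖(v - p).1‖ := norm_add_le _ _
      _ ≤ s * R1 n + (s' - s) * min (R1 n) (R2 n) := by linarith
      _ ≤ s * R1 n + (s' - s) * R1 n := by
          have := mul_le_mul_of_nonneg_left m1 (by linarith : 0 ≤ s' - s)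
          linarith
      _ = s' * R1 n := by ring
  · calc ‖v.2‖ = ‖p.2 + (v - p).2‖ := by simp
      _ ≤ ‖p.2‖ + ‖(v - p).2‖ := norm_add_le _ _
      _ ≤ s * R2 n + (s' - s) * min (R1 n) (R2 n) := by linarith
      _ ≤ s * R2 n + (s' - s) * R2 n := by
          have := mul_le_mul_of_nonneg_left m2 (by linarith : 0 ≤ s' - s)
          linarith
      _ = s' * R2 n := by ring

/-- one step of the displacement -/
theorem LocD.disp_step (L : LocD f fi g gi n1 R1 R2 J A q) (k : ℕ) {v : ℂ × ℂ}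
    (hv1 : ‖v.1‖ ≤ R1 n1) (hv2 : ‖v.2‖ ≤ R2 n1)
    (h1 : ‖(bwd gi n1 k (fwd f n1 k v)).1‖ ≤ 3 / 8 * R1 n1)
    (h2 : ‖(bwd gi n1 k (fwd f n1 k v)).2‖ ≤ 3 / 8 * R2 n1) :
    ‖(bwd gi n1 (k + 1) (fwd f n1 (k + 1) v)).1 - (bwd gi n1 k (fwd f n1 k v)).1‖ ≤
      A * q ^ k * R1 n1 ∧
    ‖(bwd gi n1 (k + 1) (fwd f n1 (k + 1) v)).2 - (bwd gi n1 k (fwd f n1 k v)).2‖ ≤
      A * q ^ k * R2 n1 := by
  have hA := L.A0
  have hq0 := L.q0
  have hq1 := L.q1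
  have hr1 := L.p1 n1
  have hr2 := L.p2 n1
  set w := fwd f n1 k v with hw
  set p := bwd gi n1 k w with hp
  have hwp : fwd g n1 k p = w := fwd_bwd L.rg n1 k w
  obtain ⟨w1, w2⟩ := L.fwd_mem k hv1 hv2
  have e1 : fwd f n1 (k + 1) v =
      fwd g n1 (k + 1) p + (f (n1 + k) w - g (n1 + k) w) := by
    rw [fwd_succ, fwd_succ, hwp, ← hw]; abel
  rw [e1]
  have hκ8 : A * q ^ k ≤ 1 / 8 := by
    have h3 : q ^ k ≤ 1 := pow_le_one₀ hq0.le hq1.le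
    have h4 : A ≤ A / (1 - q) := by
      rw [le_div_iff₀ (by linarith)]
      nlinarith
    calc A * q ^ k ≤ A * 1 := mul_le_mul_of_nonneg_left h3 hA.le
      _ ≤ 1 / 8 := by linarith [L.sum]
  refine core' (Jm := J (k + 1)) (R1 := R1 (n1 + k + 1)) (R2 := R2 (n1 + k + 1))
    (fwd_diff L.dg n1 (k + 1)) (bwd_diff L.dgi n1 (k + 1))
    (bwd_fwd L.lg n1 (k + 1)) (fwd_bwd L.rg n1 (k + 1)) (L.Jp _) ?_ hr1 hr2
    (L.p1 _).le (L.p2 _).le ?_ h1 h2 ?_ hκ8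
  · intro u u1 u2
    exact L.jg (k + 1) u (by linarith) (by linarith)
  · intro u u1 u2
    exact L.swap.fwd_mem (k + 1) u1 u2
  · exact L.diff k w w1 w2

theorem LocD.disp_sum (L : LocD f fi g gi n1 R1 R2 J A q) {v : ℂ × ℂ}
    (hv : v ∈ box R1 R2 n1 (1 / 4)) (k : ℕ) :
    ‖(bwd gi n1 k (fwd f n1 k v)).1 - v.1‖ ≤ 1 / 8 * R1 n1 ∧
    ‖(bwd gi n1 k (fwd f n1 k v)).2 - v.2‖ ≤ 1 / 8 * R2 n1 := by
  have h1 := L.p1 n1
  have h2 := L.p2 n1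
  have hA := L.A0
  have hq0 := L.q0
  have hq1 := L.q1
  have hsum : ∀ k : ℕ, A * ∑ j ∈ Finset.range k, q ^ j ≤ 1 / 8 := by
    intro k
    have e1 : (∑ j ∈ Finset.range k, q ^ j) * (1 - q) = 1 - q ^ k := geom_sum_mul_neg _ _
    have e2 : 0 < q ^ k := by positivity
    have e4 : (∑ j ∈ Finset.range k, q ^ j) ≤ 1 / (1 - q) := by
      rw [le_div_iff₀ (by linarith)]; linarith
    calc A * ∑ j ∈ Finset.range k, q ^ j ≤ A * (1 / (1 - q)) :=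
          mul_le_mul_of_nonneg_left e4 hA.le
      _ = A / (1 - q) := by ring
      _ ≤ 1 / 8 := L.sum
  have key : ∀ k : ℕ, ‖(bwd gi n1 k (fwd f n1 k v)).1 - v.1‖ ≤
      (A * ∑ j ∈ Finset.range k, q ^ j) * R1 n1 ∧
    ‖(bwd gi n1 k (fwd f n1 k v)).2 - v.2‖ ≤
      (A * ∑ j ∈ Finset.range k, q ^ j) * R2 n1 := by
    intro k
    induction k with
    | zero => simp [fwd, bwd]
    | succ k ih =>
      obtain ⟨i1, i2⟩ := ih
      obtain ⟨v1, v2⟩ := hv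
      have g1 : ‖(bwd gi n1 k (fwd f n1 k v)).1‖ ≤ 3 / 8 * R1 n1 := by
        have := mul_le_mul_of_nonneg_right (hsum k) h1.le
        have e5 := norm_add_le ((bwd gi n1 k (fwd f n1 k v)).1 - v.1) v.1
        rw [sub_add_cancel] at e5
        linarith
      have g2 : ‖(bwd gi n1 k (fwd f n1 k v)).2‖ ≤ 3 / 8 * R2 n1 := by
        have := mul_le_mul_of_nonneg_right (hsum k) h2.le
        have e5 := norm_add_le ((bwd gi n1 k (fwd f n1 k v)).2 - v.2) v.2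
        rw [sub_add_cancel] at e5
        linarith
      obtain ⟨d1, d2⟩ := L.disp_step k (by linarith) (by linarith) g1 g2
      rw [Finset.sum_range_succ]
      constructor
      · have e5 := norm_add_le ((bwd gi n1 (k + 1) (fwd f n1 (k + 1) v)).1 -
          (bwd gi n1 k (fwd f n1 k v)).1) ((bwd gi n1 k (fwd f n1 k v)).1 - v.1)
        rw [sub_add_sub_cancel] at e5
        calc _ ≤ _ := e5
          _ ≤ A * q ^ k * R1 n1 + (A * ∑ j ∈ Finset.range k, q ^ j) * R1 n1 :=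
              add_le_add d1 i1
          _ = _ := by ring
      · have e5 := norm_add_le ((bwd gi n1 (k + 1) (fwd f n1 (k + 1) v)).2 -
          (bwd gi n1 k (fwd f n1 k v)).2) ((bwd gi n1 k (fwd f n1 k v)).2 - v.2)
        rw [sub_add_sub_cancel] at e5
        calc _ ≤ _ := e5
          _ ≤ A * q ^ k * R2 n1 + (A * ∑ j ∈ Finset.range k, q ^ j) * R2 n1 :=
              add_le_add d2 i2
          _ = _ := by ring
  obtain ⟨k1, k2⟩ := key k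
  exact ⟨k1.trans (mul_le_mul_of_nonneg_right (hsum k) h1.le),
    k2.trans (mul_le_mul_of_nonneg_right (hsum k) h2.le)⟩

theorem LocD.dist_step (L : LocD f fi g gi n1 R1 R2 J A q) {v : ℂ × ℂ}
    (hv : v ∈ box R1 R2 n1 (1 / 4)) (k : ℕ) :
    dist (bwd gi n1 k (fwd f n1 k v)) (bwd gi n1 (k + 1) (fwd f n1 (k + 1) v)) ≤
      (A * max (R1 n1) (R2 n1)) * q ^ k := by
  obtain ⟨v1, v2⟩ := id hv
  obtain ⟨i1, i2⟩ := L.disp_sum hv k
  have hA := L.A0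
  have hq0 := L.q0
  have h1 := L.p1 n1
  have h2 := L.p2 n1
  have g1 : ‖(bwd gi n1 k (fwd f n1 k v)).1‖ ≤ 3 / 8 * R1 n1 := by
    have e5 := norm_add_le ((bwd gi n1 k (fwd f n1 k v)).1 - v.1) v.1
    rw [sub_add_cancel] at e5
    linarith
  have g2 : ‖(bwd gi n1 k (fwd f n1 k v)).2‖ ≤ 3 / 8 * R2 n1 := by
    have e5 := norm_add_le ((bwd gi n1 k (fwd f n1 k v)).2 - v.2) v.2
    rw [sub_add_cancel] at e5
    linarith
  obtain ⟨d1, d2⟩ := L.disp_step k (by linarith) (by linarith) g1 g2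
  rw [dist_comm, dist_eq_norm, Prod.norm_def, max_le_iff]
  have m1 := le_max_left (R1 n1) (R2 n1)
  have m2 := le_max_right (R1 n1) (R2 n1)
  constructor
  · calc _ ≤ A * q ^ k * R1 n1 := d1
      _ ≤ A * q ^ k * max (R1 n1) (R2 n1) := mul_le_mul_of_nonneg_left m1 (by positivity)
      _ = _ := by ring
  · calc _ ≤ A * q ^ k * R2 n1 := d2
      _ ≤ A * q ^ k * max (R1 n1) (R2 n1) := mul_le_mul_of_nonneg_left m2 (by positivity)
      _ = _ := by ring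

/-- existence of the local limit -/
theorem LocD.lim (L : LocD f fi g gi n1 R1 R2 J A q) :
    ∃ Θ : ℂ × ℂ → ℂ × ℂ,
      (∀ v ∈ box R1 R2 n1 (1 / 4), ‖(Θ v).1 - v.1‖ ≤ 1 / 8 * R1 n1 ∧
        ‖(Θ v).2 - v.2‖ ≤ 1 / 8 * R2 n1) ∧
      TendstoUniformlyOn (fun k v => bwd gi n1 k (fwd f n1 k v)) Θ atTop
        (box R1 R2 n1 (1 / 4)) ∧
      ∀ v ∈ box R1 R2 n1 (1 / 8), DifferentiableAt ℂ Θ v := by
  have hq0 := L.q0
  have hq1 := L.q1
  set B := A * max (R1 n1) (R2 n1) with hB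
  have hlim : ∀ v ∈ box R1 R2 n1 (1 / 4), ∃ u,
      Tendsto (fun k => bwd gi n1 k (fwd f n1 k v)) atTop (𝓝 u) := by
    intro v hv
    exact cauchySeq_tendsto_of_complete
      (cauchySeq_of_le_geometric q B hq1 (L.dist_step hv))
  choose! Θ hΘ using hlim
  have hunif : TendstoUniformlyOn (fun k v => bwd gi n1 k (fwd f n1 k v)) Θ atTop
        (box R1 R2 n1 (1 / 4)) := by
    rw [Metric.tendstoUniformlyOn_iff]
    intro ε hε
    have h0 : Tendsto (fun k : ℕ => B * q ^ k / (1 - q)) atTop (𝓝 0) := by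
      have := ((tendsto_pow_atTop_nhds_zero_of_lt_one hq0.le hq1).const_mul B).div_const
        (1 - q)
      simpa using this
    filter_upwards [(tendsto_order.1 h0).2 ε hε] with k hk v hv
    rw [dist_comm]
    exact lt_of_le_of_lt (dist_le_of_le_geometric_of_tendsto q B hq1
      (L.dist_step hv) (hΘ v hv) k) hk
  refine ⟨Θ, fun v hv => ⟨?_, ?_⟩, hunif, fun v hv => ?_⟩
  · refine le_of_tendsto ((((continuous_fst.tendsto _).comp (hΘ v hv)).sub_const v.1).norm) ?_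
    exact Eventually.of_forall fun k => (L.disp_sum hv k).1
  · refine le_of_tendsto ((((continuous_snd.tendsto _).comp (hΘ v hv)).sub_const v.2).norm) ?_
    exact Eventually.of_forall fun k => (L.disp_sum hv k).2
  · obtain ⟨r, hr, hball⟩ := box_near L.p1 L.p2 (s' := 1 / 4) (by norm_num) hv
    have h1 := Pool.Agent.Helper540.differentiableOn_of_uniform_limit (c := v) (R := r)
      (f := fun k v => bwd gi n1 k (fwd f n1 k v)) (g := Θ)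
      (fun k => ((bwd_diff L.dgi n1 k).comp (fwd_diff L.df n1 k)).differentiableOn)
      (hunif.mono hball)
    exact (h1 v (mem_ball_self (by linarith))).differentiableAt
      (ball_mem_nhds v (by linarith))

/-- the two local limits are inverse to each other -/
theorem LocD.inv (L : LocD f fi g gi n1 R1 R2 J A q) {Θ Θ' : ℂ × ℂ → ℂ × ℂ}
    (h1 : ∀ v ∈ box R1 R2 n1 (1 / 4), ‖(Θ v).1 - v.1‖ ≤ 1 / 8 * R1 n1 ∧
        ‖(Θ v).2 - v.2‖ ≤ 1 / 8 * R2 n1)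
    (h2 : TendstoUniformlyOn (fun k v => bwd gi n1 k (fwd f n1 k v)) Θ atTop
        (box R1 R2 n1 (1 / 4)))
    (h2' : TendstoUniformlyOn (fun k v => bwd fi n1 k (fwd g n1 k v)) Θ' atTop
        (box R1 R2 n1 (1 / 4)))
    {v : ℂ × ℂ} (hv : v ∈ box R1 R2 n1 (1 / 16)) :
    Θ v ∈ box R1 R2 n1 (3 / 16) ∧ Θ' (Θ v) = v := by
  have hv4 : v ∈ box R1 R2 n1 (1 / 4) := box_mono L.p1 L.p2 (by norm_num) hv
  have hm : Θ v ∈ box R1 R2 n1 (3 / 16) := by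
    obtain ⟨a1, a2⟩ := h1 v hv4
    obtain ⟨b1, b2⟩ := hv
    constructor
    · have e5 := norm_add_le ((Θ v).1 - v.1) v.1
      rw [sub_add_cancel] at e5
      linarith
    · have e5 := norm_add_le ((Θ v).2 - v.2) v.2
      rw [sub_add_cancel] at e5
      linarith
  refine ⟨hm, ?_⟩
  obtain ⟨r, hr, hball⟩ := box_near L.p1 L.p2 (s' := 1 / 4) (by norm_num) hm
  have hm4 : Θ v ∈ box R1 R2 n1 (1 / 4) := box_mono L.p1 L.p2 (by norm_num) hm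
  have hcont : ContinuousOn Θ' (box R1 R2 n1 (1 / 4)) := by
    refine h2'.continuousOn (Frequently.of_forall fun k => ?_)
    exact ((bwd_diff L.dfi n1 k).comp (fwd_diff L.dg n1 k)).continuous.continuousOn
  have ht : Tendsto (fun k => bwd gi n1 k (fwd f n1 k v)) atTop (𝓝 (Θ v)) :=
    h2.tendsto_at hv4
  have ht' : Tendsto (fun k => bwd gi n1 k (fwd f n1 k v)) atTop
      (𝓝[box R1 R2 n1 (1 / 4)] (Θ v)) := by
    rw [tendsto_nhdsWithin_iff]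
    refine ⟨ht, ?_⟩
    filter_upwards [ht (ball_mem_nhds _ hr)] with k hk
    exact hball hk
  have h3 := h2'.tendstoLocallyUniformlyOn.tendsto_comp (hcont _ hm4) hm4 ht'
  have h4 : (fun k => bwd fi n1 k (fwd g n1 k
      (bwd gi n1 k (fwd f n1 k v)))) = fun _ => v := by
    funext k
    rw [fwd_bwd L.rg, bwd_fwd L.lf]
  rw [h4] at h3
  exact tendsto_nhds_unique h3 tendsto_const_nhds

end

/-- points whose orbit under `f` enters a small box -/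
def AdmD (f fi g gi : ℕ → ℂ × ℂ → ℂ × ℂ) (s : ℝ) (p : ℂ × ℂ) : Prop :=
  ∃ (n1 : ℕ) (R1 R2 J : ℕ → ℝ) (A q : ℝ), LocD f fi g gi n1 R1 R2 J A q ∧
    fwd f 0 n1 p ∈ box R1 R2 n1 s

/-- the conjugation between two systems -/
noncomputable def PhiD (f gi : ℕ → ℂ × ℂ → ℂ × ℂ) (p : ℂ × ℂ) : ℂ × ℂ :=
  limUnder atTop (fun n => bwd gi 0 n (fwd f 0 n p))

section

variable {f fi g gi : ℕ → ℂ × ℂ → ℂ × ℂ}

theorem globD {p : ℂ × ℂ} (hp : AdmD f fi g gi (1 / 16) p) :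
    DifferentiableAt ℂ (PhiD f gi) p ∧ PhiD g fi (PhiD f gi p) = p ∧
      AdmD g gi f fi (3 / 16) (PhiD f gi p) := by
  obtain ⟨n1, R1, R2, J, A, q, L, hmem⟩ := hp
  obtain ⟨Θ, h1, h2, h3⟩ := L.lim
  obtain ⟨Θ', h1', h2', h3'⟩ := L.swap.lim
  have key : ∀ (u vi : ℕ → ℂ × ℂ → ℂ × ℂ) (_ : ∀ n, Differentiable ℂ (vi n))
      (Ξ : ℂ × ℂ → ℂ × ℂ),
      TendstoUniformlyOn (fun k v => bwd vi n1 k (fwd u n1 k v)) Ξ atTop
        (box R1 R2 n1 (1 / 4)) → ∀ q, fwd u 0 n1 q ∈ box R1 R2 n1 (1 / 4) →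
      PhiD u vi q = bwd vi 0 n1 (Ξ (fwd u 0 n1 q)) := by
    intro u vi hvi Ξ hΞ q hq
    have e1 : Tendsto (fun k => bwd vi n1 k (fwd u n1 k (fwd u 0 n1 q))) atTop
        (𝓝 (Ξ (fwd u 0 n1 q))) := hΞ.tendsto_at hq
    have e2 := ((bwd_diff hvi 0 n1).continuous.tendsto (Ξ (fwd u 0 n1 q))).comp e1
    apply Tendsto.limUnder_eq
    rw [← tendsto_add_atTop_iff_nat n1]
    refine e2.congr fun k => ?_
    show bwd vi 0 n1 (bwd vi n1 k (fwd u n1 k (fwd u 0 n1 q))) =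
      bwd vi 0 (k + n1) (fwd u 0 (k + n1) q)
    rw [add_comm k n1, bwd_add, fwd_add, zero_add]
  refine ⟨?_, ?_, ?_⟩
  · have hmem8 : fwd f 0 n1 p ∈ box R1 R2 n1 (1 / 8) := box_mono L.p1 L.p2 (by norm_num) hmem
    have hD : DifferentiableAt ℂ (fun q => bwd gi 0 n1 (Θ (fwd f 0 n1 q))) p :=
      (bwd_diff L.dgi 0 n1 _).comp p ((h3 _ hmem8).comp p (fwd_diff L.df 0 n1 p))
    refine hD.congr_of_eventuallyEq ?_
    obtain ⟨r, hr, hball⟩ := box_near L.p1 L.p2 (s' := 1 / 4) (by norm_num) hmem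
    have hcont := (fwd_diff L.df 0 n1).continuous.tendsto p
    filter_upwards [hcont (ball_mem_nhds _ hr)] with q hq
    exact key f gi L.dgi Θ h2 q (hball hq)
  · obtain ⟨i1, i2⟩ := L.inv h1 h2 h2' hmem
    rw [key f gi L.dgi Θ h2 p (box_mono L.p1 L.p2 (by norm_num) hmem)]
    rw [key g fi L.dfi Θ' h2' _
      (by rw [fwd_bwd L.rg]; exact box_mono L.p1 L.p2 (by norm_num) i1)]
    rw [fwd_bwd L.rg, i2, bwd_fwd L.lf]
  · obtain ⟨i1, i2⟩ := L.inv h1 h2 h2' hmem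
    refine ⟨n1, R1, R2, J, A, q, L.swap, ?_⟩
    rw [key f gi L.dgi Θ h2 p (box_mono L.p1 L.p2 (by norm_num) hmem), fwd_bwd L.rg]
    exact i1

/-- admissible points are attracted; this is an open condition -/
theorem adm_attrD {p : ℂ × ℂ} {s : ℝ} (hs : s < 1) (hp : AdmD f fi g gi s p) :
    ∀ᶠ q in 𝓝 p, Tendsto (fun n => fwd f 0 n q) atTop (𝓝 0) := by
  obtain ⟨n1, R1, R2, J, A, q, L, hmem⟩ := hp
  obtain ⟨r, hr, hball⟩ := box_near L.p1 L.p2 hs hmem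
  have hcont := (fwd_diff L.df 0 n1).continuous.tendsto p
  filter_upwards [hcont (ball_mem_nhds _ hr)] with q hq
  obtain ⟨u1, u2⟩ := box_one L.p1 L.p2 le_rfl (hball hq)
  rw [← tendsto_add_atTop_iff_nat n1]
  have ht : Tendsto (fun k => max (R1 (k + n1)) (R2 (k + n1))) atTop (𝓝 0) := by
    have := ((tendsto_add_atTop_iff_nat n1).2 L.t1).max ((tendsto_add_atTop_iff_nat n1).2 L.t2)
    simpa using this
  refine squeeze_zero_norm (fun k => ?_) ht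
  obtain ⟨m1, m2⟩ := L.fwd_mem k u1 u2
  rw [Prod.norm_def, add_comm k n1, fwd_add, zero_add]
  exact max_le_max m1 m2

/-- The abstract main theorem. -/
theorem mainD (hg : ∀ p, AdmD g gi f fi (1 / 16) p)
    (hf : ∀ p, Tendsto (fun n => fwd f 0 n p) atTop (𝓝 0) → AdmD f fi g gi (1 / 16) p) :
    IsOpen {p | Tendsto (fun n => fwd f 0 n p) atTop (𝓝 0)} ∧
    ∃ φ ψ : ℂ × ℂ → ℂ × ℂ, Differentiable ℂ φ ∧
      DifferentiableOn ℂ ψ {p | Tendsto (fun n => fwd f 0 n p) atTop (𝓝 0)} ∧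
      range φ = {p | Tendsto (fun n => fwd f 0 n p) atTop (𝓝 0)} ∧
      (∀ p, ψ (φ p) = p) ∧
      ∀ p ∈ {p | Tendsto (fun n => fwd f 0 n p) atTop (𝓝 0)}, φ (ψ p) = p := by
  set Ω : Set (ℂ × ℂ) := {p | Tendsto (fun n => fwd f 0 n p) atTop (𝓝 0)} with hΩ
  have h1 : ∀ p : ℂ × ℂ, _ := fun p => globD (hg p)
  have h2 : ∀ p ∈ Ω, _ := fun p hp => globD (hf p hp)
  have h3 : ∀ p, PhiD g fi p ∈ Ω := fun p =>
    (adm_attrD (by norm_num) (h1 p).2.2).self_of_nhds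
  refine ⟨?_, PhiD g fi, PhiD f gi,
    fun p => (h1 p).1, fun p hp => (h2 p hp).1.differentiableWithinAt, ?_,
    fun p => (h1 p).2.1, fun p hp => (h2 p hp).2.1⟩
  · rw [isOpen_iff_mem_nhds]
    intro p hp
    exact adm_attrD (by norm_num) (hf p hp)
  · ext q
    constructor
    · rintro ⟨p, rfl⟩
      exact h3 p
    · intro hq
      exact ⟨_, (h2 q hq).2.1⟩

end

end Pool.Agent.TH238
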