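import Pool.Agent.TH238.T4Fin
import Pool.Agent.TH238.T4Jet

set_option autoImplicit false

/-!
Reduction to normal form: removing the harmless quadratic monomials by automorphisms.
-/

namespace Pool.Agent.TH238

open Set Filter Topology Metric

/-- Quadratic size and Lipschitz bound. -/
def QB (q : ℂ × ℂ → ℂ × ℂ) (U : ℝ) : Prop :=
  q 0 = 0 ∧ ∀ p p' : ℂ × ℂ, ‖q p - q p'‖ ≤ U * (‖p‖ + ‖p'‖) * ‖p - p'‖

theorem QB.bd {q : ℂ × ℂ → ℂ × ℂ} {U : ℝ} (h : QB q U) (p : ℂ × ℂ) : ‖q p‖ ≤ U * ‖p‖ ^ 2 := by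
  have := h.2 p 0
  rw [h.1, sub_zero, sub_zero, norm_zero, add_zero] at this
  calc _ ≤ _ := this
    _ = _ := by ring

theorem QB.mono {q : ℂ × ℂ → ℂ × ℂ} {U U' : ℝ} (h : QB q U) (hU : U ≤ U') : QB q U' := by
  refine ⟨h.1, fun p p' => (h.2 p p').trans ?_⟩
  gcongr

/-- Second order Taylor expansion with diagonal linear part. -/
def Jet (f : ℂ × ℂ → ℂ × ℂ) (a b : ℂ) (q : ℂ × ℂ → ℂ × ℂ) (M r : ℝ) : Prop :=
  ∀ p : ℂ × ℂ, ‖p‖ ≤ r → ‖f p - ((a * p.1, b * p.2) + q p)‖ ≤ M * ‖p‖ ^ 3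

theorem norm_diag_le {a b : ℂ} (ha : ‖a‖ ≤ 1) (hb : ‖b‖ ≤ 1) (p : ℂ × ℂ) :
    ‖((a * p.1, b * p.2) : ℂ × ℂ)‖ ≤ ‖p‖ := by
  rw [Prod.norm_def, Prod.norm_def]
  simp only [norm_mul]
  apply max_le_max
  · exact mul_le_of_le_one_left (norm_nonneg _) ha
  · exact mul_le_of_le_one_left (norm_nonneg _) hb

theorem QB.comp {q q' : ℂ × ℂ → ℂ × ℂ} {U : ℝ} (hU : 0 ≤ U) (h : QB q U) (h' : QB q' U)
    {a b a' b' : ℂ} (ha : ‖a‖ ≤ 1) (hb : ‖b‖ ≤ 1) (ha' : ‖a'‖ ≤ 1) (hb' : ‖b'‖ ≤ 1) :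
    QB (fun p => (a' * (q p).1, b' * (q p).2) + q' (a * p.1, b * p.2)) (2 * U) := by
  have h0 : ((0 : ℂ), (0 : ℂ)) = 0 := rfl
  refine ⟨by simp [h.1, h0, h'.1], fun p p' => ?_⟩
  have e : ((a' * (q p).1, b' * (q p).2) + q' (a * p.1, b * p.2)) -
      ((a' * (q p').1, b' * (q p').2) + q' (a * p'.1, b * p'.2)) =
      (a' * (q p - q p').1, b' * (q p - q p').2) +
      (q' (a * p.1, b * p.2) - q' (a * p'.1, b * p'.2)) := by
    ext <;> simp <;> ring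
  simp only
  rw [e]
  have h1 := (norm_diag_le ha' hb' (q p - q p')).trans (h.2 p p')
  have h2 := h'.2 (a * p.1, b * p.2) (a * p'.1, b * p'.2)
  have h3 : ((a * p.1, b * p.2) : ℂ × ℂ) - (a * p'.1, b * p'.2) =
      (a * (p - p').1, b * (p - p').2) := by
    ext <;> simp <;> ring
  rw [h3] at h2
  have h4 : U * (‖((a * p.1, b * p.2) : ℂ × ℂ)‖ + ‖((a * p'.1, b * p'.2) : ℂ × ℂ)‖) *
      ‖((a * (p - p').1, b * (p - p').2) : ℂ × ℂ)‖ ≤ U * (‖p‖ + ‖p'‖) * ‖p - p'‖ := by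
    gcongr
    · exact norm_diag_le ha hb p
    · exact norm_diag_le ha hb p'
    · exact norm_diag_le ha hb (p - p')
  calc _ ≤ _ := norm_add_le _ _
    _ ≤ U * (‖p‖ + ‖p'‖) * ‖p - p'‖ + U * (‖p‖ + ‖p'‖) * ‖p - p'‖ :=
        add_le_add h1 (h2.trans h4)
    _ = _ := by ring

theorem Jet.comp {f g q q' : ℂ × ℂ → ℂ × ℂ} {a b a' b' : ℂ} {U M r : ℝ} (hU : 0 ≤ U)
    (hM : 0 ≤ M) (hq : QB q U) (hq' : QB q' U) (ha : ‖a‖ ≤ 1) (hb : ‖b‖ ≤ 1)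
    (ha' : ‖a'‖ ≤ 1) (hb' : ‖b'‖ ≤ 1) (hf : Jet f a b q M r) (hg : Jet g a' b' q' M r) {r' : ℝ}
    (h1 : r' ≤ 1) (h2 : r' ≤ r / 2) (h3 : (U + M) * r' ≤ 1) :
    Jet (fun p => g (f p)) (a' * a) (b' * b)
      (fun p => (a' * (q p).1, b' * (q p).2) + q' (a * p.1, b * p.2))
      (9 * M + 3 * U * (U + M)) r' := by
  intro p hp
  have hp0 := norm_nonneg p
  have hr : ‖p‖ ≤ r := by linarith
  set L : ℂ × ℂ := (a * p.1, b * p.2) with hL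
  set R : ℂ × ℂ := f p - (L + q p) with hR
  have hRn : ‖R‖ ≤ M * ‖p‖ ^ 3 := hf p hr
  have hLn : ‖L‖ ≤ ‖p‖ := norm_diag_le ha hb p
  have hfp : f p = L + (q p + R) := by rw [hR]; abel
  have hqR : ‖q p + R‖ ≤ (U + M) * ‖p‖ ^ 2 := by
    calc ‖q p + R‖ ≤ ‖q p‖ + ‖R‖ := norm_add_le _ _
      _ ≤ U * ‖p‖ ^ 2 + M * ‖p‖ ^ 3 := add_le_add (hq.bd p) hRn
      _ = (U + M * ‖p‖) * ‖p‖ ^ 2 := by ring
      _ ≤ (U + M * 1) * ‖p‖ ^ 2 := by gcongr; linarith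
      _ = _ := by ring
  have hfn : ‖f p‖ ≤ 2 * ‖p‖ := by
    rw [hfp]
    calc ‖L + (q p + R)‖ ≤ ‖L‖ + ‖q p + R‖ := norm_add_le _ _
      _ ≤ ‖p‖ + (U + M) * ‖p‖ ^ 2 := add_le_add hLn hqR
      _ = ‖p‖ + ((U + M) * ‖p‖) * ‖p‖ := by ring
      _ ≤ ‖p‖ + ((U + M) * r') * ‖p‖ := by gcongr
      _ ≤ ‖p‖ + 1 * ‖p‖ := by gcongr
      _ = _ := by ring
  have hR' : ‖g (f p) - ((a' * (f p).1, b' * (f p).2) + q' (f p))‖ ≤ M * (2 * ‖p‖) ^ 3 := by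
    refine (hg (f p) (hfn.trans (by linarith))).trans ?_
    gcongr
  have hq'2 : ‖q' (f p) - q' L‖ ≤ U * (3 * ‖p‖) * ((U + M) * ‖p‖ ^ 2) := by
    refine (hq'.2 (f p) L).trans ?_
    have e : f p - L = q p + R := by rw [hfp]; abel
    rw [e]
    gcongr
    linarith
  have e : g (f p) - ((a' * a * p.1, b' * b * p.2) +
      ((a' * (q p).1, b' * (q p).2) + q' L)) =
      (g (f p) - ((a' * (f p).1, b' * (f p).2) + q' (f p))) + (q' (f p) - q' L) +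
      (a' * R.1, b' * R.2) := by
    have e1 : ((a' * (f p).1, b' * (f p).2) : ℂ × ℂ) =
        (a' * a * p.1, b' * b * p.2) + (a' * (q p).1, b' * (q p).2) + (a' * R.1, b' * R.2) := by
      rw [hfp]
      ext <;> simp [hL] <;> ring
    rw [e1]; abel
  show ‖g (f p) - ((a' * a * p.1, b' * b * p.2) +
      ((a' * (q p).1, b' * (q p).2) + q' L))‖ ≤ _
  rw [e]
  calc _ ≤ ‖g (f p) - ((a' * (f p).1, b' * (f p).2) + q' (f p))‖ + ‖q' (f p) - q' L‖ +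
        ‖((a' * R.1, b' * R.2) : ℂ × ℂ)‖ := norm_add₃_le
    _ ≤ M * (2 * ‖p‖) ^ 3 + U * (3 * ‖p‖) * ((U + M) * ‖p‖ ^ 2) + M * ‖p‖ ^ 3 := by
        gcongr
        exact (norm_diag_le ha' hb' R).trans hRn
    _ = _ := by ring

/-- Uniform jets of a sequence. -/
def UJ (f : ℕ → ℂ × ℂ → ℂ × ℂ) (a b : ℕ → ℂ) (q : ℕ → ℂ × ℂ → ℂ × ℂ) : Prop :=
  (∀ n, ‖a n‖ ≤ 1) ∧ (∀ n, ‖b n‖ ≤ 1) ∧ ∃ U M r : ℝ, 0 ≤ U ∧ 0 ≤ M ∧ 0 < r ∧
    (∀ n, QB (q n) U) ∧ ∀ n, Jet (f n) (a n) (b n) (q n) M r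

theorem Jet.mono {f q : ℂ × ℂ → ℂ × ℂ} {a b : ℂ} {M M' r r' : ℝ} (h : Jet f a b q M r)
    (hM : M ≤ M') (hr : r' ≤ r) : Jet f a b q M' r' := by
  intro p hp
  refine (h p (hp.trans hr)).trans ?_
  gcongr

theorem UJ.comp {f g : ℕ → ℂ × ℂ → ℂ × ℂ} {a b a' b' : ℕ → ℂ} {q q' : ℕ → ℂ × ℂ → ℂ × ℂ}
    (hf : UJ f a b q) (hg : UJ g a' b' q') :
    UJ (fun n p => g n (f n p)) (fun n => a' n * a n) (fun n => b' n * b n)
      (fun n p => (a' n * (q n p).1, b' n * (q n p).2) + q' n (a n * p.1, b n * p.2)) := by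
  obtain ⟨ha, hb, U, M, r, hU, hM, hr, hq, hj⟩ := hf
  obtain ⟨ha', hb', U', M', r', hU', hM', hr', hq', hj'⟩ := hg
  refine ⟨fun n => ?_, fun n => ?_, 2 * max U U',
    9 * max M M' + 3 * max U U' * (max U U' + max M M'), min (min 1 (min r r' / 2))
    (1 / (max U U' + max M M' + 1)), ?_, ?_, ?_, fun n => ?_, fun n => ?_⟩
  · rw [norm_mul]; exact mul_le_one₀ (ha' n) (norm_nonneg _) (ha n)
  · rw [norm_mul]; exact mul_le_one₀ (hb' n) (norm_nonneg _) (hb n)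
  · have := le_max_left U U'; linarith
  · have h1 : 0 ≤ max U U' := hU.trans (le_max_left _ _)
    have h2 : 0 ≤ max M M' := hM.trans (le_max_left _ _)
    positivity
  · have h1 : 0 ≤ max U U' := hU.trans (le_max_left _ _)
    have h2 : 0 ≤ max M M' := hM.trans (le_max_left _ _)
    have h3 : 0 < min r r' := lt_min hr hr'
    exact lt_min (lt_min one_pos (by positivity)) (by positivity)
  · exact QB.comp (hU.trans (le_max_left _ _)) ((hq n).mono (le_max_left _ _))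
      ((hq' n).mono (le_max_right _ _)) (ha n) (hb n) (ha' n) (hb' n)
  · have h1 : 0 ≤ max U U' := hU.trans (le_max_left _ _)
    have h2 : 0 ≤ max M M' := hM.trans (le_max_left _ _)
    refine Jet.comp (r := min r r') h1 h2 ((hq n).mono (le_max_left _ _))
      ((hq' n).mono (le_max_right _ _)) (ha n) (hb n) (ha' n) (hb' n)
      ((hj n).mono (le_max_left _ _) (min_le_left _ _))
      ((hj' n).mono (le_max_right _ _) (min_le_right _ _)) ?_ ?_ ?_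
    · exact (min_le_left _ _).trans (min_le_left _ _)
    · exact (min_le_left _ _).trans (min_le_right _ _)
    · have h5 : 0 < max U U' + max M M' + 1 := by positivity
      calc (max U U' + max M M') * min (min 1 (min r r' / 2)) (1 / (max U U' + max M M' + 1))
          ≤ (max U U' + max M M') * (1 / (max U U' + max M M' + 1)) := by
            gcongr
            exact min_le_right _ _
        _ ≤ 1 := by
            rw [mul_one_div, div_le_one h5]; linarith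

/-- Jets tangent to the identity. -/
def UJ1 (h : ℕ → ℂ × ℂ → ℂ × ℂ) (q : ℕ → ℂ × ℂ → ℂ × ℂ) : Prop :=
  UJ h (fun _ => 1) (fun _ => 1) q

theorem UJ1.comp {f g : ℕ → ℂ × ℂ → ℂ × ℂ} {q q' : ℕ → ℂ × ℂ → ℂ × ℂ}
    (hf : UJ1 f q) (hg : UJ1 g q') : UJ1 (fun n p => g n (f n p)) (fun n p => q n p + q' n p) := by
  have := UJ.comp hf hg
  simpa [UJ1] using this

/-- A quadratic map. -/
def qm (u1 u2 u3 v1 v2 v3 : ℂ) (p : ℂ × ℂ) : ℂ × ℂ :=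
  (u1 * p.1 ^ 2 + u2 * (p.1 * p.2) + u3 * p.2 ^ 2,
    v1 * p.1 ^ 2 + v2 * (p.1 * p.2) + v3 * p.2 ^ 2)

theorem qm_QB {u1 u2 u3 v1 v2 v3 : ℂ} {U : ℝ} (h1 : ‖u1‖ ≤ U) (h2 : ‖u2‖ ≤ U) (h3 : ‖u3‖ ≤ U)
    (h4 : ‖v1‖ ≤ U) (h5 : ‖v2‖ ≤ U) (h6 : ‖v3‖ ≤ U) : QB (qm u1 u2 u3 v1 v2 v3) (3 * U) := by
  have hU : 0 ≤ U := (norm_nonneg _).trans h1
  refine ⟨by simp [qm], fun p p' => ?_⟩
  set T := (‖p‖ + ‖p'‖) * ‖p - p'‖ with hT
  have hT0 : 0 ≤ T := by positivity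
  have a1 : ‖p.1 ^ 2 - p'.1 ^ 2‖ ≤ T := by
    have e : p.1 ^ 2 - p'.1 ^ 2 = (p.1 + p'.1) * (p - p').1 := by simp; ring
    rw [e, norm_mul]
    exact mul_le_mul ((norm_add_le _ _).trans (add_le_add (norm_fst_le p) (norm_fst_le p')))
      (norm_fst_le (p - p')) (norm_nonneg _) (by positivity)
  have a3 : ‖p.2 ^ 2 - p'.2 ^ 2‖ ≤ T := by
    have e : p.2 ^ 2 - p'.2 ^ 2 = (p.2 + p'.2) * (p - p').2 := by simp; ring
    rw [e, norm_mul]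
    exact mul_le_mul ((norm_add_le _ _).trans (add_le_add (norm_snd_le p) (norm_snd_le p')))
      (norm_snd_le (p - p')) (norm_nonneg _) (by positivity)
  have a2 : ‖p.1 * p.2 - p'.1 * p'.2‖ ≤ T := by
    have e : p.1 * p.2 - p'.1 * p'.2 = p.1 * (p - p').2 + (p - p').1 * p'.2 := by simp; ring
    rw [e]
    calc _ ≤ ‖p.1 * (p - p').2‖ + ‖(p - p').1 * p'.2‖ := norm_add_le _ _
      _ ≤ ‖p‖ * ‖p - p'‖ + ‖p - p'‖ * ‖p'‖ := by
          rw [norm_mul, norm_mul]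
          gcongr
          · exact norm_fst_le p
          · exact norm_snd_le (p - p')
          · exact norm_fst_le (p - p')
          · exact norm_snd_le p'
      _ = T := by rw [hT]; ring
  have key : ∀ x y z : ℂ, ‖x‖ ≤ U → ‖y‖ ≤ U → ‖z‖ ≤ U →
      ‖(x * p.1 ^ 2 + y * (p.1 * p.2) + z * p.2 ^ 2) -
        (x * p'.1 ^ 2 + y * (p'.1 * p'.2) + z * p'.2 ^ 2)‖ ≤ 3 * U * T := by
    intro x y z hx hy hz
    have e : (x * p.1 ^ 2 + y * (p.1 * p.2) + z * p.2 ^ 2) -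
        (x * p'.1 ^ 2 + y * (p'.1 * p'.2) + z * p'.2 ^ 2) =
        x * (p.1 ^ 2 - p'.1 ^ 2) + y * (p.1 * p.2 - p'.1 * p'.2) + z * (p.2 ^ 2 - p'.2 ^ 2) := by
      ring
    rw [e]
    calc _ ≤ ‖x * (p.1 ^ 2 - p'.1 ^ 2)‖ + ‖y * (p.1 * p.2 - p'.1 * p'.2)‖ +
          ‖z * (p.2 ^ 2 - p'.2 ^ 2)‖ := norm_add₃_le
      _ ≤ U * T + U * T + U * T := by
          simp only [norm_mul]
          gcongr
      _ = _ := by ring
  have e : 3 * U * (‖p‖ + ‖p'‖) * ‖p - p'‖ = 3 * U * T := by rw [hT]; ring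
  rw [e, Prod.norm_def]
  exact max_le (key u1 u2 u3 h1 h2 h3) (key v1 v2 v3 h4 h5 h6)

theorem UJ1_of {h : ℕ → ℂ × ℂ → ℂ × ℂ} {u1 u2 u3 v1 v2 v3 : ℕ → ℂ} {U M r : ℝ}
    (hM : 0 ≤ M) (hr : 0 < r)
    (h1 : ∀ n, ‖u1 n‖ ≤ U) (h2 : ∀ n, ‖u2 n‖ ≤ U) (h3 : ∀ n, ‖u3 n‖ ≤ U)
    (h4 : ∀ n, ‖v1 n‖ ≤ U) (h5 : ∀ n, ‖v2 n‖ ≤ U) (h6 : ∀ n, ‖v3 n‖ ≤ U)
    (hj : ∀ n, ∀ p : ℂ × ℂ, ‖p‖ ≤ r →
      ‖h n p - (p + qm (u1 n) (u2 n) (u3 n) (v1 n) (v2 n) (v3 n) p)‖ ≤ M * ‖p‖ ^ 3) :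
    UJ1 h (fun n => qm (u1 n) (u2 n) (u3 n) (v1 n) (v2 n) (v3 n)) := by
  have hU : 0 ≤ U := (norm_nonneg _).trans (h1 0)
  refine ⟨fun n => by simp, fun n => by simp, 3 * U, M, r, by positivity, hM, hr,
    fun n => qm_QB (h1 n) (h2 n) (h3 n) (h4 n) (h5 n) (h6 n), fun n p hp => ?_⟩
  simpa using hj n p hp

/-- generators -/
noncomputable def gn1 (t : ℂ) (p : ℂ × ℂ) : ℂ × ℂ := (p.1 + t * p.2 ^ 2, p.2)
noncomputable def gn2 (t : ℂ) (p : ℂ × ℂ) : ℂ × ℂ := (p.1, p.2 + t * p.1 ^ 2)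
noncomputable def gn3 (t : ℂ) (p : ℂ × ℂ) : ℂ × ℂ := (p.1 * Complex.exp (t * p.2), p.2)
noncomputable def gn4 (t : ℂ) (p : ℂ × ℂ) : ℂ × ℂ := (p.1, p.2 * Complex.exp (t * p.1))
noncomputable def gn5 (t : ℂ) (p : ℂ × ℂ) : ℂ × ℂ :=
  (p.1 + t * (p.1 - p.2) ^ 2, p.2 + t * (p.1 - p.2) ^ 2)
noncomputable def gn6 (t : ℂ) (p : ℂ × ℂ) : ℂ × ℂ :=
  (p.1 + t * (p.1 + p.2) ^ 2, p.2 - t * (p.1 + p.2) ^ 2)

theorem gn1_diff (t : ℂ) : Differentiable ℂ (gn1 t) := by unfold gn1; fun_prop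
theorem gn2_diff (t : ℂ) : Differentiable ℂ (gn2 t) := by unfold gn2; fun_prop
theorem gn3_diff (t : ℂ) : Differentiable ℂ (gn3 t) := by unfold gn3; fun_prop
theorem gn4_diff (t : ℂ) : Differentiable ℂ (gn4 t) := by unfold gn4; fun_prop
theorem gn5_diff (t : ℂ) : Differentiable ℂ (gn5 t) := by unfold gn5; fun_prop
theorem gn6_diff (t : ℂ) : Differentiable ℂ (gn6 t) := by unfold gn6; fun_prop

theorem gn1_inv (t : ℂ) (p : ℂ × ℂ) : gn1 (-t) (gn1 t p) = p := by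
  unfold gn1; ext <;> simp
theorem gn2_inv (t : ℂ) (p : ℂ × ℂ) : gn2 (-t) (gn2 t p) = p := by
  unfold gn2; ext <;> simp
theorem gn3_inv (t : ℂ) (p : ℂ × ℂ) : gn3 (-t) (gn3 t p) = p := by
  unfold gn3; ext
  · simp [mul_assoc, ← Complex.exp_add]
  · simp
theorem gn4_inv (t : ℂ) (p : ℂ × ℂ) : gn4 (-t) (gn4 t p) = p := by
  unfold gn4; ext
  · simp
  · simp [mul_assoc, ← Complex.exp_add]
theorem gn5_inv (t : ℂ) (p : ℂ × ℂ) : gn5 (-t) (gn5 t p) = p := by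
  unfold gn5; ext <;> simp
theorem gn6_inv (t : ℂ) (p : ℂ × ℂ) : gn6 (-t) (gn6 t p) = p := by
  unfold gn6; ext <;> simp

theorem gn1_UJ {t : ℕ → ℂ} {T : ℝ} (ht : ∀ n, ‖t n‖ ≤ T) :
    UJ1 (fun n => gn1 (t n)) (fun n => qm 0 0 (t n) 0 0 0) := by
  have hT : 0 ≤ T := (norm_nonneg _).trans (ht 0)
  refine UJ1_of (U := T) (M := 0) (r := 1) le_rfl one_pos (fun n => by simpa)
    (fun n => by simpa) ht (fun n => by simpa) (fun n => by simpa) (fun n => by simpa)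
    fun n p _ => ?_
  have : gn1 (t n) p - (p + qm 0 0 (t n) 0 0 0 p) = 0 := by
    unfold gn1 qm; ext <;> simp
  rw [this]; simp

theorem gn2_UJ {t : ℕ → ℂ} {T : ℝ} (ht : ∀ n, ‖t n‖ ≤ T) :
    UJ1 (fun n => gn2 (t n)) (fun n => qm 0 0 0 (t n) 0 0) := by
  have hT : 0 ≤ T := (norm_nonneg _).trans (ht 0)
  refine UJ1_of (U := T) (M := 0) (r := 1) le_rfl one_pos (fun n => by simpa)
    (fun n => by simpa) (fun n => by simpa) ht (fun n => by simpa) (fun n => by simpa)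
    fun n p _ => ?_
  have : gn2 (t n) p - (p + qm 0 0 0 (t n) 0 0 p) = 0 := by
    unfold gn2 qm; ext <;> simp
  rw [this]; simp

theorem gn5_UJ {t : ℕ → ℂ} {T : ℝ} (ht : ∀ n, ‖t n‖ ≤ T) :
    UJ1 (fun n => gn5 (t n)) (fun n => qm (t n) (-2 * t n) (t n) (t n) (-2 * t n) (t n)) := by
  have hT : 0 ≤ T := (norm_nonneg _).trans (ht 0)
  have h1 : ∀ n, ‖t n‖ ≤ 2 * T := fun n => (ht n).trans (by linarith)
  have h2 : ∀ n, ‖-2 * t n‖ ≤ 2 * T := fun n => by simpa using ht n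
  refine UJ1_of (U := 2 * T) (M := 0) (r := 1) le_rfl one_pos h1 h2 h1 h1 h2 h1 fun n p _ => ?_
  have : gn5 (t n) p - (p + qm (t n) (-2 * t n) (t n) (t n) (-2 * t n) (t n) p) = 0 := by
    unfold gn5 qm; ext <;> simp <;> ring
  rw [this]; simp

theorem gn6_UJ {t : ℕ → ℂ} {T : ℝ} (ht : ∀ n, ‖t n‖ ≤ T) :
    UJ1 (fun n => gn6 (t n)) (fun n => qm (t n) (2 * t n) (t n) (-t n) (-2 * t n) (-t n)) := by
  have hT : 0 ≤ T := (norm_nonneg _).trans (ht 0)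
  have h1 : ∀ n, ‖t n‖ ≤ 2 * T := fun n => (ht n).trans (by linarith)
  have h1' : ∀ n, ‖-t n‖ ≤ 2 * T := fun n => by rw [norm_neg]; exact h1 n
  have h2 : ∀ n, ‖-2 * t n‖ ≤ 2 * T := fun n => by simpa using ht n
  have h3 : ∀ n, ‖2 * t n‖ ≤ 2 * T := fun n => by simpa using ht n
  refine UJ1_of (U := 2 * T) (M := 0) (r := 1) le_rfl one_pos h1 h3 h1 h1' h2 h1' fun n p _ => ?_
  have : gn6 (t n) p - (p + qm (t n) (2 * t n) (t n) (-t n) (-2 * t n) (-t n) p) = 0 := by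
    unfold gn6 qm; ext <;> simp <;> ring
  rw [this]; simp

theorem exp_aux {t z w : ℂ} {T : ℝ} (ht : ‖t‖ ≤ T) (h : T * ‖w‖ ≤ 1) :
    ‖z * Complex.exp (t * w) - (z + t * (z * w))‖ ≤ T ^ 2 * (‖z‖ * ‖w‖ ^ 2) := by
  have h1 : ‖t * w‖ ≤ T * ‖w‖ := by rw [norm_mul]; gcongr
  have h2 := Complex.norm_exp_sub_one_sub_id_le (h1.trans h)
  have e : z * Complex.exp (t * w) - (z + t * (z * w)) =
      z * (Complex.exp (t * w) - 1 - t * w) := by ring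
  rw [e, norm_mul]
  calc ‖z‖ * ‖Complex.exp (t * w) - 1 - t * w‖ ≤ ‖z‖ * (T * ‖w‖) ^ 2 := by
        gcongr
        exact h2.trans (pow_le_pow_left₀ (norm_nonneg _) h1 2)
    _ = _ := by ring

theorem gn3_UJ {t : ℕ → ℂ} {T : ℝ} (ht : ∀ n, ‖t n‖ ≤ T) :
    UJ1 (fun n => gn3 (t n)) (fun n => qm 0 (t n) 0 0 0 0) := by
  have hT : 0 ≤ T := (norm_nonneg _).trans (ht 0)
  refine UJ1_of (U := T) (M := T ^ 2) (r := 1 / (T + 1)) (by positivity) (by positivity)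
    (fun n => by simpa) ht (fun n => by simpa) (fun n => by simpa) (fun n => by simpa)
    (fun n => by simpa) fun n p hp => ?_
  have hw : T * ‖p.2‖ ≤ 1 := by
    calc T * ‖p.2‖ ≤ T * (1 / (T + 1)) := by gcongr; exact (norm_snd_le p).trans hp
      _ ≤ 1 := by rw [mul_one_div, div_le_one (by positivity)]; linarith
  have h := exp_aux (z := p.1) (ht n) hw
  have : gn3 (t n) p - (p + qm 0 (t n) 0 0 0 0 p) =
      (p.1 * Complex.exp (t n * p.2) - (p.1 + t n * (p.1 * p.2)), 0) := by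
    unfold gn3 qm; ext <;> simp
  rw [this, Prod.norm_def]
  have h3 : ‖p.1‖ * ‖p.2‖ ^ 2 ≤ ‖p‖ ^ 3 := by
    calc ‖p.1‖ * ‖p.2‖ ^ 2 ≤ ‖p‖ * ‖p‖ ^ 2 := by
          gcongr
          · exact norm_fst_le p
          · exact norm_snd_le p
      _ = _ := by ring
  refine max_le (h.trans (by gcongr)) (by simp; positivity)

theorem gn4_UJ {t : ℕ → ℂ} {T : ℝ} (ht : ∀ n, ‖t n‖ ≤ T) :
    UJ1 (fun n => gn4 (t n)) (fun n => qm 0 0 0 0 (t n) 0) := by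
  have hT : 0 ≤ T := (norm_nonneg _).trans (ht 0)
  refine UJ1_of (U := T) (M := T ^ 2) (r := 1 / (T + 1)) (by positivity) (by positivity)
    (fun n => by simpa) (fun n => by simpa) (fun n => by simpa) (fun n => by simpa) ht
    (fun n => by simpa) fun n p hp => ?_
  have hw : T * ‖p.1‖ ≤ 1 := by
    calc T * ‖p.1‖ ≤ T * (1 / (T + 1)) := by gcongr; exact (norm_fst_le p).trans hp
      _ ≤ 1 := by rw [mul_one_div, div_le_one (by positivity)]; linarith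
  have h := exp_aux (z := p.2) (ht n) hw
  have : gn4 (t n) p - (p + qm 0 0 0 0 (t n) 0 p) =
      (0, p.2 * Complex.exp (t n * p.1) - (p.2 + t n * (p.2 * p.1))) := by
    unfold gn4 qm; ext
    · simp
    · simp [mul_comm]
  rw [this, Prod.norm_def]
  have h3 : ‖p.2‖ * ‖p.1‖ ^ 2 ≤ ‖p‖ ^ 3 := by
    calc ‖p.2‖ * ‖p.1‖ ^ 2 ≤ ‖p‖ * ‖p‖ ^ 2 := by
          gcongr
          · exact norm_snd_le p
          · exact norm_fst_le p
      _ = _ := by ring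
  refine max_le (by simp; positivity) (h.trans (by gcongr))

/-- the conjugating automorphism and its inverse -/
noncomputable def nh (u1 u2 v2 v3 : ℂ) (p : ℂ × ℂ) : ℂ × ℂ :=
  gn5 ((u1 + v3) / 2) (gn6 ((u1 - v3) / 2) (gn1 (-u1) (gn2 (-v3) (gn3 (u2 + 2 * v3)
    (gn4 (v2 + 2 * u1) p)))))

noncomputable def nhi (u1 u2 v2 v3 : ℂ) (p : ℂ × ℂ) : ℂ × ℂ :=
  gn4 (-(v2 + 2 * u1)) (gn3 (-(u2 + 2 * v3)) (gn2 (-(-v3)) (gn1 (-(-u1)) (gn6 (-((u1 - v3) / 2))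
    (gn5 (-((u1 + v3) / 2)) p)))))

theorem nh_diff (u1 u2 v2 v3 : ℂ) : Differentiable ℂ (nh u1 u2 v2 v3) :=
  (gn5_diff _).comp ((gn6_diff _).comp ((gn1_diff _).comp ((gn2_diff _).comp
    ((gn3_diff _).comp (gn4_diff _)))))

theorem nhi_diff (u1 u2 v2 v3 : ℂ) : Differentiable ℂ (nhi u1 u2 v2 v3) :=
  (gn4_diff _).comp ((gn3_diff _).comp ((gn2_diff _).comp ((gn1_diff _).comp
    ((gn6_diff _).comp (gn5_diff _)))))

theorem nhi_nh (u1 u2 v2 v3 : ℂ) (p : ℂ × ℂ) : nhi u1 u2 v2 v3 (nh u1 u2 v2 v3 p) = p := by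
  unfold nhi nh
  rw [gn5_inv, gn6_inv, gn1_inv, gn2_inv, gn3_inv, gn4_inv]

theorem nh_nhi (u1 u2 v2 v3 : ℂ) (p : ℂ × ℂ) : nh u1 u2 v2 v3 (nhi u1 u2 v2 v3 p) = p := by
  have h1 := fun t p => gn1_inv (-t) p
  have h2 := fun t p => gn2_inv (-t) p
  have h3 := fun t p => gn3_inv (-t) p
  have h4 := fun t p => gn4_inv (-t) p
  have h5 := fun t p => gn5_inv (-t) p
  have h6 := fun t p => gn6_inv (-t) p
  simp only [neg_neg] at h1 h2 h3 h4 h5 h6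
  unfold nhi nh
  rw [h4, h3, h2, h1, h6, h5]

theorem nh_UJ {u1 u2 v2 v3 : ℕ → ℂ} {T : ℝ} (h1 : ∀ n, ‖u1 n‖ ≤ T) (h2 : ∀ n, ‖u2 n‖ ≤ T)
    (h3 : ∀ n, ‖v2 n‖ ≤ T) (h4 : ∀ n, ‖v3 n‖ ≤ T) :
    UJ1 (fun n => nh (u1 n) (u2 n) (v2 n) (v3 n))
      (fun n => qm (u1 n) (u2 n) 0 0 (v2 n) (v3 n)) := by
  have hT : 0 ≤ T := (norm_nonneg _).trans (h1 0)
  have b4 : ∀ n, ‖v2 n + 2 * u1 n‖ ≤ 3 * T := fun n => by
    calc _ ≤ ‖v2 n‖ + ‖2 * u1 n‖ := norm_add_le _ _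
      _ ≤ T + 2 * T := by
        rw [norm_mul]; norm_num
        linarith [h3 n, h1 n]
      _ = _ := by ring
  have b3 : ∀ n, ‖u2 n + 2 * v3 n‖ ≤ 3 * T := fun n => by
    calc _ ≤ ‖u2 n‖ + ‖2 * v3 n‖ := norm_add_le _ _
      _ ≤ T + 2 * T := by
        rw [norm_mul]; norm_num
        linarith [h2 n, h4 n]
      _ = _ := by ring
  have b2 : ∀ n, ‖-v3 n‖ ≤ T := fun n => by rw [norm_neg]; exact h4 n
  have b1 : ∀ n, ‖-u1 n‖ ≤ T := fun n => by rw [norm_neg]; exact h1 n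
  have b6 : ∀ n, ‖(u1 n - v3 n) / 2‖ ≤ T := fun n => by
    rw [norm_div]
    have := (norm_sub_le (u1 n) (v3 n)).trans (add_le_add (h1 n) (h4 n))
    norm_num
    linarith
  have b5 : ∀ n, ‖(u1 n + v3 n) / 2‖ ≤ T := fun n => by
    rw [norm_div]
    have := (norm_add_le (u1 n) (v3 n)).trans (add_le_add (h1 n) (h4 n))
    norm_num
    linarith
  have := UJ1.comp (UJ1.comp (UJ1.comp (UJ1.comp (UJ1.comp (gn4_UJ b4) (gn3_UJ b3)) (gn2_UJ b2))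
    (gn1_UJ b1)) (gn6_UJ b6)) (gn5_UJ b5)
  convert this using 2 with n n
  · rfl
  · funext p
    unfold qm
    ext <;> simp <;> ring

theorem nhi_UJ {u1 u2 v2 v3 : ℕ → ℂ} {T : ℝ} (h1 : ∀ n, ‖u1 n‖ ≤ T) (h2 : ∀ n, ‖u2 n‖ ≤ T)
    (h3 : ∀ n, ‖v2 n‖ ≤ T) (h4 : ∀ n, ‖v3 n‖ ≤ T) :
    UJ1 (fun n => nhi (u1 n) (u2 n) (v2 n) (v3 n))
      (fun n => qm (-u1 n) (-u2 n) 0 0 (-v2 n) (-v3 n)) := by
  have hT : 0 ≤ T := (norm_nonneg _).trans (h1 0)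
  have b4 : ∀ n, ‖-(v2 n + 2 * u1 n)‖ ≤ 3 * T := fun n => by
    rw [norm_neg]
    calc _ ≤ ‖v2 n‖ + ‖2 * u1 n‖ := norm_add_le _ _
      _ ≤ T + 2 * T := by
        rw [norm_mul]; norm_num
        linarith [h3 n, h1 n]
      _ = _ := by ring
  have b3 : ∀ n, ‖-(u2 n + 2 * v3 n)‖ ≤ 3 * T := fun n => by
    rw [norm_neg]
    calc _ ≤ ‖u2 n‖ + ‖2 * v3 n‖ := norm_add_le _ _
      _ ≤ T + 2 * T := by
        rw [norm_mul]; norm_num
        linarith [h2 n, h4 n]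
      _ = _ := by ring
  have b2 : ∀ n, ‖-(-v3 n)‖ ≤ T := fun n => by rw [neg_neg]; exact h4 n
  have b1 : ∀ n, ‖-(-u1 n)‖ ≤ T := fun n => by rw [neg_neg]; exact h1 n
  have b6 : ∀ n, ‖-((u1 n - v3 n) / 2)‖ ≤ T := fun n => by
    rw [norm_neg, norm_div]
    have := (norm_sub_le (u1 n) (v3 n)).trans (add_le_add (h1 n) (h4 n))
    norm_num
    linarith
  have b5 : ∀ n, ‖-((u1 n + v3 n) / 2)‖ ≤ T := fun n => by
    rw [norm_neg, norm_div]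
    have := (norm_add_le (u1 n) (v3 n)).trans (add_le_add (h1 n) (h4 n))
    norm_num
    linarith
  have := UJ1.comp (UJ1.comp (UJ1.comp (UJ1.comp (UJ1.comp (gn5_UJ b5) (gn6_UJ b6)) (gn1_UJ b1))
    (gn2_UJ b2)) (gn3_UJ b3)) (gn4_UJ b4)
  convert this using 2 with n n
  · rfl
  · funext p
    unfold qm
    ext <;> simp <;> ring

/-- Bounded solutions of the linear recursion. -/
theorem bounded_solution {s m : ℕ → ℂ} {S D : ℝ} (hD : D < 1) (hm : ∀ n, ‖m n‖ ≤ D)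
    (hs : ∀ n, ‖s n‖ ≤ S) :
    ∃ u : ℕ → ℂ, (∀ n, ‖u n‖ ≤ S / (1 - D)) ∧ ∀ n, u n = s n + m n * u (n + 1) := by
  have hD0 : 0 ≤ D := (norm_nonneg _).trans (hm 0)
  have hS0 : 0 ≤ S := (norm_nonneg _).trans (hs 0)
  set t : ℕ → ℕ → ℂ := fun n k => (∏ j ∈ Finset.range k, m (n + j)) * s (n + k) with ht
  have hb : ∀ n k, ‖t n k‖ ≤ D ^ k * S := by
    intro n k
    simp only [ht, norm_mul, norm_prod]
    apply mul_le_mul _ (hs _) (norm_nonneg _) (by positivity)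
    calc ∏ j ∈ Finset.range k, ‖m (n + j)‖ ≤ ∏ _j ∈ Finset.range k, D :=
          Finset.prod_le_prod (fun _ _ => norm_nonneg _) fun j _ => hm _
      _ = D ^ k := by simp
  have hg : HasSum (fun k => D ^ k * S) ((1 - D)⁻¹ * S) :=
    (hasSum_geometric_of_lt_one hD0 hD).mul_right S
  have hsum : ∀ n, Summable (t n) := fun n => Summable.of_norm_bounded hg.summable (hb n)
  refine ⟨fun n => ∑' k, t n k, fun n => ?_, fun n => ?_⟩
  · have := tsum_of_norm_bounded hg (hb n)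
    calc _ ≤ _ := this
      _ = _ := by ring
  · simp only
    rw [(hsum n).tsum_eq_zero_add, ← tsum_mul_left]
    congr 1
    · simp [ht]
    · apply tsum_congr
      intro k
      simp only [ht]
      rw [Finset.prod_range_succ', add_zero]
      have : ∀ j, m (n + (j + 1)) = m (n + 1 + j) := fun j => by congr 1; ring
      simp only [this]
      have h2 : s (n + (k + 1)) = s (n + 1 + k) := by congr 1; ring
      rw [h2]
      ring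

/-- Transfer of the conclusion through a uniformly bounded conjugation. -/
theorem isC2_transfer {f g h hi : ℕ → ℂ × ℂ → ℂ × ℂ} {r : ℝ} (hr : 0 < r)
    (dh : ∀ n, Differentiable ℂ (h n)) (dhi : ∀ n, Differentiable ℂ (hi n))
    (h1 : ∀ n p, hi n (h n p) = p) (h2 : ∀ n p, h n (hi n p) = p)
    (b1 : ∀ n p, ‖p‖ ≤ r → ‖h n p‖ ≤ 2 * ‖p‖) (b2 : ∀ n p, ‖p‖ ≤ r → ‖hi n p‖ ≤ 2 * ‖p‖)
    (hg : ∀ n p, g n p = h (n + 1) (f n (hi n p))) (H : IsC2 g) : IsC2 f := by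
  have key : ∀ n p, fwd g 0 n p = h n (fwd f 0 n (hi 0 p)) := by
    intro n p
    induction n with
    | zero => exact (h2 0 p).symm
    | succ n ih =>
      rw [fwd_succ, fwd_succ, ih, zero_add, hg, h1]
  have aux : ∀ {k : ℕ → ℂ × ℂ → ℂ × ℂ}, (∀ n p, ‖p‖ ≤ r → ‖k n p‖ ≤ 2 * ‖p‖) →
      ∀ {x : ℕ → ℂ × ℂ}, Tendsto x atTop (𝓝 0) → Tendsto (fun n => k n (x n)) atTop (𝓝 0) := by
    intro k hk x hx
    have hx' : Tendsto (fun n => 2 * ‖x n‖) atTop (𝓝 0) := by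
      simpa using (tendsto_norm_zero.comp hx).const_mul 2
    have hev : ∀ᶠ n in atTop, ‖x n‖ < r := (tendsto_norm_zero.comp hx).eventually_lt_const hr
    exact squeeze_zero_norm' (hev.mono fun n hn => hk n _ hn.le) hx'
  have hset : {p | Tendsto (fun n => fwd f 0 n p) atTop (𝓝 0)} =
      h 0 ⁻¹' {p | Tendsto (fun n => fwd g 0 n p) atTop (𝓝 0)} := by
    ext p
    simp only [mem_ofPred_eq, mem_preimage]
    constructor
    · intro hp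
      have := aux b1 hp
      refine this.congr fun n => ?_
      rw [key, h1]
    · intro hp
      have := aux b2 hp
      refine this.congr fun n => ?_
      rw [key, h1, h1]
  obtain ⟨ho, φ, ψ, d1, d2, hra, e1, e2⟩ := H
  unfold IsC2
  rw [hset]
  refine ⟨ho.preimage (dh 0).continuous, fun p => hi 0 (φ p), fun p => ψ (h 0 p),
    (dhi 0).comp d1, ?_, ?_, ?_, ?_⟩
  · exact d2.comp (dh 0).differentiableOn (fun p hp => hp)
  · ext p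
    simp only [mem_range, mem_preimage]
    constructor
    · rintro ⟨y, rfl⟩
      rw [h2, ← hra]
      exact mem_range_self y
    · intro hp
      rw [← hra] at hp
      obtain ⟨y, hy⟩ := hp
      exact ⟨y, by rw [hy, h1]⟩
  · intro p
    simp only
    rw [h2, e1]
  · intro p hp
    simp only
    rw [e2 _ hp, h1]

theorem norm_le_sum (p : ℂ × ℂ) : ‖p‖ ≤ ‖p.1‖ + ‖p.2‖ := by
  rw [Prod.norm_def]
  exact max_le (by linarith [norm_nonneg p.2]) (by linarith [norm_nonneg p.1])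

theorem norm_swap' (z w : ℂ) : ‖(w, z)‖ = ‖(z, w)‖ := by
  rw [Prod.norm_def, Prod.norm_def, max_comm]

theorem nf_of_UJ {f fi : ℕ → ℂ × ℂ → ℂ × ℂ} {a b c e : ℕ → ℂ} {S : ℝ}
    (df : ∀ n, Differentiable ℂ (f n)) (dfi : ∀ n, Differentiable ℂ (fi n))
    (lf : ∀ n p, fi n (f n p) = p) (rf : ∀ n p, f n (fi n p) = p)
    (hc : ∀ n, ‖c n‖ ≤ S) (he : ∀ n, ‖e n‖ ≤ S)
    (h : UJ f a b (fun n => qm 0 0 (c n) (e n) 0 0)) :
    ∃ (c3 e3 : ℕ → ℂ) (M r0 : ℝ), 0 < r0 ∧ Nf f fi a b c c3 e e3 M r0 := by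
  obtain ⟨ha, hb, U, M, r, hU, hM, hr, hq, hj⟩ := h
  have hS : 0 ≤ S := (norm_nonneg _).trans (hc 0)
  have H1 : ∀ n, ∃ c3 : ℂ, ‖c3‖ ≤ 8 * M ∧ ∀ z w : ℂ, ‖z‖ ≤ r / 4 → ‖w‖ ≤ r / 4 →
      ‖((f n (z, w)).1 - (a n * z + c n * w ^ 2)) - c3 * w ^ 3‖ ≤
        (16 * M + 16 * M / r) * (‖z‖ * (‖z‖ + ‖w‖) ^ 2 + ‖w‖ ^ 4) := by
    intro n
    have hd : Differentiable ℂ (fun p : ℂ × ℂ => (f n p).1 - (a n * p.1 + c n * p.2 ^ 2)) := by
      have h1 : Differentiable ℂ (fun p : ℂ × ℂ => (f n p).1) := (df n).fst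
      fun_prop
    exact nf_scalar hd hr (fun p hp => by
      refine le_trans ?_ (hj n p hp)
      refine le_trans (le_of_eq ?_) (norm_fst_le _)
      congr 1
      simp [qm])
  have H2 : ∀ n, ∃ e3 : ℂ, ‖e3‖ ≤ 8 * M ∧ ∀ z w : ℂ, ‖z‖ ≤ r / 4 → ‖w‖ ≤ r / 4 →
      ‖((f n (w, z)).2 - (b n * z + e n * w ^ 2)) - e3 * w ^ 3‖ ≤
        (16 * M + 16 * M / r) * (‖z‖ * (‖z‖ + ‖w‖) ^ 2 + ‖w‖ ^ 4) := by
    intro n
    have hd : Differentiable ℂ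
        (fun p : ℂ × ℂ => (f n (p.2, p.1)).2 - (b n * p.1 + e n * p.2 ^ 2)) := by
      have h0 : Differentiable ℂ (fun p : ℂ × ℂ => (p.2, p.1)) := by fun_prop
      have h1 : Differentiable ℂ (fun p : ℂ × ℂ => (f n (p.2, p.1)).2) := ((df n).comp h0).snd
      fun_prop
    exact nf_scalar hd hr (fun p hp => by
      have hs : ‖(p.2, p.1)‖ = ‖p‖ := norm_swap' p.1 p.2
      have h3 := hj n (p.2, p.1) (by rw [hs]; exact hp)
      rw [hs] at h3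
      refine le_trans ?_ h3
      refine le_trans (le_of_eq ?_) (norm_snd_le _)
      congr 1
      simp [qm])
  choose c3 hc3 h1 using H1
  choose e3 he3 h2 using H2
  set V := U + M * r with hV
  have hV0 : 0 ≤ V := by positivity
  have hdet : ∀ n, ∀ p : ℂ × ℂ, ‖p‖ ≤ r / 4 →
      ‖det2 (fderiv ℂ (f n) p) - a n * b n‖ ≤ (16 * V + 64 * V ^ 2 * r) * ‖p‖ := by
    intro n
    refine det_of_quad (df n) hr hV0 (ha n) (hb n) (fun p hp => ?_)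
    have e1 : f n p - (a n * p.1, b n * p.2) =
        (f n p - ((a n * p.1, b n * p.2) + qm 0 0 (c n) (e n) 0 0 p)) +
          qm 0 0 (c n) (e n) 0 0 p := by abel
    rw [e1]
    calc _ ≤ _ := norm_add_le _ _
      _ ≤ M * ‖p‖ ^ 3 + U * ‖p‖ ^ 2 := add_le_add (hj n p hp) ((hq n).bd p)
      _ = (U + M * ‖p‖) * ‖p‖ ^ 2 := by ring
      _ ≤ (U + M * r) * ‖p‖ ^ 2 := by gcongr
  set K := (16 * M + 16 * M / r) + (16 * V + 64 * V ^ 2 * r) + 8 * M + S with hK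
  have k1 : 0 ≤ 16 * M + 16 * M / r := by positivity
  have k2 : 0 ≤ 16 * V + 64 * V ^ 2 * r := by positivity
  refine ⟨c3, e3, K, r / 4, by positivity, ?_⟩
  exact
  { df := df, dfi := dfi, lf := lf, rf := rf
    M0 := by positivity
    nf1 := fun n p hp1 hp2 => by
      have h := h1 n p.1 p.2 hp1 hp2
      have e1 : (f n p).1 - (a n * p.1 + (c n * p.2 ^ 2 + c3 n * p.2 ^ 3)) =
          ((f n (p.1, p.2)).1 - (a n * p.1 + c n * p.2 ^ 2)) - c3 n * p.2 ^ 3 := by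
        simp only [Prod.mk.eta]; ring
      rw [e1]
      refine h.trans ?_
      gcongr
      linarith
    nf2 := fun n p hp1 hp2 => by
      have h := h2 n p.2 p.1 hp2 hp1
      have e1 : (f n p).2 - (b n * p.2 + (e n * p.1 ^ 2 + e3 n * p.1 ^ 3)) =
          ((f n (p.1, p.2)).2 - (b n * p.2 + e n * p.1 ^ 2)) - e3 n * p.1 ^ 3 := by
        simp only [Prod.mk.eta]; ring
      rw [e1]
      refine h.trans ?_
      gcongr
      linarith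
    bc2 := fun n => (hc n).trans (by linarith)
    bc3 := fun n => (hc3 n).trans (by linarith)
    be2 := fun n => (he n).trans (by linarith)
    be3 := fun n => (he3 n).trans (by linarith)
    det := fun n p hp1 hp2 => by
      have hp : ‖p‖ ≤ r / 4 := by rw [Prod.norm_def]; exact max_le hp1 hp2
      refine (hdet n p hp).trans ?_
      have := norm_le_sum p
      gcongr
      linarith }

/-- The basin theorem for automorphisms with uniform jets and diagonal linear parts. -/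
theorem main_jet {f fi : ℕ → ℂ × ℂ → ℂ × ℂ} {a b Q1 Q2 Q3 Q4 Q5 Q6 : ℕ → ℂ} {S M r C D : ℝ}
    (df : ∀ n, Differentiable ℂ (f n)) (dfi : ∀ n, Differentiable ℂ (fi n))
    (lf : ∀ n p, fi n (f n p) = p) (rf : ∀ n p, f n (fi n p) = p)
    (hC : 0 < C) (hD : D < 1) (hCD : D ^ 4 < C)
    (ha : ∀ n, C ≤ ‖a n‖ ∧ ‖a n‖ ≤ D) (hb : ∀ n, C ≤ ‖b n‖ ∧ ‖b n‖ ≤ D)
    (h1 : ∀ n, ‖Q1 n‖ ≤ S) (h2 : ∀ n, ‖Q2 n‖ ≤ S) (h3 : ∀ n, ‖Q3 n‖ ≤ S)
    (h4 : ∀ n, ‖Q4 n‖ ≤ S) (h5 : ∀ n, ‖Q5 n‖ ≤ S) (h6 : ∀ n, ‖Q6 n‖ ≤ S)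
    (hM : 0 ≤ M) (hr : 0 < r)
    (hj : ∀ n, ∀ p : ℂ × ℂ, ‖p‖ ≤ r → ‖f n p - ((a n * p.1, b n * p.2) +
      qm (Q1 n) (Q2 n) (Q3 n) (Q4 n) (Q5 n) (Q6 n) p)‖ ≤ M * ‖p‖ ^ 3) : IsC2 f := by
  have hS : 0 ≤ S := (norm_nonneg _).trans (h1 0)
  have ha0 : ∀ n, a n ≠ 0 := fun n => norm_pos_iff.1 (hC.trans_le (ha n).1)
  have hb0 : ∀ n, b n ≠ 0 := fun n => norm_pos_iff.1 (hC.trans_le (hb n).1)
  have hdiv : ∀ {x y : ℂ}, ‖x‖ ≤ S → C ≤ ‖y‖ → ‖x / y‖ ≤ S / C := by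
    intro x y hx hy
    rw [norm_div]
    exact div_le_div₀ hS hx hC hy
  obtain ⟨u1, bu1, ru1⟩ := bounded_solution (s := fun n => Q1 n / a n) hD (fun n => (ha n).2)
    (fun n => hdiv (h1 n) (ha n).1)
  obtain ⟨u2, bu2, ru2⟩ := bounded_solution (s := fun n => Q2 n / a n) hD (fun n => (hb n).2)
    (fun n => hdiv (h2 n) (ha n).1)
  obtain ⟨v2, bv2, rv2⟩ := bounded_solution (s := fun n => Q5 n / b n) hD (fun n => (ha n).2)
    (fun n => hdiv (h5 n) (hb n).1)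
  obtain ⟨v3, bv3, rv3⟩ := bounded_solution (s := fun n => Q6 n / b n) hD (fun n => (hb n).2)
    (fun n => hdiv (h6 n) (hb n).1)
  have hf : UJ f a b (fun n => qm (Q1 n) (Q2 n) (Q3 n) (Q4 n) (Q5 n) (Q6 n)) :=
    ⟨fun n => (ha n).2.trans hD.le, fun n => (hb n).2.trans hD.le, 3 * S, M, r, by positivity,
      hM, hr, fun n => qm_QB (h1 n) (h2 n) (h3 n) (h4 n) (h5 n) (h6 n), hj⟩
  set h : ℕ → ℂ × ℂ → ℂ × ℂ := fun n => nh (u1 n) (u2 n) (v2 n) (v3 n) with hh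
  set hi : ℕ → ℂ × ℂ → ℂ × ℂ := fun n => nhi (u1 n) (u2 n) (v2 n) (v3 n) with hhi
  have J1 := nh_UJ bu1 bu2 bv2 bv3
  have J2 := nhi_UJ bu1 bu2 bv2 bv3
  have J1' := nh_UJ (u1 := fun n => u1 (n + 1)) (u2 := fun n => u2 (n + 1))
    (v2 := fun n => v2 (n + 1)) (v3 := fun n => v3 (n + 1)) (fun n => bu1 _) (fun n => bu2 _)
    (fun n => bv2 _) (fun n => bv3 _)
  have J3 := UJ.comp (UJ.comp J2 hf) J1'
  set g : ℕ → ℂ × ℂ → ℂ × ℂ := fun n p => h (n + 1) (f n (hi n p)) with hg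
  set gi : ℕ → ℂ × ℂ → ℂ × ℂ := fun n p => h n (fi n (hi (n + 1) p)) with hgi
  have J4 : UJ g a b (fun n => qm 0 0 (Q3 n) (Q4 n) 0 0) := by
    convert J3 using 2 with n n n
    · simp
    · simp
    · funext p
      have e1 : a n * u1 n = Q1 n + a n ^ 2 * u1 (n + 1) := by
        have := ru1 n; have := ha0 n
        rw [ru1 n]; field_simp
      have e2 : a n * u2 n = Q2 n + a n * b n * u2 (n + 1) := by
        have := ha0 n
        rw [ru2 n]; field_simp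
      have e5 : b n * v2 n = Q5 n + a n * b n * v2 (n + 1) := by
        have := hb0 n
        rw [rv2 n]; field_simp
      have e6 : b n * v3 n = Q6 n + b n ^ 2 * v3 (n + 1) := by
        have := hb0 n
        rw [rv3 n]; field_simp
      unfold qm
      ext
      · simp
        linear_combination (p.1 ^ 2) * e1 + (p.1 * p.2) * e2
      · simp
        linear_combination (p.1 * p.2) * e5 + (p.2 ^ 2) * e6
  have inv1 : ∀ n p, hi n (h n p) = p := fun n p => nhi_nh _ _ _ _ p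
  have inv2 : ∀ n p, h n (hi n p) = p := fun n p => nh_nhi _ _ _ _ p
  have dh : ∀ n, Differentiable ℂ (h n) := fun n => nh_diff _ _ _ _
  have dhi : ∀ n, Differentiable ℂ (hi n) := fun n => nhi_diff _ _ _ _
  obtain ⟨c3, e3, M', r0, hr0, N⟩ := nf_of_UJ (f := g) (fi := gi)
    (fun n => (dh _).comp ((df n).comp (dhi n))) (fun n => (dh n).comp ((dfi n).comp (dhi _)))
    (fun n p => by simp only [hg, hgi]; rw [inv1, lf, inv2])
    (fun n p => by simp only [hg, hgi]; rw [inv1, rf, inv2]) h3 h4 J4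
  have main := main_nf N hr0 hC hD hCD ha hb
  obtain ⟨-, -, U1, M1, r1, hU1, hM1, hr1, hq1, hj1⟩ := J1
  obtain ⟨-, -, U2, M2, r2, hU2, hM2, hr2, hq2, hj2⟩ := J2
  have bd : ∀ {k q : ℂ × ℂ → ℂ × ℂ} {U M r R : ℝ}, 0 ≤ U → 0 ≤ M → 0 < r → QB q U →
      Jet k 1 1 q M r → R ≤ r → R ≤ 1 → (U + M) * R ≤ 1 → ∀ p, ‖p‖ ≤ R → ‖k p‖ ≤ 2 * ‖p‖ := by
    intro k q U M r R hU hM hr hq hj hR1 hR2 hR3 p hp
    have h1 := hj p (hp.trans hR1)
    simp only [one_mul, Prod.mk.eta] at h1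
    have hp0 := norm_nonneg p
    have e : k p = (k p - (p + q p)) + (p + q p) := by abel
    rw [e]
    calc _ ≤ ‖k p - (p + q p)‖ + (‖p‖ + ‖q p‖) :=
          (norm_add_le _ _).trans (by gcongr; exact norm_add_le _ _)
      _ ≤ M * ‖p‖ ^ 3 + (‖p‖ + U * ‖p‖ ^ 2) := by gcongr; exact hq.bd p
      _ = ‖p‖ + ((U + M * ‖p‖) * ‖p‖) * ‖p‖ := by ring
      _ ≤ ‖p‖ + ((U + M * 1) * R) * ‖p‖ := by gcongr; linarith
      _ ≤ ‖p‖ + 1 * ‖p‖ := by gcongr; linarith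
      _ = _ := by ring
  set R := min (min (min r1 r2) 1) (min (1 / (U1 + M1 + 1)) (1 / (U2 + M2 + 1))) with hR
  have hR0 : 0 < R := by positivity
  have R1 : R ≤ r1 := (min_le_left _ _).trans ((min_le_left _ _).trans (min_le_left _ _))
  have R2 : R ≤ r2 := (min_le_left _ _).trans ((min_le_left _ _).trans (min_le_right _ _))
  have R3 : R ≤ 1 := (min_le_left _ _).trans (min_le_right _ _)
  have R4 : (U1 + M1) * R ≤ 1 := by
    calc (U1 + M1) * R ≤ (U1 + M1) * (1 / (U1 + M1 + 1)) := by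
          gcongr
          exact (min_le_right _ _).trans (min_le_left _ _)
      _ ≤ 1 := by rw [mul_one_div, div_le_one (by positivity)]; linarith
  have R5 : (U2 + M2) * R ≤ 1 := by
    calc (U2 + M2) * R ≤ (U2 + M2) * (1 / (U2 + M2 + 1)) := by
          gcongr
          exact (min_le_right _ _).trans (min_le_right _ _)
      _ ≤ 1 := by rw [mul_one_div, div_le_one (by positivity)]; linarith
  exact isC2_transfer (g := g) (h := h) (hi := hi) hR0 dh dhi inv1 inv2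
    (fun n p hp => bd hU1 hM1 hr1 (hq1 n) (hj1 n) R1 R3 R4 p hp)
    (fun n p hp => bd hU2 hM2 hr2 (hq2 n) (hj2 n) R2 R3 R5 p hp) (fun n p => rfl) main

/-- The basin theorem for automorphisms with diagonal linear parts. -/
theorem main_diag {f fi : ℕ → ℂ × ℂ → ℂ × ℂ} {a b : ℕ → ℂ} {B R C D : ℝ}
    (df : ∀ n, Differentiable ℂ (f n)) (dfi : ∀ n, Differentiable ℂ (fi n))
    (lf : ∀ n p, fi n (f n p) = p) (rf : ∀ n p, f n (fi n p) = p)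
    (hC : 0 < C) (hD : D < 1) (hCD : D ^ 4 < C)
    (ha : ∀ n, C ≤ ‖a n‖ ∧ ‖a n‖ ≤ D) (hb : ∀ n, C ≤ ‖b n‖ ∧ ‖b n‖ ≤ D)
    (hR : 0 < R) (h0 : ∀ n, f n 0 = 0)
    (hfd : ∀ n v, fderiv ℂ (f n) 0 v = (a n * v.1, b n * v.2))
    (hB : ∀ n, ∀ p : ℂ × ℂ, ‖p‖ < R → ‖f n p‖ ≤ B) : IsC2 f := by
  have hB0 : 0 ≤ B := (norm_nonneg _).trans (hB 0 0 (by simpa))
  have H1 : ∀ n, ∃ s1 s2 s3 : ℂ, ‖s1‖ ≤ 12 * B / R ^ 2 ∧ ‖s2‖ ≤ 12 * B / R ^ 2 ∧
      ‖s3‖ ≤ 12 * B / R ^ 2 ∧ ∀ p : ℂ × ℂ, ‖p‖ < R → ‖(f n p).1 - a n * p.1 -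
        (s1 * p.1 ^ 2 + s2 * (p.1 * p.2) + s3 * p.2 ^ 2)‖ ≤ 8 * B * (‖p‖ / R) ^ 3 := by
    intro n
    have hd : Differentiable ℂ (fun p => (f n p).1) := (df n).fst
    obtain ⟨s1, s2, s3, e1, e2, e3, e4⟩ := jet2 (φ := fun p => (f n p).1) hR hd.differentiableOn
      (fun p hp => (norm_fst_le _).trans (hB n p (by simpa using hp)))
    refine ⟨s1, s2, s3, e1, e2, e3, fun p hp => ?_⟩
    have h := e4 p hp
    have e5 : fderiv ℂ (fun p => (f n p).1) 0 p = a n * p.1 := by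
      have : HasFDerivAt (fun p => (f n p).1)
          ((ContinuousLinearMap.fst ℂ ℂ ℂ).comp (fderiv ℂ (f n) 0)) 0 :=
        ((df n) 0).hasFDerivAt.fst
      rw [this.fderiv]
      simp [hfd]
    rw [h0, e5] at h
    simpa using h
  have H2 : ∀ n, ∃ s1 s2 s3 : ℂ, ‖s1‖ ≤ 12 * B / R ^ 2 ∧ ‖s2‖ ≤ 12 * B / R ^ 2 ∧
      ‖s3‖ ≤ 12 * B / R ^ 2 ∧ ∀ p : ℂ × ℂ, ‖p‖ < R → ‖(f n p).2 - b n * p.2 -
        (s1 * p.1 ^ 2 + s2 * (p.1 * p.2) + s3 * p.2 ^ 2)‖ ≤ 8 * B * (‖p‖ / R) ^ 3 := by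
    intro n
    have hd : Differentiable ℂ (fun p => (f n p).2) := (df n).snd
    obtain ⟨s1, s2, s3, e1, e2, e3, e4⟩ := jet2 (φ := fun p => (f n p).2) hR hd.differentiableOn
      (fun p hp => (norm_snd_le _).trans (hB n p (by simpa using hp)))
    refine ⟨s1, s2, s3, e1, e2, e3, fun p hp => ?_⟩
    have h := e4 p hp
    have e5 : fderiv ℂ (fun p => (f n p).2) 0 p = b n * p.2 := by
      have : HasFDerivAt (fun p => (f n p).2)
          ((ContinuousLinearMap.snd ℂ ℂ ℂ).comp (fderiv ℂ (f n) 0)) 0 :=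
        ((df n) 0).hasFDerivAt.snd
      rw [this.fderiv]
      simp [hfd]
    rw [h0, e5] at h
    simpa using h
  choose Q1 Q2 Q3 b1 b2 b3 k1 using H1
  choose Q4 Q5 Q6 b4 b5 b6 k2 using H2
  refine main_jet (fi := fi) (Q1 := Q1) (Q2 := Q2) (Q3 := Q3) (Q4 := Q4) (Q5 := Q5) (Q6 := Q6)
    (S := 12 * B / R ^ 2) (M := 8 * B / R ^ 3) (r := R / 2) df dfi lf rf hC hD hCD ha hb b1 b2 b3
    b4 b5 b6 (by positivity) (by positivity) (fun n p hp => ?_)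
  have hp' : ‖p‖ < R := by linarith
  have e : 8 * B / R ^ 3 * ‖p‖ ^ 3 = 8 * B * (‖p‖ / R) ^ 3 := by rw [div_pow]; ring
  rw [e, Prod.norm_def]
  refine max_le ?_ ?_
  · refine le_trans (le_of_eq ?_) (k1 n p hp')
    congr 1
    simp [qm]; ring
  · refine le_trans (le_of_eq ?_) (k2 n p hp')
    congr 1
    simp [qm]; ring

end Pool.Agent.TH238
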