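import Pool.Agent.TH238.T4Trop
import Pool.Agent.TH238.T4Loc

set_option autoImplicit false

/-!
Automorphisms in normal form, the cut system, invariant boxes and the comparison of the two
systems.
-/

namespace Pool.Agent.TH238

open Set Filter Topology Metric

/-- Polynomial model map. -/
noncomputable def gmap (a b C2 C3 E2 E3 : ℂ) (p : ℂ × ℂ) : ℂ × ℂ :=
  (a * p.1 + (C2 * p.2 ^ 2 + C3 * p.2 ^ 3), b * p.2 + (E2 * p.1 ^ 2 + E3 * p.1 ^ 3))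

/-- Inverse of the model map with `E2 = E3 = 0`. -/
noncomputable def ginv1 (a b C2 C3 : ℂ) (p : ℂ × ℂ) : ℂ × ℂ :=
  ((p.1 - (C2 * (p.2 / b) ^ 2 + C3 * (p.2 / b) ^ 3)) / a, p.2 / b)

/-- Inverse of the model map with `C2 = C3 = 0`. -/
noncomputable def ginv2 (a b E2 E3 : ℂ) (p : ℂ × ℂ) : ℂ × ℂ :=
  (p.1 / a, (p.2 - (E2 * (p.1 / a) ^ 2 + E3 * (p.1 / a) ^ 3)) / b)

theorem gmap_diff (a b C2 C3 E2 E3 : ℂ) : Differentiable ℂ (gmap a b C2 C3 E2 E3) := by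
  unfold gmap; fun_prop

theorem ginv1_diff (a b C2 C3 : ℂ) : Differentiable ℂ (ginv1 a b C2 C3) := by
  unfold ginv1; fun_prop

theorem ginv2_diff (a b E2 E3 : ℂ) : Differentiable ℂ (ginv2 a b E2 E3) := by
  unfold ginv2; fun_prop

theorem ginv1_gmap {a b : ℂ} (ha : a ≠ 0) (hb : b ≠ 0) (C2 C3 : ℂ) (p : ℂ × ℂ) :
    ginv1 a b C2 C3 (gmap a b C2 C3 0 0 p) = p := by
  unfold ginv1 gmap
  ext
  · simp; field_simp; ring
  · simp; field_simp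

theorem gmap_ginv1 {a b : ℂ} (ha : a ≠ 0) (hb : b ≠ 0) (C2 C3 : ℂ) (p : ℂ × ℂ) :
    gmap a b C2 C3 0 0 (ginv1 a b C2 C3 p) = p := by
  unfold ginv1 gmap
  ext
  · simp; field_simp; ring
  · simp; field_simp

theorem ginv2_gmap {a b : ℂ} (ha : a ≠ 0) (hb : b ≠ 0) (E2 E3 : ℂ) (p : ℂ × ℂ) :
    ginv2 a b E2 E3 (gmap a b 0 0 E2 E3 p) = p := by
  unfold ginv2 gmap
  ext
  · simp; field_simp
  · simp; field_simp; ring

theorem gmap_ginv2 {a b : ℂ} (ha : a ≠ 0) (hb : b ≠ 0) (E2 E3 : ℂ) (p : ℂ × ℂ) :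
    gmap a b 0 0 E2 E3 (ginv2 a b E2 E3 p) = p := by
  unfold ginv2 gmap
  ext
  · simp; field_simp
  · simp; field_simp; ring

theorem gmap_det (a b C2 C3 E2 E3 : ℂ) (p : ℂ × ℂ) :
    det2 (fderiv ℂ (gmap a b C2 C3 E2 E3) p) =
      a * b - (2 * C2 * p.2 + 3 * C3 * p.2 ^ 2) * (2 * E2 * p.1 + 3 * E3 * p.1 ^ 2) := by
  have h1 : HasFDerivAt (fun p : ℂ × ℂ => p.1) (ContinuousLinearMap.fst ℂ ℂ ℂ) p :=
    hasFDerivAt_fst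
  have h2 : HasFDerivAt (fun p : ℂ × ℂ => p.2) (ContinuousLinearMap.snd ℂ ℂ ℂ) p :=
    hasFDerivAt_snd
  have h5 : HasFDerivAt (fun q : ℂ × ℂ => E2 * q.1 ^ 2 + E3 * q.1 ^ 3)
      ((2 * E2 * p.1 + 3 * E3 * p.1 ^ 2) • ContinuousLinearMap.fst ℂ ℂ ℂ) p := by
    have h : HasDerivAt (fun s : ℂ => E2 * s ^ 2 + E3 * s ^ 3)
        (2 * E2 * p.1 + 3 * E3 * p.1 ^ 2) p.1 := by
      refine (((hasDerivAt_pow 2 p.1).const_mul E2).add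
        ((hasDerivAt_pow 3 p.1).const_mul E3)).congr_deriv ?_
      push_cast; ring
    exact h.comp_hasFDerivAt p h1
  have h6 : HasFDerivAt (fun q : ℂ × ℂ => C2 * q.2 ^ 2 + C3 * q.2 ^ 3)
      ((2 * C2 * p.2 + 3 * C3 * p.2 ^ 2) • ContinuousLinearMap.snd ℂ ℂ ℂ) p := by
    have h : HasDerivAt (fun s : ℂ => C2 * s ^ 2 + C3 * s ^ 3)
        (2 * C2 * p.2 + 3 * C3 * p.2 ^ 2) p.2 := by
      refine (((hasDerivAt_pow 2 p.2).const_mul C2).add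
        ((hasDerivAt_pow 3 p.2).const_mul C3)).congr_deriv ?_
      push_cast; ring
    exact h.comp_hasFDerivAt p h2
  have g1 : HasFDerivAt (fun q : ℂ × ℂ => a * q.1) (a • ContinuousLinearMap.fst ℂ ℂ ℂ) p :=
    h1.const_mul a
  have g2 : HasFDerivAt (fun q : ℂ × ℂ => b * q.2) (b • ContinuousLinearMap.snd ℂ ℂ ℂ) p :=
    h2.const_mul b
  have h3 : HasFDerivAt (gmap a b C2 C3 E2 E3) _ p := (g1.fun_add h6).prodMk (g2.fun_add h5)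
  rw [h3.fderiv]
  simp [det2]

/-- Automorphisms in normal form with uniform bounds. -/
structure Nf (f fi : ℕ → ℂ × ℂ → ℂ × ℂ) (a b c2 c3 e2 e3 : ℕ → ℂ) (M r0 : ℝ) : Prop where
  df : ∀ n, Differentiable ℂ (f n)
  dfi : ∀ n, Differentiable ℂ (fi n)
  lf : ∀ n p, fi n (f n p) = p
  rf : ∀ n p, f n (fi n p) = p
  M0 : 0 ≤ M
  nf1 : ∀ n (p : ℂ × ℂ), ‖p.1‖ ≤ r0 → ‖p.2‖ ≤ r0 →
    ‖(f n p).1 - (a n * p.1 + (c2 n * p.2 ^ 2 + c3 n * p.2 ^ 3))‖ ≤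
      M * (‖p.1‖ * (‖p.1‖ + ‖p.2‖) ^ 2 + ‖p.2‖ ^ 4)
  nf2 : ∀ n (p : ℂ × ℂ), ‖p.1‖ ≤ r0 → ‖p.2‖ ≤ r0 →
    ‖(f n p).2 - (b n * p.2 + (e2 n * p.1 ^ 2 + e3 n * p.1 ^ 3))‖ ≤
      M * (‖p.2‖ * (‖p.2‖ + ‖p.1‖) ^ 2 + ‖p.1‖ ^ 4)
  bc2 : ∀ n, ‖c2 n‖ ≤ M
  bc3 : ∀ n, ‖c3 n‖ ≤ M
  be2 : ∀ n, ‖e2 n‖ ≤ M
  be3 : ∀ n, ‖e3 n‖ ≤ M
  det : ∀ n (p : ℂ × ℂ), ‖p.1‖ ≤ r0 → ‖p.2‖ ≤ r0 →
    ‖det2 (fderiv ℂ (f n) p) - a n * b n‖ ≤ M * (‖p.1‖ + ‖p.2‖)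

/-- harmful times -/
def Hm (c S : ℝ) (β N : ℕ → ℝ) (n : ℕ) : Prop := 3 * β n ≤ (1 + c) * N n + S

open Classical in
/-- the cut system -/
noncomputable def gcut (a b c2 c3 e2 e3 : ℕ → ℂ) (c S : ℝ) (α β N : ℕ → ℝ) (n : ℕ) :
    ℂ × ℂ → ℂ × ℂ :=
  if Hm c S β N n then gmap (a n) (b n) (c2 n) (c3 n) 0 0
  else if Hm c S α N n then gmap (a n) (b n) 0 0 (e2 n) (e3 n)
  else gmap (a n) (b n) 0 0 0 0

open Classical in
/-- the inverses of the cut system -/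
noncomputable def gcuti (a b c2 c3 e2 e3 : ℕ → ℂ) (c S : ℝ) (α β N : ℕ → ℝ) (n : ℕ) :
    ℂ × ℂ → ℂ × ℂ :=
  if Hm c S β N n then ginv1 (a n) (b n) (c2 n) (c3 n)
  else if Hm c S α N n then ginv2 (a n) (b n) (e2 n) (e3 n)
  else ginv2 (a n) (b n) 0 0

/-- all the data and their relations -/
structure Set4 (f fi : ℕ → ℂ × ℂ → ℂ × ℂ) (a b c2 c3 e2 e3 : ℕ → ℂ) (M r0 : ℝ)
    (x y : ℕ → ℝ) (c d e0 C1 S h : ℝ) (α β N : ℕ → ℝ) : Prop where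
  F : Nf f fi a b c2 c3 e2 e3 M r0
  T : Tro x y c S h 0 α β N
  dpos : 0 < d
  epos : 0 < e0
  ed : 20 * e0 ≤ c * d
  na : ∀ n, ‖a n‖ = Real.exp (-(x n + e0))
  nb : ∀ n, ‖b n‖ = Real.exp (-(y n + e0))
  hd : ∀ n, 1.9 * d ≤ x n + y n
  C0 : 0 ≤ C1
  Cr : Real.exp (-C1) ≤ r0
  hC : Real.exp (-e0) + 7 * M * Real.exp (2 * S - C1) ≤ 1
  hJ : 2 * M * Real.exp (-C1) ≤ Real.exp (-(S + 2 * e0)) * (1 - Real.exp (-e0))
  hA : 28 * M * Real.exp (S + 3 * e0 - C1) ≤ 1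

/-- size of the first coordinate of the image, for points near the origin -/
theorem size1 {a c2 c3 z w F : ℂ} {x e0 M S C1 u v u' : ℝ} (ha : ‖a‖ = Real.exp (-(x + e0)))
    (hM : 0 ≤ M) (hc2 : ‖c2‖ ≤ M) (hc3 : ‖c3‖ ≤ M)
    (hF : ‖F - (a * z + (c2 * w ^ 2 + c3 * w ^ 3))‖ ≤
      M * (‖z‖ * (‖z‖ + ‖w‖) ^ 2 + ‖w‖ ^ 4))
    (hxS : x ≤ S) (hS : 0 ≤ S) (C0 : 0 ≤ C1)
    (hC : Real.exp (-e0) + 7 * M * Real.exp (2 * S - C1) ≤ 1)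
    (hz : ‖z‖ ≤ Real.exp (-C1 - u)) (hw : ‖w‖ ≤ Real.exp (-C1 - v))
    (hu : 0 ≤ u) (hv : 0 ≤ v) (h1 : u' ≤ u + x) (h2 : u' ≤ 2 * v + 2 * S) :
    ‖F‖ ≤ Real.exp (-C1 - u') := by
  set Z := Real.exp (-C1 - u) with hZ
  set W := Real.exp (-C1 - v) with hW
  have Z0 : 0 < Z := Real.exp_pos _
  have W0 : 0 < W := Real.exp_pos _
  have hz0 := norm_nonneg z
  have hw0 := norm_nonneg w
  have Z1 : Z ≤ Real.exp (-C1) := Real.exp_le_exp.2 (by linarith)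
  have W1 : W ≤ Real.exp (-C1) := Real.exp_le_exp.2 (by linarith)
  have hE1 : Real.exp (-C1) ≤ 1 := Real.exp_le_one_iff.2 (by linarith)
  have hE0 : 0 < Real.exp (-C1) := Real.exp_pos _
  have hw1 : ‖w‖ ≤ 1 := hw.trans (W1.trans hE1)
  -- pieces
  have p1 : ‖a * z‖ ≤ Real.exp (-e0) * Real.exp (-C1 - u') := by
    rw [norm_mul, ha]
    calc Real.exp (-(x + e0)) * ‖z‖ ≤ Real.exp (-(x + e0)) * Z :=
          mul_le_mul_of_nonneg_left hz (Real.exp_pos _).le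
      _ = Real.exp (-e0) * Real.exp (-C1 - (u + x)) := by
          rw [hZ, ← Real.exp_add, ← Real.exp_add]; congr 1; ring
      _ ≤ _ := mul_le_mul_of_nonneg_left (Real.exp_le_exp.2 (by linarith)) (Real.exp_pos _).le
  have q1 : ‖w‖ ^ 2 ≤ Real.exp (2 * S - C1) * Real.exp (-C1 - u') := by
    calc ‖w‖ ^ 2 ≤ W ^ 2 := pow_le_pow_left₀ hw0 hw 2
      _ = Real.exp (-2 * C1 - 2 * v) := by
          rw [hW, ← Real.exp_nat_mul]; congr 1; push_cast; ring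
      _ ≤ Real.exp ((2 * S - C1) + (-C1 - u')) := Real.exp_le_exp.2 (by linarith)
      _ = _ := Real.exp_add _ _
  have q3 : ‖w‖ ^ 3 ≤ ‖w‖ ^ 2 := pow_le_pow_of_le_one hw0 hw1 (by norm_num)
  have q4 : ‖w‖ ^ 4 ≤ ‖w‖ ^ 2 := pow_le_pow_of_le_one hw0 hw1 (by norm_num)
  have p2 : ‖c2 * w ^ 2 + c3 * w ^ 3‖ ≤ 2 * M * ‖w‖ ^ 2 := by
    calc ‖c2 * w ^ 2 + c3 * w ^ 3‖ ≤ ‖c2 * w ^ 2‖ + ‖c3 * w ^ 3‖ := norm_add_le _ _
      _ = ‖c2‖ * ‖w‖ ^ 2 + ‖c3‖ * ‖w‖ ^ 3 := by rw [norm_mul, norm_mul, norm_pow, norm_pow]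
      _ ≤ M * ‖w‖ ^ 2 + M * ‖w‖ ^ 2 := by
          apply add_le_add
          · exact mul_le_mul_of_nonneg_right hc2 (by positivity)
          · exact mul_le_mul hc3 q3 (by positivity) hM
      _ = 2 * M * ‖w‖ ^ 2 := by ring
  have q5 : ‖z‖ * (‖z‖ + ‖w‖) ^ 2 ≤ 4 * (Real.exp (2 * S - C1) * Real.exp (-C1 - u')) := by
    have h3 : (‖z‖ + ‖w‖) ^ 2 ≤ 4 * Real.exp (-C1) := by
      calc (‖z‖ + ‖w‖) ^ 2 ≤ (2 * Real.exp (-C1)) ^ 2 :=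
            pow_le_pow_left₀ (by positivity) (by linarith) 2
        _ = 4 * (Real.exp (-C1) * Real.exp (-C1)) := by ring
        _ ≤ 4 * (Real.exp (-C1) * 1) := by gcongr
        _ = _ := by ring
    calc ‖z‖ * (‖z‖ + ‖w‖) ^ 2 ≤ Z * (4 * Real.exp (-C1)) :=
          mul_le_mul hz h3 (by positivity) Z0.le
      _ = 4 * Real.exp (-C1 + (-C1 - u)) := by rw [Real.exp_add]; ring
      _ ≤ 4 * Real.exp ((2 * S - C1) + (-C1 - u')) := by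
          apply mul_le_mul_of_nonneg_left _ (by norm_num)
          exact Real.exp_le_exp.2 (by linarith)
      _ = _ := by rw [Real.exp_add]
  set X := Real.exp (2 * S - C1) * Real.exp (-C1 - u') with hX
  have X0 : 0 < X := by positivity
  have hFn : ‖F‖ ≤ ‖F - (a * z + (c2 * w ^ 2 + c3 * w ^ 3))‖ + (‖a * z‖ +
      ‖c2 * w ^ 2 + c3 * w ^ 3‖) := by
    calc ‖F‖ = ‖(F - (a * z + (c2 * w ^ 2 + c3 * w ^ 3))) +
          (a * z + (c2 * w ^ 2 + c3 * w ^ 3))‖ := by ring_nf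
      _ ≤ _ + ‖a * z + (c2 * w ^ 2 + c3 * w ^ 3)‖ := norm_add_le _ _
      _ ≤ _ := by gcongr; exact norm_add_le _ _
  have e1 : M * (‖z‖ * (‖z‖ + ‖w‖) ^ 2 + ‖w‖ ^ 4) ≤ M * (4 * X + X) :=
    mul_le_mul_of_nonneg_left (add_le_add q5 (q4.trans q1)) hM
  have e2 : 2 * M * ‖w‖ ^ 2 ≤ 2 * M * X := mul_le_mul_of_nonneg_left q1 (by positivity)
  calc ‖F‖ ≤ M * (4 * X + X) + (Real.exp (-e0) * Real.exp (-C1 - u') + 2 * M * X) := by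
        linarith
    _ = (Real.exp (-e0) + 7 * M * Real.exp (2 * S - C1)) * Real.exp (-C1 - u') := by
        rw [hX]; ring
    _ ≤ 1 * Real.exp (-C1 - u') := mul_le_mul_of_nonneg_right hC (Real.exp_pos _).le
    _ = _ := one_mul _

/-- size of the first coordinate of the model map, for arbitrary points -/
theorem size2 {a c2 c3 z w : ℂ} {x e0 M S C1 u v u' : ℝ} (ha : ‖a‖ = Real.exp (-(x + e0)))
    (hM : 0 ≤ M) (hc2 : ‖c2‖ ≤ M) (hc3 : ‖c3‖ ≤ M) (C0 : 0 ≤ C1)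
    (hC : Real.exp (-e0) + 7 * M * Real.exp (2 * S - C1) ≤ 1)
    (hz : ‖z‖ ≤ Real.exp (-C1 - u)) (hw : ‖w‖ ≤ Real.exp (-C1 - v))
    (h1 : u' ≤ u + x) (h2 : u' ≤ 2 * v + 2 * S) (h3 : u' ≤ 3 * v + 2 * S) :
    ‖a * z + (c2 * w ^ 2 + c3 * w ^ 3)‖ ≤ Real.exp (-C1 - u') := by
  have hw0 := norm_nonneg w
  have p1 : ‖a * z‖ ≤ Real.exp (-e0) * Real.exp (-C1 - u') := by
    rw [norm_mul, ha]
    calc Real.exp (-(x + e0)) * ‖z‖ ≤ Real.exp (-(x + e0)) * Real.exp (-C1 - u) :=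
          mul_le_mul_of_nonneg_left hz (Real.exp_pos _).le
      _ = Real.exp (-e0) * Real.exp (-C1 - (u + x)) := by
          rw [← Real.exp_add, ← Real.exp_add]; congr 1; ring
      _ ≤ _ := mul_le_mul_of_nonneg_left (Real.exp_le_exp.2 (by linarith)) (Real.exp_pos _).le
  set X := Real.exp (2 * S - C1) * Real.exp (-C1 - u') with hX
  have X0 : 0 < X := by positivity
  have q2 : ‖w‖ ^ 2 ≤ X := by
    calc ‖w‖ ^ 2 ≤ Real.exp (-C1 - v) ^ 2 := pow_le_pow_left₀ hw0 hw 2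
      _ = Real.exp (-2 * C1 - 2 * v) := by
          rw [← Real.exp_nat_mul]; congr 1; push_cast; ring
      _ ≤ Real.exp ((2 * S - C1) + (-C1 - u')) := Real.exp_le_exp.2 (by linarith)
      _ = _ := Real.exp_add _ _
  have q3 : ‖w‖ ^ 3 ≤ X := by
    calc ‖w‖ ^ 3 ≤ Real.exp (-C1 - v) ^ 3 := pow_le_pow_left₀ hw0 hw 3
      _ = Real.exp (-3 * C1 - 3 * v) := by
          rw [← Real.exp_nat_mul]; congr 1; push_cast; ring
      _ ≤ Real.exp ((2 * S - C1) + (-C1 - u')) := Real.exp_le_exp.2 (by linarith)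
      _ = _ := Real.exp_add _ _
  have p2 : ‖c2 * w ^ 2 + c3 * w ^ 3‖ ≤ 2 * M * X := by
    calc ‖c2 * w ^ 2 + c3 * w ^ 3‖ ≤ ‖c2 * w ^ 2‖ + ‖c3 * w ^ 3‖ := norm_add_le _ _
      _ = ‖c2‖ * ‖w‖ ^ 2 + ‖c3‖ * ‖w‖ ^ 3 := by rw [norm_mul, norm_mul, norm_pow, norm_pow]
      _ ≤ M * X + M * X := by
          apply add_le_add
          · exact mul_le_mul hc2 q2 (by positivity) hM
          · exact mul_le_mul hc3 q3 (by positivity) hM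
      _ = 2 * M * X := by ring
  have h4 := norm_add_le (a * z) (c2 * w ^ 2 + c3 * w ^ 3)
  have h5 : 0 ≤ M * X := by positivity
  calc ‖a * z + (c2 * w ^ 2 + c3 * w ^ 3)‖ ≤
        Real.exp (-e0) * Real.exp (-C1 - u') + 7 * (M * X) := by linarith
    _ = (Real.exp (-e0) + 7 * M * Real.exp (2 * S - C1)) * Real.exp (-C1 - u') := by
        rw [hX]; ring
    _ ≤ 1 * Real.exp (-C1 - u') := mul_le_mul_of_nonneg_right hC (Real.exp_pos _).le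
    _ = _ := one_mul _

theorem size3 {a z : ℂ} {x e0 C1 u u' : ℝ} (ha : ‖a‖ = Real.exp (-(x + e0))) (he : 0 ≤ e0)
    (hz : ‖z‖ ≤ Real.exp (-C1 - u)) (h1 : u' ≤ u + x) :
    ‖a * z‖ ≤ Real.exp (-C1 - u') := by
  rw [norm_mul, ha]
  calc Real.exp (-(x + e0)) * ‖z‖ ≤ Real.exp (-(x + e0)) * Real.exp (-C1 - u) :=
        mul_le_mul_of_nonneg_left hz (Real.exp_pos _).le
    _ = Real.exp (-e0 + (-C1 - (u + x))) := by
        rw [← Real.exp_add]; congr 1; ring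
    _ ≤ _ := Real.exp_le_exp.2 (by linarith)

/-- products which are small -/
theorem harmless {C1 α β E N c M : ℝ} {z w : ℂ} {W : ℝ} (hM : 0 ≤ M) (C0 : 0 ≤ C1)
    (hE : 0 ≤ E)
    (hW : W ≤ Real.exp (-C1 - β + E))
    (hz : ‖z‖ ≤ Real.exp (-C1 - α + E)) (hw : ‖w‖ ≤ Real.exp (-C1 - β + E))
    (h31 : (1 + c) * N ≤ 3 * α + β) (h13 : (1 + c) * N ≤ α + 3 * β)
    (h5 : (1 + c) * N ≤ 5 * β) :
    W * (M * (‖z‖ * (‖z‖ + ‖w‖) ^ 2 + ‖w‖ ^ 4)) ≤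
      5 * M * Real.exp (-3 * C1 + 5 * E - (1 + c) * N) := by
  set Z := Real.exp (-C1 - α + E) with hZ
  set V := Real.exp (-C1 - β + E) with hV
  set X := Real.exp (-3 * C1 + 5 * E - (1 + c) * N) with hX
  have Z0 : 0 < Z := Real.exp_pos _
  have V0 : 0 < V := Real.exp_pos _
  have hz0 := norm_nonneg z
  have hw0 := norm_nonneg w
  have k1 : Z ^ 3 * V ≤ X := by
    rw [hZ, hV, ← Real.exp_nat_mul, ← Real.exp_add]
    apply Real.exp_le_exp.2; push_cast; linarith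
  have k2 : Z * V ^ 3 ≤ X := by
    rw [hZ, hV, ← Real.exp_nat_mul, ← Real.exp_add]
    apply Real.exp_le_exp.2; push_cast; linarith
  have k3 : V ^ 5 ≤ X := by
    rw [hV, ← Real.exp_nat_mul]
    apply Real.exp_le_exp.2; push_cast; linarith
  have k4 : ‖z‖ * (‖z‖ + ‖w‖) ^ 2 ≤ 2 * (Z ^ 3 + Z * V ^ 2) := by
    have h1 : ‖z‖ * (‖z‖ + ‖w‖) ^ 2 ≤ Z * (Z + V) ^ 2 :=
      mul_le_mul hz (pow_le_pow_left₀ (by positivity) (add_le_add hz hw) 2) (by positivity)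
        Z0.le
    have h2 : 0 ≤ Z * (Z - V) ^ 2 := by positivity
    nlinarith
  have k5 : ‖w‖ ^ 4 ≤ V ^ 4 := pow_le_pow_left₀ hw0 hw 4
  calc W * (M * (‖z‖ * (‖z‖ + ‖w‖) ^ 2 + ‖w‖ ^ 4)) ≤
        V * (M * (2 * (Z ^ 3 + Z * V ^ 2) + V ^ 4)) := by
        apply mul_le_mul hW _ (by positivity) V0.le
        exact mul_le_mul_of_nonneg_left (add_le_add k4 k5) hM
    _ = M * (2 * (Z ^ 3 * V) + 2 * (Z * V ^ 3) + V ^ 5) := by ring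
    _ ≤ M * (2 * X + 2 * X + X) := by
        apply mul_le_mul_of_nonneg_left _ hM
        linarith
    _ = 5 * M * X := by ring

theorem harmless2 {C1 β E N c M : ℝ} {w c2 c3 : ℂ} {W : ℝ} (hM : 0 ≤ M) (C0 : 0 ≤ C1)
    (hE : 0 ≤ E) (hW : W ≤ Real.exp (-C1 - β + E))
    (hc2 : ‖c2‖ ≤ M) (hc3 : ‖c3‖ ≤ M)
    (hw : ‖w‖ ≤ Real.exp (-C1 - β + E)) (hβ : E ≤ β)
    (h3 : (1 + c) * N ≤ 3 * β) :
    W * ‖c2 * w ^ 2 + c3 * w ^ 3‖ ≤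
      2 * M * Real.exp (-3 * C1 + 5 * E - (1 + c) * N) := by
  set V := Real.exp (-C1 - β + E) with hV
  set X := Real.exp (-3 * C1 + 5 * E - (1 + c) * N) with hX
  have V0 : 0 < V := Real.exp_pos _
  have hw0 := norm_nonneg w
  have hV1 : V ≤ 1 := Real.exp_le_one_iff.2 (by linarith)
  have k1 : V ^ 3 ≤ X := by
    rw [hV, ← Real.exp_nat_mul]
    apply Real.exp_le_exp.2; push_cast; linarith
  have k2 : ‖c2 * w ^ 2 + c3 * w ^ 3‖ ≤ 2 * M * V ^ 2 := by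
    calc ‖c2 * w ^ 2 + c3 * w ^ 3‖ ≤ ‖c2 * w ^ 2‖ + ‖c3 * w ^ 3‖ := norm_add_le _ _
      _ = ‖c2‖ * ‖w‖ ^ 2 + ‖c3‖ * ‖w‖ ^ 3 := by rw [norm_mul, norm_mul, norm_pow, norm_pow]
      _ ≤ M * V ^ 2 + M * V ^ 2 := by
          apply add_le_add
          · exact mul_le_mul hc2 (pow_le_pow_left₀ hw0 hw 2) (by positivity) hM
          · refine mul_le_mul hc3 ?_ (by positivity) hM
            exact (pow_le_pow_left₀ hw0 hw 3).trans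
              (pow_le_pow_of_le_one V0.le hV1 (by norm_num))
      _ = 2 * M * V ^ 2 := by ring
  calc W * ‖c2 * w ^ 2 + c3 * w ^ 3‖ ≤ V * (2 * M * V ^ 2) :=
        mul_le_mul hW k2 (norm_nonneg _) V0.le
    _ = 2 * M * V ^ 3 := by ring
    _ ≤ 2 * M * X := mul_le_mul_of_nonneg_left k1 (by positivity)

end Pool.Agent.TH238
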