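import Mathlib

set_option autoImplicit false

/-!
Size exponents for compositions of automorphisms of `ℂ²` with diagonal linear parts
(multipliers pinched by a fourth power), and the abstract gap lemma.
-/

namespace Pool.Agent.TH238

open Filter Topology

/-- The exponent system: `α, β` are the exponents of the two coordinates, `N` the exponent of
the Jacobian; `x, y` are the rates. -/
structure Tro (x y : ℕ → ℝ) (c S h : ℝ) (n0 : ℕ) (α β N : ℕ → ℝ) : Prop where
  c0 : 0 < c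
  c1 : c ≤ 0.001
  hx : ∀ n, (1 + 4 * c) * (x n + y n) ≤ 5 * x n
  hy : ∀ n, (1 + 4 * c) * (x n + y n) ≤ 5 * y n
  hS : ∀ n, x n + y n ≤ S
  h0 : ∀ n, 0 ≤ x n + y n
  hSpos : 0 < S
  hh : 10000 * S ≤ h
  ia : α n0 = h
  ib : β n0 = h
  iN : N n0 = 2 * h
  stN : ∀ n, n0 ≤ n → N (n + 1) = N n + (x n + y n)
  sa : ∀ n, n0 ≤ n → α (n + 1) = min (α n + x n) (2 * (β n + y n))
  sb : ∀ n, n0 ≤ n → β (n + 1) = min (β n + y n) (2 * (α n + x n))

namespace Tro

variable {x y : ℕ → ℝ} {c S h : ℝ} {n0 : ℕ} {α β N : ℕ → ℝ}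

theorem swap (T : Tro x y c S h n0 α β N) : Tro y x c S h n0 β α N where
  c0 := T.c0
  c1 := T.c1
  hx := fun n => by have := T.hy n; linarith
  hy := fun n => by have := T.hx n; linarith
  hS := fun n => by have := T.hS n; linarith
  h0 := fun n => by have := T.h0 n; linarith
  hSpos := T.hSpos
  hh := T.hh
  ia := T.ib
  ib := T.ia
  iN := T.iN
  stN := fun n hn => by rw [T.stN n hn]; ring
  sa := T.sb
  sb := T.sa

theorem hpos (T : Tro x y c S h n0 α β N) : 0 < h := by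
  have h1 := T.hh; have h2 := T.hSpos; linarith

theorem x5 (T : Tro x y c S h n0 α β N) (n : ℕ) : x n + y n ≤ 5 * x n := by
  have h1 := T.hx n; have h2 := T.c0; have h3 := T.h0 n
  nlinarith

theorem y5 (T : Tro x y c S h n0 α β N) (n : ℕ) : x n + y n ≤ 5 * y n := by
  have h1 := T.hy n; have h2 := T.c0; have h3 := T.h0 n
  nlinarith

theorem xnn (T : Tro x y c S h n0 α β N) (n : ℕ) : 0 ≤ x n := by
  have h1 := T.x5 n; have h3 := T.h0 n
  linarith

theorem ynn (T : Tro x y c S h n0 α β N) (n : ℕ) : 0 ≤ y n := T.swap.xnn n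

theorem xS (T : Tro x y c S h n0 α β N) (n : ℕ) : x n ≤ S := by
  have h1 := T.hS n; have h3 := T.ynn n
  linarith

theorem yS (T : Tro x y c S h n0 α β N) (n : ℕ) : y n ≤ S := T.swap.xS n

theorem N_succ_ge (T : Tro x y c S h n0 α β N) {n : ℕ} (hn : n0 ≤ n) : N n ≤ N (n + 1) := by
  have h1 := T.stN n hn; have h2 := T.h0 n; linarith

theorem N_mono (T : Tro x y c S h n0 α β N) {m n : ℕ} (hm : n0 ≤ m) (hn : m ≤ n) :
    N m ≤ N n := by
  induction n, hn using Nat.le_induction with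
  | base => exact le_rfl
  | succ k hk ih => exact ih.trans (T.N_succ_ge (hm.trans hk))

theorem N_ge (T : Tro x y c S h n0 α β N) {n : ℕ} (hn : n0 ≤ n) : 2 * h ≤ N n := by
  have := T.N_mono le_rfl hn
  rw [T.iN] at this; exact this

theorem N_pos (T : Tro x y c S h n0 α β N) {n : ℕ} (hn : n0 ≤ n) : 0 < N n := by
  have := T.N_ge hn; have := T.hpos; linarith

/-- cone conditions -/
theorem cone (T : Tro x y c S h n0 α β N) {n : ℕ} (hn : n0 ≤ n) :
    h ≤ α n ∧ h ≤ β n ∧ α n ≤ 2 * β n ∧ β n ≤ 2 * α n := by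
  induction n, hn using Nat.le_induction with
  | base =>
    have := T.hpos
    rw [T.ia, T.ib]; refine ⟨le_rfl, le_rfl, ?_, ?_⟩ <;> linarith
  | succ k hk ih =>
    obtain ⟨i1, i2, i3, i4⟩ := ih
    have hp := T.hpos
    have e1 := T.xnn k; have e2 := T.ynn k
    rw [T.sa k hk, T.sb k hk]
    rcases le_total (α k + x k) (2 * (β k + y k)) with h1 | h1 <;>
      rcases le_total (β k + y k) (2 * (α k + x k)) with h2 | h2 <;>
      simp only [min_eq_left h1, min_eq_right h1, min_eq_left h2, min_eq_right h2] <;>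
      refine ⟨?_, ?_, ?_, ?_⟩ <;> linarith

/-- Every step: no cap, or a cap of the first, or of the second coordinate. -/
theorem step (T : Tro x y c S h n0 α β N) {n : ℕ} (hn : n0 ≤ n) :
    (α (n + 1) = α n + x n ∧ β (n + 1) = β n + y n) ∨
    (α (n + 1) = 2 * (β n + y n) ∧ 2 * (β n + y n) ≤ α n + x n ∧ β (n + 1) = β n + y n) ∨
    (α (n + 1) = α n + x n ∧ β (n + 1) = 2 * (α n + x n) ∧ 2 * (α n + x n) ≤ β n + y n) := by
  obtain ⟨i1, i2, i3, i4⟩ := T.cone hn
  have hp := T.hpos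
  have e1 := T.xnn n; have e2 := T.ynn n
  rw [T.sa n hn, T.sb n hn]
  rcases le_total (α n + x n) (2 * (β n + y n)) with h1 | h1
  · rcases le_total (β n + y n) (2 * (α n + x n)) with h2 | h2
    · left; exact ⟨min_eq_left h1, min_eq_left h2⟩
    · right; right; exact ⟨min_eq_left h1, min_eq_right h2, h2⟩
  · right; left
    refine ⟨min_eq_right h1, h1, min_eq_left ?_⟩
    linarith

theorem le_succ (T : Tro x y c S h n0 α β N) {n : ℕ} (hn : n0 ≤ n) :
    α n ≤ α (n + 1) ∧ α (n + 1) ≤ α n + x n ∧ α (n + 1) ≤ 2 * (β n + y n) := by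
  obtain ⟨i1, i2, i3, i4⟩ := T.cone hn
  have e1 := T.xnn n; have e2 := T.ynn n
  rw [T.sa n hn]
  exact ⟨le_min (by linarith) (by linarith), min_le_left _ _, min_le_right _ _⟩

/-- lower bounds for the exponents -/
theorem ge_nu (T : Tro x y c S h n0 α β N) {n : ℕ} (hn : n0 ≤ n) :
    (1 + 4 * c) * N n ≤ 5 * α n ∧ (1 + 4 * c) * N n ≤ 5 * β n := by
  induction n, hn using Nat.le_induction with
  | base =>
    have hp := T.hpos; have := T.c1
    rw [T.ia, T.ib, T.iN]; constructor <;> nlinarith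
  | succ k hk ih =>
    obtain ⟨i1, i2⟩ := ih
    have e1 := T.hx k; have e2 := T.hy k; have e3 := T.h0 k
    have e4 := T.c0
    have hN := T.N_pos hk
    have e5 : 0 ≤ (1 + 4 * c) * (N k + (x k + y k)) := by positivity
    rw [T.stN k hk]
    rcases T.step hk with ⟨h1, h2⟩ | ⟨h1, h3, h2⟩ | ⟨h1, h2, h3⟩ <;> rw [h1, h2] <;>
      constructor <;> linarith

theorem ge5 (T : Tro x y c S h n0 α β N) {n : ℕ} (hn : n0 ≤ n) :
    N n ≤ 5 * α n ∧ N n ≤ 5 * β n := by
  obtain ⟨h1, h2⟩ := T.ge_nu hn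
  have h3 := T.c0
  have h4 := T.N_pos hn
  constructor <;> nlinarith

theorem add_le (T : Tro x y c S h n0 α β N) {n : ℕ} (hn : n0 ≤ n) :
    α n + β n ≤ N n := by
  induction n, hn using Nat.le_induction with
  | base => rw [T.ia, T.ib, T.iN]; linarith
  | succ k hk ih =>
    have := (T.le_succ hk).2.1
    have := (T.swap.le_succ hk).2.1
    rw [T.stN k hk]
    linarith

/-- The disjunctive invariant. -/
theorem inv (T : Tro x y c S h n0 α β N) {n : ℕ} (hn : n0 ≤ n) :
    7 * N n ≤ 15 * α n + 5 * β n ∨ 7 * N n ≤ 5 * α n + 15 * β n := by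
  induction n, hn using Nat.le_induction with
  | base =>
    have hp := T.hpos
    rw [T.ia, T.ib, T.iN]; left; linarith
  | succ k hk ih =>
    have e1 := T.x5 k; have e2 := T.y5 k; have e3 := T.h0 k
    obtain ⟨g1, g2⟩ := T.ge5 hk
    rw [T.stN k hk]
    rcases T.step hk with ⟨h1, h2⟩ | ⟨h1, h3, h2⟩ | ⟨h1, h2, h3⟩
    · rw [h1, h2]
      rcases ih with ih | ih
      · left; linarith
      · right; linarith
    · rw [h1, h2]; left; linarith
    · rw [h1, h2]; right; linarith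

/-- harmless sums -/
theorem sum31 (T : Tro x y c S h n0 α β N) {n : ℕ} (hn : n0 ≤ n) :
    (1 + 2 * c) * N n ≤ 3 * α n + β n ∧ (1 + 2 * c) * N n ≤ α n + 3 * β n := by
  obtain ⟨g1, g2⟩ := T.ge_nu hn
  have hN := T.N_pos hn
  have hc := T.c0
  have hc1 := T.c1
  rcases T.inv hn with h1 | h1 <;> constructor <;> nlinarith

theorem sum22 (T : Tro x y c S h n0 α β N) {n : ℕ} (hn : n0 ≤ n) :
    1.2 * N n ≤ 2 * α n + 2 * β n := by
  obtain ⟨g1, g2⟩ := T.ge5 hn
  rcases T.inv hn with h1 | h1 <;> linarith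

/-- potentials -/
def phi (α β N : ℕ → ℝ) (n : ℕ) : ℝ := 7 * α n + 2 * β n - 3 * N n

/-- the potential of the first gap -/
noncomputable def cp (α β N : ℕ → ℝ) (n : ℕ) : ℝ := max (phi α β N n) (phi β α N n / 3.02)

/-- at harmful times the potentials differ by a factor -/
theorem harm (T : Tro x y c S h n0 α β N) {n : ℕ} (hn : n0 ≤ n)
    (hb : 3 * β n ≤ (1 + c) * N n + S) :
    3.02 * phi β α N n ≤ phi α β N n ∧ 0 < phi α β N n := by
  have hN := T.N_ge hn
  have hh := T.hh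
  have hSp := T.hSpos
  have hc1 := T.c1
  have hNp := T.N_pos hn
  have hb' : 3 * β n ≤ 1.001 * N n + S := by nlinarith
  unfold phi
  rcases T.inv hn with h1 | h1 <;> constructor <;> linarith

theorem harm_cp (T : Tro x y c S h n0 α β N) {n : ℕ} (hn : n0 ≤ n)
    (hb : 3 * β n ≤ (1 + c) * N n + S) :
    cp α β N n = phi α β N n ∧ cp β α N n = phi α β N n / 3.02 := by
  obtain ⟨h1, h2⟩ := T.harm hn hb
  unfold cp
  constructor
  · apply max_eq_left
    rw [div_le_iff₀ (by norm_num)]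
    linarith
  · apply max_eq_right
    rw [le_div_iff₀ (by norm_num)]
    linarith

theorem cp_lower (T : Tro x y c S h n0 α β N) {n : ℕ} (hn : n0 ≤ n) :
    0.03 * N n ≤ cp α β N n := by
  obtain ⟨g1, g2⟩ := T.ge5 hn
  have hN := T.N_pos hn
  have ha := T.add_le hn
  unfold cp
  by_cases h1 : 0.1 * N n ≤ phi α β N n
  · exact le_max_of_le_left (by linarith)
  · apply le_max_of_le_right
    rw [le_div_iff₀ (by norm_num)]
    unfold phi at h1 ⊢
    rcases T.inv hn with h2 | h2 <;> linarith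

theorem cp_upper (T : Tro x y c S h n0 α β N) {n : ℕ} (hn : n0 ≤ n) :
    cp α β N n ≤ 7 * N n := by
  obtain ⟨g1, g2⟩ := T.ge5 hn
  have hN := T.N_pos hn
  have ha := T.add_le hn
  unfold cp phi
  apply max_le
  · linarith
  · rw [div_le_iff₀ (by norm_num)]
    linarith

theorem cp_pos (T : Tro x y c S h n0 α β N) {n : ℕ} (hn : n0 ≤ n) : 0 < cp α β N n := by
  have := T.cp_lower hn; have := T.N_pos hn; linarith

/-- the potentials are monotone -/
theorem cp_mono (T : Tro x y c S h n0 α β N) {n : ℕ} (hn : n0 ≤ n) :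
    cp α β N n ≤ cp α β N (n + 1) := by
  have e1 := T.x5 n; have e2 := T.y5 n; have e3 := T.h0 n
  have e4 := T.xS n; have e5 := T.yS n; have e6 := T.xnn n; have e7 := T.ynn n
  have hN := T.N_pos hn
  have ha := T.add_le hn
  have hc := T.c0
  have hcN : 0 < c * N n := by positivity
  obtain ⟨i1, i2, i3, i4⟩ := T.cone hn
  rcases T.step hn with ⟨h1, h2⟩ | ⟨h1, h3, h2⟩ | ⟨h1, h2, h3⟩
  · unfold cp
    apply max_le_max
    · unfold phi; rw [h1, h2, T.stN n hn]; linarith
    · apply div_le_div_of_nonneg_right _ (by norm_num)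
      unfold phi; rw [h1, h2, T.stN n hn]; linarith
  · rw [(T.harm_cp hn (by linarith)).1]
    apply le_max_of_le_left
    unfold phi; rw [h1, h2, T.stN n hn]; linarith
  · rw [(T.swap.harm_cp hn (by linarith)).2]
    apply le_max_of_le_right
    apply div_le_div_of_nonneg_right _ (by norm_num)
    unfold phi; rw [h1, h2, T.stN n hn]; linarith

end Tro

/-- the exponent of the gap growth -/
noncomputable def th4 : ℝ := Real.log 3 / Real.log 3.02

theorem th4_pos : 0 < th4 := div_pos (Real.log_pos (by norm_num)) (Real.log_pos (by norm_num))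

theorem th4_lt_one : th4 < 1 := by
  unfold th4
  rw [div_lt_one (Real.log_pos (by norm_num))]
  exact Real.log_lt_log (by norm_num) (by norm_num)

theorem rpow_th4 : (3.02 : ℝ) ^ th4 = 3 := by
  unfold th4
  rw [Real.rpow_def_of_pos (by norm_num), mul_div_cancel₀ _
    (Real.log_pos (by norm_num)).ne', Real.exp_log (by norm_num)]

theorem rpow_third {u v : ℝ} (hu : 0 < u) (h : 3.02 * u ≤ v) : 3 * u ^ th4 ≤ v ^ th4 := by
  have h1 : (3.02 * u) ^ th4 ≤ v ^ th4 := Real.rpow_le_rpow (by positivity) h th4_pos.le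
  rwa [Real.mul_rpow (by norm_num) hu.le, rpow_th4] at h1

/-- The abstract gap lemma. -/
theorem gap4 {P Q cP cQ : ℕ → ℝ} {HF HG : ℕ → Prop} {n1 : ℕ} {K : ℝ} (hK : 0 ≤ K)
    (pP : ∀ n, n1 ≤ n → 0 < cP n) (pQ : ∀ n, n1 ≤ n → 0 < cQ n)
    (mP : ∀ n, n1 ≤ n → cP n ≤ cP (n + 1)) (mQ : ∀ n, n1 ≤ n → cQ n ≤ cQ (n + 1))
    (hF : ∀ n, n1 ≤ n → HF n → 3.02 * cQ n ≤ cP n)
    (hG : ∀ n, n1 ≤ n → HG n → 3.02 * cP n ≤ cQ n)
    (p0 : ∀ n, n1 ≤ n → ¬ HF n → P (n + 1) ≤ P n)
    (p1 : ∀ n, n1 ≤ n → HF n → P (n + 1) ≤ max (P n) (3 * Q n))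
    (q0 : ∀ n, n1 ≤ n → ¬ HG n → Q (n + 1) ≤ Q n)
    (q1 : ∀ n, n1 ≤ n → HG n → Q (n + 1) ≤ max (Q n) (3 * P n))
    (iP : P n1 ≤ K * cP n1 ^ th4) (iQ : Q n1 ≤ K * cQ n1 ^ th4) {n : ℕ} (hn : n1 ≤ n) :
    P n ≤ K * cP n ^ th4 ∧ Q n ≤ K * cQ n ^ th4 := by
  induction n, hn using Nat.le_induction with
  | base => exact ⟨iP, iQ⟩
  | succ k hk ih =>
    obtain ⟨i1, i2⟩ := ih
    have m1 : K * cP k ^ th4 ≤ K * cP (k + 1) ^ th4 :=
      mul_le_mul_of_nonneg_left (Real.rpow_le_rpow (pP k hk).le (mP k hk) th4_pos.le) hK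
    have m2 : K * cQ k ^ th4 ≤ K * cQ (k + 1) ^ th4 :=
      mul_le_mul_of_nonneg_left (Real.rpow_le_rpow (pQ k hk).le (mQ k hk) th4_pos.le) hK
    constructor
    · by_cases hh : HF k
      · refine (p1 k hk hh).trans (max_le (i1.trans m1) ?_)
        have h1 := rpow_third (pQ k hk) (hF k hk hh)
        have h2 := mul_le_mul_of_nonneg_left h1 hK
        linarith
      · exact (p0 k hk hh).trans (i1.trans m1)
    · by_cases hh : HG k
      · refine (q1 k hk hh).trans (max_le (i2.trans m2) ?_)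
        have h1 := rpow_third (pP k hk) (hG k hk hh)
        have h2 := mul_le_mul_of_nonneg_left h1 hK
        linarith
      · exact (q0 k hk hh).trans (i2.trans m2)

theorem th4_small {K e : ℝ} (he : 0 < e) : ∃ R : ℝ, 0 < R ∧ ∀ u : ℝ, R ≤ u →
    K * u ^ th4 ≤ e * u := by
  have h1 : Tendsto (fun u : ℝ => u ^ (1 - th4)) atTop atTop :=
    tendsto_rpow_atTop (by have := th4_lt_one; linarith)
  obtain ⟨R, hR⟩ := (h1.eventually_ge_atTop (K / e)).exists_forall_of_atTop
  refine ⟨max R 1, by positivity, fun u hu => ?_⟩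
  have hu1 : 0 < u := by
    have := le_max_right R 1; linarith
  have h2 := hR u ((le_max_left _ _).trans hu)
  have h3 : K ≤ e * u ^ (1 - th4) := by
    rw [div_le_iff₀ he] at h2; linarith
  have h4 : u ^ (1 - th4) * u ^ th4 = u := by
    rw [← Real.rpow_add hu1]; simp
  calc K * u ^ th4 ≤ e * u ^ (1 - th4) * u ^ th4 :=
        mul_le_mul_of_nonneg_right h3 (Real.rpow_nonneg hu1.le _)
    _ = e * u := by rw [mul_assoc, h4]

/-- Existence of the exponent system. -/
theorem exists_tro (x y : ℕ → ℝ) {c S h : ℝ} (c0 : 0 < c) (c1 : c ≤ 0.001)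
    (hx : ∀ n, (1 + 4 * c) * (x n + y n) ≤ 5 * x n)
    (hy : ∀ n, (1 + 4 * c) * (x n + y n) ≤ 5 * y n)
    (hS : ∀ n, x n + y n ≤ S) (h0 : ∀ n, 0 ≤ x n + y n) (hSpos : 0 < S)
    (hh : 10000 * S ≤ h) (n0 : ℕ) :
    ∃ α β N : ℕ → ℝ, Tro x y c S h n0 α β N := by
  let o : ℕ → ℝ × ℝ × ℝ := fun k => Nat.rec (h, h, 2 * h) (fun k p =>
    (min (p.1 + x (n0 + k)) (2 * (p.2.1 + y (n0 + k))),
      min (p.2.1 + y (n0 + k)) (2 * (p.1 + x (n0 + k))),
      p.2.2 + (x (n0 + k) + y (n0 + k)))) k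
  have ho : ∀ k, o (k + 1) =
    (min ((o k).1 + x (n0 + k)) (2 * ((o k).2.1 + y (n0 + k))),
      min ((o k).2.1 + y (n0 + k)) (2 * ((o k).1 + x (n0 + k))),
      (o k).2.2 + (x (n0 + k) + y (n0 + k))) := fun k => rfl
  have ho0 : o 0 = (h, h, 2 * h) := rfl
  refine ⟨fun n => (o (n - n0)).1, fun n => (o (n - n0)).2.1, fun n => (o (n - n0)).2.2,
    c0, c1, hx, hy, hS, h0, hSpos, hh, ?_, ?_, ?_, ?_, ?_, ?_⟩
  · simp [ho0]
  · simp [ho0]
  · simp [ho0]
  all_goals
    intro n hn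
    obtain ⟨k, rfl⟩ := Nat.exists_eq_add_of_le hn
    have e1 : n0 + k + 1 - n0 = k + 1 := by omega
    have e2 : n0 + k - n0 = k := by omega
    simp only [e1, e2, ho]

/-- forgetting of the initial values -/
theorem forget4 {x y : ℕ → ℝ} {c S h : ℝ} {n0 : ℕ} {α β N α' β' N' : ℕ → ℝ}
    (T : Tro x y c S h 0 α β N) (T' : Tro x y c S h n0 α' β' N') :
    ∃ K : ℝ, 0 ≤ K ∧ ∀ n, n0 ≤ n →
      α n - α' n ≤ K * N n ^ th4 ∧ β n - β' n ≤ K * N n ^ th4 := by
  have hNN : ∀ n, n0 ≤ n → N' n ≤ N n := by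
    intro n hn
    induction n, hn using Nat.le_induction with
    | base => rw [T'.iN]; exact T.N_ge (Nat.zero_le _)
    | succ k hk ih => rw [T'.stN k hk, T.stN k (Nat.zero_le _)]; linarith
  set P : ℕ → ℝ := fun n => max (α n - α' n) 0 with hP
  set Q : ℕ → ℝ := fun n => max (β n - β' n) 0 with hQ
  have hPnn : ∀ n, 0 ≤ P n := fun n => le_max_right _ _
  have hQnn : ∀ n, 0 ≤ Q n := fun n => le_max_right _ _
  set K0 : ℝ := max (P n0) (Q n0) with hK0
  have hK0nn : 0 ≤ K0 := le_max_of_le_left (hPnn n0)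
  set cP := Tro.cp α' β' N' with hcP
  set cQ := Tro.cp β' α' N' with hcQ
  have pP : ∀ n, n0 ≤ n → 0 < cP n := fun n hn => T'.cp_pos hn
  have pQ : ∀ n, n0 ≤ n → 0 < cQ n := fun n hn => T'.swap.cp_pos hn
  set A : ℝ := min (cP n0 ^ th4) (cQ n0 ^ th4) with hA
  have hApos : 0 < A := lt_min (Real.rpow_pos_of_pos (pP _ le_rfl) _)
    (Real.rpow_pos_of_pos (pQ _ le_rfl) _)
  set K : ℝ := K0 / A with hK
  have hKnn : 0 ≤ K := div_nonneg hK0nn hApos.le
  have hKA : ∀ u, A ≤ u → K0 ≤ K * u := by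
    intro u hu
    calc K0 = K * A := by rw [hK]; field_simp
      _ ≤ K * u := mul_le_mul_of_nonneg_left hu hKnn
  have key : ∀ n, n0 ≤ n → P n ≤ K * cP n ^ th4 ∧ Q n ≤ K * cQ n ^ th4 := by
    intro n hn
    refine gap4 (HF := fun n => α' (n + 1) ≠ α' n + x n)
      (HG := fun n => β' (n + 1) ≠ β' n + y n) hKnn pP pQ
      (fun n hn => T'.cp_mono hn) (fun n hn => T'.swap.cp_mono hn) ?_ ?_ ?_ ?_ ?_ ?_
      ((le_max_left _ _).trans (hKA _ (min_le_left _ _)))
      ((le_max_right _ _).trans (hKA _ (min_le_right _ _))) hn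
    · intro n hn hh
      have hs : 2 * (β' n + y n) ≤ α' n + x n := by
        rcases T'.step hn with ⟨h1, _⟩ | ⟨_, h3, _⟩ | ⟨h1, _, _⟩
        · exact absurd h1 hh
        · exact h3
        · exact absurd h1 hh
      have hNp := T'.N_pos hn
      have hcN : 0 < c * N' n := mul_pos T'.c0 hNp
      have e1 := T'.add_le hn; have e2 := T'.xS n; have e3 := T'.ynn n
      obtain ⟨h4, h5⟩ := T'.harm_cp hn (by linarith)
      rw [hcP, hcQ, h4, h5]
      exact le_of_eq (by ring)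
    · intro n hn hh
      have hs : 2 * (α' n + x n) ≤ β' n + y n := by
        rcases T'.step hn with ⟨_, h1⟩ | ⟨_, _, h1⟩ | ⟨_, _, h3⟩
        · exact absurd h1 hh
        · exact absurd h1 hh
        · exact h3
      have hNp := T'.N_pos hn
      have hcN : 0 < c * N' n := mul_pos T'.c0 hNp
      have e1 := T'.add_le hn; have e2 := T'.yS n; have e3 := T'.xnn n
      obtain ⟨h4, h5⟩ := T'.swap.harm_cp hn (by linarith)
      rw [hcP, hcQ, h4, h5]
      exact le_of_eq (by ring)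
    · intro n hn hh
      have h1 : α' (n + 1) = α' n + x n := not_not.1 hh
      have h2 := (T.le_succ (Nat.zero_le n)).2.1
      simp only [hP]
      apply max_le_max _ le_rfl
      linarith
    · intro n hn hh
      have h1 : α' (n + 1) = 2 * (β' n + y n) := by
        rcases T'.step hn with ⟨h1, _⟩ | ⟨h1, _, _⟩ | ⟨h1, _, _⟩
        · exact absurd h1 hh
        · exact h1
        · exact absurd h1 hh
      have h2 := (T.le_succ (Nat.zero_le n)).2.2
      have h3 := le_max_left (β n - β' n) 0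
      have h4 := hQnn n
      refine max_le (le_max_of_le_right ?_) (le_max_of_le_left (hPnn n))
      rw [h1]
      simp only [hQ] at h4 ⊢
      linarith
    · intro n hn hh
      have h1 : β' (n + 1) = β' n + y n := not_not.1 hh
      have h2 := (T.swap.le_succ (Nat.zero_le n)).2.1
      simp only [hQ]
      apply max_le_max _ le_rfl
      linarith
    · intro n hn hh
      have h1 : β' (n + 1) = 2 * (α' n + x n) := by
        rcases T'.step hn with ⟨_, h1⟩ | ⟨_, _, h1⟩ | ⟨_, h1, _⟩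
        · exact absurd h1 hh
        · exact absurd h1 hh
        · exact h1
      have h2 := (T.swap.le_succ (Nat.zero_le n)).2.2
      have h3 := le_max_left (α n - α' n) 0
      have h4 := hPnn n
      refine max_le (le_max_of_le_right ?_) (le_max_of_le_left (hQnn n))
      rw [h1]
      simp only [hP] at h4 ⊢
      linarith
  refine ⟨K * 7 ^ th4, by positivity, fun n hn => ?_⟩
  obtain ⟨k1, k2⟩ := key n hn
  have hu : ∀ u, 0 < u → u ≤ 7 * N' n → K * u ^ th4 ≤ K * 7 ^ th4 * N n ^ th4 := by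
    intro u hu0 hu1
    rw [mul_assoc, ← Real.mul_rpow (by norm_num) (T.N_pos (Nat.zero_le n)).le]
    apply mul_le_mul_of_nonneg_left _ hKnn
    apply Real.rpow_le_rpow hu0.le _ th4_pos.le
    have := hNN n hn
    linarith
  constructor
  · exact (le_max_left _ _).trans (k1.trans (hu _ (pP n hn) (T'.cp_upper hn)))
  · exact (le_max_left _ _).trans (k2.trans (hu _ (pQ n hn) (T'.swap.cp_upper hn)))

end Pool.Agent.TH238
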