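import Mathlib

set_option autoImplicit false

/-!
Size exponents (a min-plus dynamical system) of compositions of the maps
`(z, w) ↦ (a z + c w^2, b w)` and `(z, w) ↦ (a z, b w + c z^2)`.
-/

namespace Pool.Agent.TH238

/-- The exponent system from time `n0` on: `α, β` are the exponents of the two coordinates,
`N` is the exponent of the Jacobian. -/
structure Trop (t : ℕ → Bool) (x y : ℕ → ℝ) (S h : ℝ) (n0 : ℕ) (α β N : ℕ → ℝ) : Prop where
  hx : ∀ n, (0.2379 : ℝ) * (x n + y n) ≤ x n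
  hy : ∀ n, (0.2379 : ℝ) * (x n + y n) ≤ y n
  hS : ∀ n, x n + y n ≤ S
  h0 : ∀ n, 0 ≤ x n + y n
  hSpos : 0 < S
  hh : 2500 * S ≤ h
  ia : α n0 = h
  ib : β n0 = h
  iN : N n0 = 2 * h
  stN : ∀ n, n0 ≤ n → N (n + 1) = N n + (x n + y n)
  F1 : ∀ n, n0 ≤ n → t n = true → α (n + 1) = min (α n + x n) (2 * β n)
  F2 : ∀ n, n0 ≤ n → t n = true → β (n + 1) = β n + y n
  G1 : ∀ n, n0 ≤ n → t n = false → α (n + 1) = α n + x n
  G2 : ∀ n, n0 ≤ n → t n = false → β (n + 1) = min (β n + y n) (2 * α n)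

namespace Trop

variable {t : ℕ → Bool} {x y : ℕ → ℝ} {S h : ℝ} {n0 : ℕ} {α β N : ℕ → ℝ}

theorem swap (T : Trop t x y S h n0 α β N) :
    Trop (fun n => !(t n)) y x S h n0 β α N where
  hx := fun n => by have := T.hy n; linarith
  hy := fun n => by have := T.hx n; linarith
  hS := fun n => by have := T.hS n; linarith
  h0 := fun n => by have := T.h0 n; linarith
  hSpos := T.hSpos
  hh := T.hh
  ia := T.ib
  ib := T.ia
  iN := T.iN
  stN := fun n hn => by rw [T.stN n hn]; ring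
  F1 := fun n hn ht => T.G2 n hn (by simpa using ht)
  F2 := fun n hn ht => T.G1 n hn (by simpa using ht)
  G1 := fun n hn ht => T.F2 n hn (by simpa using ht)
  G2 := fun n hn ht => T.F1 n hn (by simpa using ht)

theorem hpos (T : Trop t x y S h n0 α β N) : 0 < h := by
  have h1 := T.hh; have h2 := T.hSpos; linarith

theorem N_succ_ge (T : Trop t x y S h n0 α β N) {n : ℕ} (hn : n0 ≤ n) : N n ≤ N (n + 1) := by
  have h1 := T.stN n hn; have h2 := T.h0 n; linarith

theorem N_mono (T : Trop t x y S h n0 α β N) {m n : ℕ} (hm : n0 ≤ m) (hn : m ≤ n) :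
    N m ≤ N n := by
  induction n, hn using Nat.le_induction with
  | base => exact le_rfl
  | succ k hk ih => exact ih.trans (T.N_succ_ge (hm.trans hk))

theorem N_ge (T : Trop t x y S h n0 α β N) {n : ℕ} (hn : n0 ≤ n) : 2 * h ≤ N n := by
  have := T.N_mono le_rfl hn
  rw [T.iN] at this; exact this

/-- Every step: either type. -/
theorem step (T : Trop t x y S h n0 α β N) {n : ℕ} (hn : n0 ≤ n) :
    ((α (n + 1) = α n + x n ∨ (α (n + 1) = 2 * β n ∧ 2 * β n ≤ α n + x n ∧ t n = true)) ∧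
      β (n + 1) = β n + y n) ∨
    (α (n + 1) = α n + x n ∧
      (β (n + 1) = 2 * α n ∧ 2 * α n ≤ β n + y n ∧ t n = false)) := by
  rcases ht : t n with _ | _
  · have h1 := T.G1 n hn ht
    have h2 := T.G2 n hn ht
    rcases le_total (β n + y n) (2 * α n) with h3 | h3
    · rw [min_eq_left h3] at h2
      exact Or.inl ⟨Or.inl h1, h2⟩
    · rw [min_eq_right h3] at h2
      exact Or.inr ⟨h1, h2, h3, rfl⟩
  · have h1 := T.F1 n hn ht
    have h2 := T.F2 n hn ht
    rcases le_total (α n + x n) (2 * β n) with h3 | h3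
    · rw [min_eq_left h3] at h1
      exact Or.inl ⟨Or.inl h1, h2⟩
    · rw [min_eq_right h3] at h1
      exact Or.inl ⟨Or.inr ⟨h1, h3, rfl⟩, h2⟩

theorem ge_h (T : Trop t x y S h n0 α β N) {n : ℕ} (hn : n0 ≤ n) : h ≤ α n ∧ h ≤ β n := by
  induction n, hn using Nat.le_induction with
  | base => rw [T.ia, T.ib]; exact ⟨le_rfl, le_rfl⟩
  | succ k hk ih =>
    obtain ⟨i1, i2⟩ := ih
    have hp := T.hpos
    have e1 := T.hx k; have e2 := T.hy k; have e3 := T.h0 k
    rcases T.step hk with ⟨h1 | ⟨h1, _, _⟩, h2⟩ | ⟨h1, h2, _, _⟩ <;> rw [h1, h2] <;>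
      constructor <;> linarith

theorem ge_nu (T : Trop t x y S h n0 α β N) {n : ℕ} (hn : n0 ≤ n) :
    0.2379 * N n ≤ α n ∧ 0.2379 * N n ≤ β n := by
  induction n, hn using Nat.le_induction with
  | base =>
    have hp := T.hpos
    rw [T.ia, T.ib, T.iN]; constructor <;> linarith
  | succ k hk ih =>
    obtain ⟨i1, i2⟩ := ih
    have hp := T.hpos
    have e1 := T.hx k; have e2 := T.hy k; have e3 := T.h0 k
    have e4 := T.N_ge hk; have e5 := T.hS k; have e6 := T.hh
    rw [T.stN k hk]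
    rcases T.step hk with ⟨h1 | ⟨h1, _, _⟩, h2⟩ | ⟨h1, h2, _, _⟩ <;> rw [h1, h2] <;>
      constructor <;> linarith

theorem add_le (T : Trop t x y S h n0 α β N) {n : ℕ} (hn : n0 ≤ n) :
    α n + β n ≤ N n := by
  induction n, hn using Nat.le_induction with
  | base => rw [T.ia, T.ib, T.iN]; linarith
  | succ k hk ih =>
    rw [T.stN k hk]
    rcases T.step hk with ⟨h1 | ⟨h1, h3, _⟩, h2⟩ | ⟨h1, h2, h3, _⟩ <;> rw [h1, h2] <;> linarith

/-- The key disjunctive invariant. -/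
theorem inv (T : Trop t x y S h n0 α β N) {n : ℕ} (hn : n0 ≤ n) :
    0.30601077 * N n - S ≤ 0.5242 * α n + 0.2379 * β n ∨
    0.30601077 * N n - S ≤ 0.2379 * α n + 0.5242 * β n := by
  induction n, hn using Nat.le_induction with
  | base =>
    have hp := T.hpos; have h1 := T.hSpos
    rw [T.ia, T.ib, T.iN]; left; linarith
  | succ k hk ih =>
    have hp := T.hpos
    have e1 := T.hx k; have e2 := T.hy k; have e3 := T.h0 k
    have e4 := T.N_ge hk; have e5 := T.hS k; have e6 := T.hh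
    obtain ⟨g1, g2⟩ := T.ge_nu hk
    rw [T.stN k hk]
    rcases T.step hk with ⟨h1 | ⟨h1, h3, _⟩, h2⟩ | ⟨h1, h2, h3, _⟩
    · rw [h1, h2]
      rcases ih with ih | ih
      · left; linarith
      · right; linarith
    · rw [h1, h2]; left; linarith
    · rw [h1, h2]; right; linarith

/-- lower bound for `β` after a time at which `α` is small. -/
theorem beta_ge (T : Trop t x y S h n0 α β N) {m : ℕ} (hm : n0 ≤ m)
    (ha : 3 * α m ≤ 1.002 * N m + S) : 0.432186 * N m - 5 * S ≤ β m := by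
  have hp := T.hpos; have h1 := T.hSpos; have h2 := T.N_ge hm
  rcases T.inv hm with h3 | h3 <;> linarith

theorem beta_grow (T : Trop t x y S h n0 α β N) {m n : ℕ} (hm : n0 ≤ m) (hn : m ≤ n) :
    0.2379 * N n + min (β m - 0.2379 * N m) (0.2379 * N m - 0.2379 * S) ≤ β n := by
  induction n, hn using Nat.le_induction with
  | base =>
    have := min_le_left (β m - 0.2379 * N m) (0.2379 * N m - 0.2379 * S)
    linarith
  | succ k hk ih =>
    have hk' := hm.trans hk
    have e1 := T.hx k; have e2 := T.hy k; have e3 := T.h0 k; have e5 := T.hS k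
    obtain ⟨g1, g2⟩ := T.ge_nu hk'
    have e6 := T.N_mono hm hk
    have e7 := min_le_right (β m - 0.2379 * N m) (0.2379 * N m - 0.2379 * S)
    rw [T.stN k hk']
    rcases T.step hk' with ⟨_, h2⟩ | ⟨_, h2, h3, _⟩ <;> rw [h2] <;> linarith

/-- alternation times are far apart. -/
theorem star (T : Trop t x y S h n0 α β N) {m n : ℕ} (hm : n0 ≤ m) (hn : m ≤ n)
    (ha : 3 * α m ≤ 1.002 * N m + S) (hb : 3 * β n ≤ 1.002 * N n + S) :
    2.01 * N m ≤ N n := by
  have h1 := T.beta_ge hm ha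
  have h2 := T.beta_grow hm hn
  have h3 := T.N_ge hm
  have h4 := T.hh
  have h5 := T.hSpos
  have h6 : 0.194286 * N m - 5 * S ≤
      min (β m - 0.2379 * N m) (0.2379 * N m - 0.2379 * S) := by
    apply le_min <;> linarith
  linarith

end Trop

/-- Existence of the exponent system. -/
theorem exists_trop (t : ℕ → Bool) (x y : ℕ → ℝ) {S h : ℝ}
    (hx : ∀ n, (0.2379 : ℝ) * (x n + y n) ≤ x n)
    (hy : ∀ n, (0.2379 : ℝ) * (x n + y n) ≤ y n)
    (hS : ∀ n, x n + y n ≤ S) (h0 : ∀ n, 0 ≤ x n + y n) (hSpos : 0 < S)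
    (hh : 2500 * S ≤ h) (n0 : ℕ) :
    ∃ α β N : ℕ → ℝ, Trop t x y S h n0 α β N := by
  let o : ℕ → ℝ × ℝ × ℝ := fun k => Nat.rec (h, h, 2 * h) (fun k p =>
    if t (n0 + k) then (min (p.1 + x (n0 + k)) (2 * p.2.1), p.2.1 + y (n0 + k),
      p.2.2 + (x (n0 + k) + y (n0 + k)))
    else (p.1 + x (n0 + k), min (p.2.1 + y (n0 + k)) (2 * p.1),
      p.2.2 + (x (n0 + k) + y (n0 + k)))) k
  have ho : ∀ k, o (k + 1) =
    if t (n0 + k) then (min ((o k).1 + x (n0 + k)) (2 * (o k).2.1), (o k).2.1 + y (n0 + k),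
      (o k).2.2 + (x (n0 + k) + y (n0 + k)))
    else ((o k).1 + x (n0 + k), min ((o k).2.1 + y (n0 + k)) (2 * (o k).1),
      (o k).2.2 + (x (n0 + k) + y (n0 + k))) := fun k => rfl
  have ho0 : o 0 = (h, h, 2 * h) := rfl
  refine ⟨fun n => (o (n - n0)).1, fun n => (o (n - n0)).2.1, fun n => (o (n - n0)).2.2,
    hx, hy, hS, h0, hSpos, hh, ?_, ?_, ?_, ?_, ?_, ?_, ?_, ?_⟩
  · simp [ho0]
  · simp [ho0]
  · simp [ho0]
  all_goals
    intro n hn
    obtain ⟨k, rfl⟩ := Nat.exists_eq_add_of_le hn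
    have e1 : n0 + k + 1 - n0 = k + 1 := by omega
    have e2 : n0 + k - n0 = k := by omega
  · show (o (n0 + k + 1 - n0)).2.2 = (o (n0 + k - n0)).2.2 + (x (n0 + k) + y (n0 + k))
    rw [e1, e2, ho]
    split_ifs <;> rfl
  · intro ht
    show (o (n0 + k + 1 - n0)).1 = min ((o (n0 + k - n0)).1 + x (n0 + k))
      (2 * (o (n0 + k - n0)).2.1)
    rw [e1, e2, ho, if_pos ht]
  · intro ht
    show (o (n0 + k + 1 - n0)).2.1 = (o (n0 + k - n0)).2.1 + y (n0 + k)
    rw [e1, e2, ho, if_pos ht]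
  · intro ht
    show (o (n0 + k + 1 - n0)).1 = (o (n0 + k - n0)).1 + x (n0 + k)
    rw [e1, e2, ho, if_neg (by simp [ht])]
  · intro ht
    show (o (n0 + k + 1 - n0)).2.1 = min ((o (n0 + k - n0)).2.1 + y (n0 + k))
      (2 * (o (n0 + k - n0)).1)
    rw [e1, e2, ho, if_neg (by simp [ht])]

end Pool.Agent.TH238
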